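import Pool.Agent.LebSym.HexArea

/-! # Centrally symmetric covers -/

open MeasureTheory

namespace PoolLebSym

open PoolLeb

theorem three_cones {K : Set ℂ} (hm : MeasurableSet K) (hf : volume K ≠ ⊤) (a b c : ℂ) :
    Vc K a b + Vc K b c + Vc K c a ≤ (volume K).toReal := by
  have sw := geo_cr_swap
  have d1 : Disjoint (K ∩ cone a b) (K ∩ cone b c) := by
    rw [Set.disjoint_left]
    rintro z ⟨_, _, h4⟩ ⟨_, h5, _⟩
    rw [sw] at h5
    linarith
  have d2 : Disjoint ((K ∩ cone a b) ∪ (K ∩ cone b c)) (K ∩ cone c a) := by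
    rw [Set.disjoint_left]
    rintro z (⟨_, h3, h4⟩ | ⟨_, h3, h4⟩) ⟨_, h5, h6⟩
    · rw [sw] at h3
      linarith
    · rw [sw] at h5
      linarith
  have hm1 := hm.inter (measurableSet_cone b c)
  have hm2 := hm.inter (measurableSet_cone c a)
  have e : volume (((K ∩ cone a b) ∪ (K ∩ cone b c)) ∪ (K ∩ cone c a))
      = volume (K ∩ cone a b) + volume (K ∩ cone b c) + volume (K ∩ cone c a) := by
    rw [measure_union d2 hm2, measure_union d1 hm1]
  have hle : volume (K ∩ cone a b) + volume (K ∩ cone b c) + volume (K ∩ cone c a) ≤ volume K := by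
    rw [← e]
    apply measure_mono
    intro z hz
    rcases hz with (h | h) | h
    · exact h.1
    · exact h.1
    · exact h.1
  unfold Vc
  rw [← ENNReal.toReal_add (geo_fin hf a b) (geo_fin hf b c), ← ENNReal.toReal_add
    (ENNReal.add_ne_top.2 ⟨geo_fin hf a b, geo_fin hf b c⟩) (geo_fin hf c a)]
  exact ENNReal.toReal_mono hf hle

/-- two triangles in a cone -/
theorem two_tri {K : Set ℂ} (hK : Good K) {a p b : ℂ} (ha : a ∈ K) (hp : p ∈ K) (hb : b ∈ K)
    (h1 : 0 < cr a p) (h2 : 0 < cr p b) (h3 : 0 < cr a b) :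
    (cr a p + cr p b) / 2 ≤ Vc K a b := by
  have h0 : (0 : ℂ) ∈ K := hK.disk (by simp)
  have h4 := Vc_super hK.closed.measurableSet hK.fin h1 h2 h3
  have h5 := Vc_tri hK.conv hK.fin h0 ha hp h1
  have h6 := Vc_tri hK.conv hK.fin h0 hp hb h2
  linarith

theorem cr_neg_right (a b : ℂ) : cr a (-b) = cr b a := by
  unfold cr
  simp only [Complex.neg_re, Complex.neg_im]
  ring

theorem cr_neg_left (a b : ℂ) : cr (-a) b = cr b a := by
  unfold cr
  simp only [Complex.neg_re, Complex.neg_im]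
  ring

theorem cr_mul (x y p : ℂ) : cr (x * p) (y * p) = (x.re * y.im - x.im * y.re) * ‖p‖ ^ 2 := by
  rw [← Complex.normSq_eq_norm_sq, Complex.normSq_apply]
  unfold cr
  simp only [Complex.mul_re, Complex.mul_im]
  ring

theorem cr_le_norm (a b : ℂ) : cr a b ≤ ‖a‖ * ‖b‖ := by
  have h1 : cr a b = ((starRingEnd ℂ) a * b).im := by
    unfold cr
    simp only [Complex.mul_im, Complex.conj_re, Complex.conj_im]
    ring
  rw [h1]
  refine (Complex.im_le_norm _).trans ?_
  rw [norm_mul, RCLike.norm_conj]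

/-- a symmetric body containing the disk and a far point is large -/
theorem far_point {K : Set ℂ} (hK : Good K) (hs : ∀ z ∈ K, -z ∈ K) {p : ℂ} (hp : p ∈ K)
    (hn : √3 / 2 ≤ ‖p‖) : √3 / 2 < (volume K).toReal := by
  have h3 : 0 < √3 := by positivity
  have e3 : √3 * √3 = 3 := Real.mul_self_sqrt (by norm_num)
  have hlt : √3 < 2 := by nlinarith
  have h0 : (0 : ℂ) ∈ K := hK.disk (by simp)
  have hp0 : 0 < ‖p‖ := by linarith
  -- shrink
  obtain ⟨q, hq, hqn⟩ : ∃ q ∈ K, ‖q‖ = √3 / 2 := by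
    refine ⟨((√3 / 2 / ‖p‖ : ℝ) : ℂ) * p, ?_, ?_⟩
    · have h1 := hK.conv hp h0 (a := √3 / 2 / ‖p‖) (b := 1 - √3 / 2 / ‖p‖) (by positivity)
        (by rw [sub_nonneg, div_le_one hp0]; exact hn) (by ring)
      simpa [Complex.real_smul] using h1
    · rw [norm_mul, Complex.norm_real, Real.norm_of_nonneg (by positivity)]
      field_simp
  have hq2 : ‖q‖ ^ 2 = 3 / 4 := by rw [hqn]; nlinarith
  -- disk points
  have hd : ∀ c : ℂ, c.re ^ 2 + c.im ^ 2 = 1 / 3 → c * q ∈ K := by
    intro c hc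
    apply hK.disk
    rw [mem_closedBall_zero_iff]
    apply le_of_sq_le_sq _ (by norm_num)
    rw [norm_mul, mul_pow, hq2, ← Complex.normSq_eq_norm_sq, Complex.normSq_apply]
    nlinarith
  have e6 : √3 * √3 / 6 = 1 / 2 := by linarith
  set c1 : ℂ := ⟨√3 / 6, 1 / 2⟩ with hc1
  set c2 : ℂ := ⟨-(√3 / 6), 1 / 2⟩ with hc2
  have m1 : c1 * q ∈ K := hd c1 (by simp only [hc1]; nlinarith)
  have m2 : c2 * q ∈ K := hd c2 (by simp only [hc2]; nlinarith)
  have m3 := hs _ hq
  have m4 := hs _ m1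
  have m5 := hs _ m2
  have r1 : -q = (-1 : ℂ) * q := by ring
  have x1 : cr q (c1 * q) = 3 / 8 := by
    have h := cr_mul 1 c1 q
    rw [one_mul] at h
    rw [h, hq2]
    simp [hc1]
    norm_num
  have x2 : cr (c1 * q) (c2 * q) = √3 / 8 := by
    rw [cr_mul, hq2]
    simp only [hc1, hc2]
    ring
  have x3 : cr (c2 * q) (-q) = 3 / 8 := by
    rw [r1, cr_mul, hq2]
    simp [hc2]
    norm_num
  have x4 : cr (-q) (-(c1 * q)) = 3 / 8 := by
    rw [cr_neg_right, cr_neg_right, x1]
  have x5 : cr (-(c1 * q)) (-(c2 * q)) = √3 / 8 := by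
    rw [cr_neg_right, cr_neg_right, x2]
  have x6 : cr (-(c2 * q)) q = 3 / 8 := by
    rw [cr_neg_left]
    rw [← x3, cr_neg_right]
  have y1 : 0 < cr q (c2 * q) := by
    rw [← cr_neg_right, x3]
    norm_num
  have y2 : 0 < cr (c2 * q) (-(c1 * q)) := by
    rw [cr_neg_right, x2]
    positivity
  have y3 : 0 < cr (-(c1 * q)) q := by
    rw [cr_neg_left, x1]
    norm_num
  have t1 := two_tri hK hq m1 m2 (by rw [x1]; norm_num) (by rw [x2]; positivity) y1
  have t2 := two_tri hK m2 m3 m4 (by rw [x3]; norm_num) (by rw [x4]; norm_num) y2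
  have t3 := two_tri hK m4 m5 hq (by rw [x5]; positivity) (by rw [x6]; norm_num) y3
  have t := three_cones hK.closed.measurableSet hK.fin q (c2 * q) (-(c1 * q))
  rw [x1, x2] at t1
  rw [x3, x4] at t2
  rw [x5, x6] at t3
  nlinarith

/-- a triangle of side 1, in counterclockwise order -/
structure Tri (a b c : ℂ) : Prop where
  ab : ‖b - a‖ = 1
  bc : ‖c - b‖ = 1
  ca : ‖a - c‖ = 1
  area : cr a b + cr b c + cr c a = √3 / 2

theorem tri_far {a b c : ℂ} (h : Tri a b c) (h1 : cr a b ≤ 0) : √3 / 2 ≤ ‖c‖ := by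
  have h2 := cr_le_norm (b - a) c
  rw [h.ab, one_mul] at h2
  have h3 : cr (b - a) c = cr a b + cr b c + cr c a - cr a b := by
    unfold cr
    simp only [Complex.sub_re, Complex.sub_im]
    ring
  rw [h3, h.area] at h2
  linarith

theorem Tri.rot {a b c : ℂ} (h : Tri a b c) : Tri b c a :=
  ⟨h.bc, h.ca, h.ab, by rw [← h.area]; ring⟩

theorem central_dichotomy {K : Set ℂ} (hK : Good K) (hs : ∀ z ∈ K, -z ∈ K) {a b c : ℂ}
    (h : Tri a b c) (ha : a ∈ K) (hb : b ∈ K) (hc : c ∈ K) :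
    √3 / 2 < (volume K).toReal ∨ (0 < cr a b ∧ 0 < cr b c ∧ 0 < cr c a) := by
  by_cases h1 : cr a b ≤ 0
  · exact Or.inl (far_point hK hs hc (tri_far h h1))
  by_cases h2 : cr b c ≤ 0
  · exact Or.inl (far_point hK hs ha (tri_far h.rot h2))
  by_cases h3 : cr c a ≤ 0
  · exact Or.inl (far_point hK hs hb (tri_far h.rot.rot h3))
  exact Or.inr ⟨not_le.1 h1, not_le.1 h2, not_le.1 h3⟩

theorem central_bound {K : Set ℂ} (hK : Good K) (hs : ∀ z ∈ K, -z ∈ K) {a b c : ℂ}
    (h : Tri a b c) (ha : a ∈ K) (hb : b ∈ K) (hc : c ∈ K) :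
    √3 / 2 ≤ (volume K).toReal := by
  rcases central_dichotomy hK hs h ha hb hc with h1 | ⟨h1, h2, h3⟩
  · exact h1.le
  have t1 := two_tri hK ha (hs _ hc) hb (by rw [cr_neg_right]; exact h3)
    (by rw [cr_neg_left]; exact h2) h1
  have t2 := two_tri hK hb (hs _ ha) hc (by rw [cr_neg_right]; exact h1)
    (by rw [cr_neg_left]; exact h3) h2
  have t3 := two_tri hK hc (hs _ hb) ha (by rw [cr_neg_right]; exact h2)
    (by rw [cr_neg_left]; exact h1) h3
  have t := three_cones hK.closed.measurableSet hK.fin a b c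
  rw [cr_neg_right, cr_neg_left] at t1 t2 t3
  have := h.area
  linarith

/-- tight cones give supporting lines -/
theorem tight_edge {K : Set ℂ} (hK : Good K) {a b : ℂ} (ha : a ∈ K) (hb : b ∈ K)
    (hab : 0 < cr a b) (ht : Vc K a b ≤ cr a b / 2) {x : ℂ} (hx : x ∈ K) :
    cr a x + cr x b ≤ cr a b := by
  by_contra hcon
  rw [not_le] at hcon
  -- the point y = (1 - e) m + e x
  obtain ⟨e, he0, he1, hea, heb⟩ : ∃ e : ℝ, 0 < e ∧ e < 1 ∧
      0 < (1 - e) * (cr a b / 2) + e * cr a x ∧ 0 < (1 - e) * (cr a b / 2) + e * cr x b := by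
    set P := cr a b / 2 with hP
    have hP0 : 0 < P := by positivity
    set Q := |cr a x| + |cr x b| + P with hQ
    have hQ0 : 0 < Q := by positivity
    refine ⟨P / (2 * (P + Q)), by positivity, ?_, ?_, ?_⟩
    · rw [div_lt_one (by positivity)]
      linarith
    · have h1 : P / (2 * (P + Q)) * (P + Q) = P / 2 := by
        field_simp
      have h2 : -(P + Q) + P ≤ cr a x := by
        have := neg_abs_le (cr a x)
        have := abs_nonneg (cr x b)
        linarith
      have h3 : 0 < P / (2 * (P + Q)) := by positivity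
      nlinarith
    · have h1 : P / (2 * (P + Q)) * (P + Q) = P / 2 := by
        field_simp
      have h2 : -(P + Q) + P ≤ cr x b := by
        have := neg_abs_le (cr x b)
        have := abs_nonneg (cr a x)
        linarith
      have h3 : 0 < P / (2 * (P + Q)) := by positivity
      nlinarith
  set y : ℂ := (1 - e) • ((1 / 2 : ℝ) • a + (1 / 2 : ℝ) • b) + e • x with hy
  have hyK : y ∈ K := by
    apply hK.conv _ hx (by linarith) he0.le (by ring)
    exact hK.conv ha hb (by norm_num) (by norm_num) (by norm_num)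
  have ey1 : cr a y = (1 - e) * (cr a b / 2) + e * cr a x := by
    unfold cr
    simp only [hy, Complex.add_re, Complex.add_im, Complex.smul_re, Complex.smul_im, smul_eq_mul]
    ring
  have ey2 : cr y b = (1 - e) * (cr a b / 2) + e * cr x b := by
    unfold cr
    simp only [hy, Complex.add_re, Complex.add_im, Complex.smul_re, Complex.smul_im, smul_eq_mul]
    ring
  have h1 := two_tri hK ha hyK hb (by rw [ey1]; exact hea) (by rw [ey2]; exact heb) hab
  rw [ey1, ey2] at h1
  nlinarith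

/-- the supporting line is at distance at least `1/2` -/
theorem tight_dist {K : Set ℂ} (hK : Good K) {a b : ℂ} (ha : a ∈ K) (hb : b ∈ K)
    (hab : 0 < cr a b) (ht : Vc K a b ≤ cr a b / 2) : ‖a - b‖ / 2 ≤ cr a b := by
  have hne : a - b ≠ 0 := by
    intro h
    rw [sub_eq_zero] at h
    rw [h] at hab
    unfold cr at hab
    linarith
  have hn : 0 < ‖a - b‖ := norm_pos_iff.2 hne
  have hx : (Complex.I * (a - b) / (2 * ‖a - b‖ : ℝ) : ℂ) ∈ K := by
    apply hK.disk
    rw [mem_closedBall_zero_iff, norm_div, norm_mul, Complex.norm_I, one_mul, Complex.norm_real,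
      Real.norm_of_nonneg (by positivity)]
    apply le_of_eq
    field_simp
  have h := tight_edge hK ha hb hab ht hx
  have e : cr a (Complex.I * (a - b) / (2 * ‖a - b‖ : ℝ) : ℂ)
      + cr (Complex.I * (a - b) / (2 * ‖a - b‖ : ℝ) : ℂ) b = ‖a - b‖ / 2 := by
    have e1 : (Complex.I * (a - b) / (2 * ‖a - b‖ : ℝ) : ℂ)
        = ((1 / (2 * ‖a - b‖) : ℝ) : ℂ) * (Complex.I * (a - b)) := by
      push_cast
      field_simp
    have e2 : ‖a - b‖ ^ 2 = (a.re - b.re) ^ 2 + (a.im - b.im) ^ 2 := by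
      rw [← Complex.normSq_eq_norm_sq, Complex.normSq_apply]
      simp only [Complex.sub_re, Complex.sub_im]
      ring
    rw [e1]
    generalize hk : (1 / (2 * ‖a - b‖) : ℝ) = k
    have e3 : cr a ((k : ℂ) * (Complex.I * (a - b))) + cr ((k : ℂ) * (Complex.I * (a - b))) b
        = k * ((a.re - b.re) ^ 2 + (a.im - b.im) ^ 2) := by
      unfold cr
      simp only [Complex.mul_re, Complex.mul_im, Complex.ofReal_re, Complex.ofReal_im,
        Complex.I_re, Complex.I_im, Complex.sub_re, Complex.sub_im]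
      ring
    rw [e3, ← e2, ← hk]
    field_simp
  rw [e] at h
  exact h

end PoolLebSym
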