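import Pool.Agent.LebSym.HexArea

/-! # Completion: every planar set of diameter one lies in a set of constant width one -/

open MeasureTheory

namespace PoolLebSym

open PoolLeb

/-- diameter at most one -/
def D1 (C : Set ℂ) : Prop := ∀ z ∈ C, ∀ w ∈ C, ‖z - w‖ ≤ 1

/-- no point can be added -/
def Full (C : Set ℂ) : Prop := ∀ z, (∀ w ∈ C, ‖z - w‖ ≤ 1) → z ∈ C

theorem exists_full {S : Set ℂ} (hS : D1 S) : ∃ C, S ⊆ C ∧ D1 C ∧ Full C := by
  obtain ⟨C, hSC, hC⟩ := zorn_subset_nonempty {C : Set ℂ | D1 C} (by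
    intro c hc hch hne
    refine ⟨⋃₀ c, ?_, fun s hs => Set.subset_sUnion_of_mem hs⟩
    rintro z ⟨s, hs, hz⟩ w ⟨s', hs', hw⟩
    rcases hch.total hs hs' with h | h
    · exact hc hs' z (h hz) w hw
    · exact hc hs z hz w (h hw)) S hS
  refine ⟨C, hSC, hC.prop, ?_⟩
  intro z hz
  have h1 : D1 (insert z C) := by
    intro x hx y hy
    rcases hx with rfl | hx <;> rcases hy with rfl | hy
    · simp
    · exact hz y hy
    · rw [norm_sub_rev]; exact hz x hx
    · exact hC.prop x hx y hy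
  exact hC.le_of_ge h1 (Set.subset_insert z C) (Set.mem_insert z C)

theorem full_closed {C : Set ℂ} (h1 : D1 C) (h2 : Full C) : IsClosed C := by
  rw [isClosed_iff_clusterPt]
  intro z hz
  apply h2
  intro w hw
  have hc : IsClosed {y : ℂ | ‖y - w‖ ≤ 1} := isClosed_le (by fun_prop) continuous_const
  exact closure_minimal (fun y hy => h1 y hy w hw) hc (mem_closure_iff_clusterPt.2 hz)

theorem full_compact {C : Set ℂ} (h1 : D1 C) (h2 : Full C) : IsCompact C := by
  apply Metric.isCompact_of_isClosed_isBounded (full_closed h1 h2)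
  rw [Metric.isBounded_iff]
  exact ⟨1, fun x hx y hy => by rw [dist_eq_norm]; exact h1 x hx y hy⟩

/-- the components along `u` and across -/
def al (u z : ℂ) : ℝ := u.re * z.re + u.im * z.im
def ac (u z : ℂ) : ℝ := u.re * z.im - u.im * z.re

theorem al_ac {u : ℂ} (hu : u.re ^ 2 + u.im ^ 2 = 1) (z : ℂ) : ‖z‖ ^ 2 = al u z ^ 2 + ac u z ^ 2 := by
  rw [← Complex.normSq_eq_norm_sq, Complex.normSq_apply]
  unfold al ac
  linear_combination (-(z.re ^ 2 + z.im ^ 2)) * hu

theorem al_sub (u z w : ℂ) : al u (z - w) = al u z - al u w := by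
  unfold al
  simp only [Complex.sub_re, Complex.sub_im]
  ring

theorem ac_sub (u z w : ℂ) : ac u (z - w) = ac u z - ac u w := by
  unfold ac
  simp only [Complex.sub_re, Complex.sub_im]
  ring

theorem norm_le_one {z : ℂ} (h : ‖z‖ ^ 2 ≤ 1) : ‖z‖ ≤ 1 := by
  have := norm_nonneg z
  nlinarith

/-- the spindle property, real form -/
theorem spindle_real {s t p1 r1 p2 r2 : ℝ} (e1 : p1 ^ 2 + r1 ^ 2 = 1) (e2 : p2 ^ 2 + r2 ^ 2 = 1)
    (g1 : s ^ 2 + t ^ 2 + 2 * (s * p1 + t * r1) ≤ 0)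
    (g2 : s ^ 2 + t ^ 2 + 2 * (s * p2 + t * r2) ≤ 0)
    (a1 : 0 ≤ p1) (a2 : 0 ≤ p2) (b1 : r1 ≤ 0) (b2 : 0 ≤ r2)
    (h : (p2 - p1) ^ 2 + (r2 - r1) ^ 2 ≤ 1) : s ^ 2 + t ^ 2 + 2 * s ≤ 0 := by
  have i1 : p1 ≤ 1 := by
    have := sq_nonneg r1
    nlinarith only [this, e1, a1]
  have i2 : p2 ≤ 1 := by
    have := sq_nonneg r2
    nlinarith only [this, e2, a2]
  have d1 : 0 ≤ p1 * r2 := mul_nonneg a1 b2
  have d2 : p2 * r1 ≤ 0 := mul_nonpos_of_nonneg_of_nonpos a2 b1
  have hin : 1 / 2 ≤ p1 * p2 + r1 * r2 := by nlinarith only [e1, e2, h]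
  rcases (show 0 ≤ p1 * r2 - p2 * r1 by linarith).lt_or_eq with hD | hD
  · have h5 : p1 * r2 - p2 * r1 ≤ r2 - r1 := by
      have k1 : p1 * r2 ≤ 1 * r2 := mul_le_mul_of_nonneg_right i1 b2
      have k2 : 1 * r1 ≤ p2 * r1 := mul_le_mul_of_nonpos_right i2 b1
      linarith
    have h6 : (r2 - r1) * (s ^ 2 + t ^ 2) + 2 * s * (p1 * r2 - p2 * r1) ≤ 0 := by
      have j1 := mul_nonpos_of_nonneg_of_nonpos b2 g1
      have j2 := mul_nonpos_of_nonneg_of_nonpos (neg_nonneg.2 b1) g2
      have : (r2 - r1) * (s ^ 2 + t ^ 2) + 2 * s * (p1 * r2 - p2 * r1)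
          = r2 * (s ^ 2 + t ^ 2 + 2 * (s * p1 + t * r1))
            + -r1 * (s ^ 2 + t ^ 2 + 2 * (s * p2 + t * r2)) := by ring
      linarith
    have h7 : (p1 * r2 - p2 * r1) * (s ^ 2 + t ^ 2 + 2 * s) ≤ 0 := by
      have hst : 0 ≤ s ^ 2 + t ^ 2 := by positivity
      have k := mul_le_mul_of_nonneg_right h5 hst
      linarith
    by_contra hcon
    rw [not_le] at hcon
    have := mul_pos hD hcon
    linarith
  · have z1 : p1 * r2 = 0 := by linarith
    have z2 : p2 * r1 = 0 := by linarith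
    rcases mul_eq_zero.1 z1 with h1 | h1
    · exfalso
      rw [h1] at e1 hin
      have r1n : r1 = -1 := by nlinarith only [e1, b1]
      rw [r1n] at hin
      linarith
    · rw [h1] at e2 hin
      have p2n : p2 = 1 := by nlinarith only [e2, a2]
      rw [p2n, one_mul] at z2
      rw [z2] at e1 g1
      have p1n : p1 = 1 := by nlinarith only [e1, a1]
      rw [p1n] at g1
      linarith

/-- the spindle property -/
theorem spindle {u x y1 y2 z : ℂ} (hu : u.re ^ 2 + u.im ^ 2 = 1)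
    (n1 : ‖x - y1‖ = 1) (n2 : ‖x - y2‖ = 1) (h12 : ‖y1 - y2‖ ≤ 1)
    (a1 : 0 ≤ al u (x - y1)) (a2 : 0 ≤ al u (x - y2))
    (b1 : ac u (x - y1) ≤ 0) (b2 : 0 ≤ ac u (x - y2))
    (z1 : ‖z - y1‖ ≤ 1) (z2 : ‖z - y2‖ ≤ 1) : ‖z - (x - u)‖ ≤ 1 := by
  apply norm_le_one
  have e1 := al_ac hu (x - y1)
  have e2 := al_ac hu (x - y2)
  have e3 := al_ac hu (z - x)
  have e4 := al_ac hu (z - (x - u))
  have e5 := al_ac hu (z - y1)
  have e6 := al_ac hu (z - y2)
  have e7 := al_ac hu (y1 - y2)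
  rw [n1] at e1
  rw [n2] at e2
  have q1 : ‖z - y1‖ ^ 2 ≤ 1 := pow_le_one₀ (norm_nonneg _) z1
  have q2 : ‖z - y2‖ ^ 2 ≤ 1 := pow_le_one₀ (norm_nonneg _) z2
  have q3 : ‖y1 - y2‖ ^ 2 ≤ 1 := pow_le_one₀ (norm_nonneg _) h12
  have f1 : al u (z - (x - u)) = al u (z - x) + 1 := by
    unfold al
    simp only [Complex.sub_re, Complex.sub_im]
    linear_combination hu
  have f2 : ac u (z - (x - u)) = ac u (z - x) := by
    unfold ac
    simp only [Complex.sub_re, Complex.sub_im]
    ring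
  have f3 : al u (z - y1) = al u (z - x) + al u (x - y1) := by rw [al_sub, al_sub, al_sub]; ring
  have f4 : ac u (z - y1) = ac u (z - x) + ac u (x - y1) := by rw [ac_sub, ac_sub, ac_sub]; ring
  have f5 : al u (z - y2) = al u (z - x) + al u (x - y2) := by rw [al_sub, al_sub, al_sub]; ring
  have f6 : ac u (z - y2) = ac u (z - x) + ac u (x - y2) := by rw [ac_sub, ac_sub, ac_sub]; ring
  have f7 : al u (y1 - y2) = al u (x - y2) - al u (x - y1) := by rw [al_sub, al_sub, al_sub]; ring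
  have f8 : ac u (y1 - y2) = ac u (x - y2) - ac u (x - y1) := by rw [ac_sub, ac_sub, ac_sub]; ring
  rw [f1, f2] at e4
  rw [f3, f4] at e5
  rw [f5, f6] at e6
  rw [f7, f8] at e7
  rw [e4]
  have key := spindle_real (s := al u (z - x)) (t := ac u (z - x)) (p1 := al u (x - y1))
    (r1 := ac u (x - y1)) (p2 := al u (x - y2)) (r2 := ac u (x - y2)) (by linarith) (by linarith)
    (by linarith) (by linarith) a1 a2 b1 b2 (by linarith)
  linarith

/-- **constant width**: a full set has width exactly one in every direction -/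
theorem full_width {C : Set ℂ} (h1 : D1 C) (h2 : Full C) (hne : C.Nonempty) {u : ℂ}
    (hu : u.re ^ 2 + u.im ^ 2 = 1) : ∃ x ∈ C, x - u ∈ C := by
  have hcpt := full_compact h1 h2
  have hcal : Continuous (al u) := by unfold al; fun_prop
  have hcac : Continuous (ac u) := by unfold ac; fun_prop
  obtain ⟨x, hx, hmax⟩ := hcpt.exists_isMaxOn hne hcal.continuousOn
  have hmax' : ∀ y ∈ C, 0 ≤ al u (x - y) := by
    intro y hy
    have h3 : al u y ≤ al u x := hmax hy
    rw [al_sub]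
    linarith
  refine ⟨x, hx, ?_⟩
  -- one-sided situation is impossible
  have key : ∀ σ : ℝ, σ = 1 ∨ σ = -1 → ∃ y ∈ C, ‖x - y‖ = 1 ∧ 0 ≤ σ * ac u (x - y) := by
    intro σ hσ
    have hσ2 : σ ^ 2 = 1 := by rcases hσ with h | h <;> rw [h] <;> norm_num
    by_contra hcon
    push Not at hcon
    -- g y = max (1 - ‖x-y‖) (-σ ac) > 0
    have hgc : Continuous (fun y : ℂ => max (1 - ‖x - y‖) (-(σ * ac u (x - y)))) := by
      have : Continuous (fun y : ℂ => ac u (x - y)) := hcac.comp (by fun_prop)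
      fun_prop
    obtain ⟨y0, hy0, hmin⟩ := hcpt.exists_isMinOn hne hgc.continuousOn
    set κ := max (1 - ‖x - y0‖) (-(σ * ac u (x - y0))) with hκ
    have hκ0 : 0 < κ := by
      rcases (h1 x hx y0 hy0).lt_or_eq with h | h
      · exact lt_max_of_lt_left (by linarith)
      · exact lt_max_of_lt_right (by linarith [hcon y0 hy0 h])
    have hκx : κ ≤ 1 := by
      have h3 : κ ≤ max (1 - ‖x - x‖) (-(σ * ac u (x - x))) := hmin hx
      have h4 : max (1 - ‖x - x‖) (-(σ * ac u (x - x))) = 1 := by simp [ac]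
      rwa [h4] at h3
    -- the moved point
    set η := κ / 2 with hη
    set ε := κ ^ 2 / 8 with hε
    set x' : ℂ := x + ((ε : ℝ) : ℂ) * u + ((σ * η : ℝ) : ℂ) * (Complex.I * u) with hx'
    have r1 : al u (x' - x) = ε := by
      unfold al
      simp only [hx', Complex.sub_re, Complex.sub_im, Complex.add_re, Complex.add_im,
        Complex.ofReal_re, Complex.ofReal_im, Complex.mul_re, Complex.mul_im,
        Complex.I_re, Complex.I_im]
      linear_combination ε * hu
    have r2 : ac u (x' - x) = σ * η := by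
      unfold ac
      simp only [hx', Complex.sub_re, Complex.sub_im, Complex.add_re, Complex.add_im,
        Complex.ofReal_re, Complex.ofReal_im, Complex.mul_re, Complex.mul_im,
        Complex.I_re, Complex.I_im]
      linear_combination (σ * η) * hu
    have hnorm : ‖x' - x‖ ≤ κ := by
      have e := al_ac hu (x' - x)
      rw [r1, r2] at e
      have : ‖x' - x‖ ^ 2 ≤ κ ^ 2 := by
        rw [e, mul_pow, hσ2, hη, hε]
        nlinarith [pow_le_one₀ hκ0.le hκx (n := 2), sq_nonneg κ]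
      exact le_of_sq_le_sq this hκ0.le
    have hin : x' ∈ C := by
      apply h2
      intro y hy
      have hy1 : κ ≤ max (1 - ‖x - y‖) (-(σ * ac u (x - y))) := hmin hy
      rcases le_max_iff.1 hy1 with h | h
      · calc ‖x' - y‖ = ‖(x' - x) + (x - y)‖ := by rw [sub_add_sub_cancel]
          _ ≤ ‖x' - x‖ + ‖x - y‖ := norm_add_le _ _
          _ ≤ 1 := by linarith
      · apply norm_le_one
        have e := al_ac hu (x' - y)
        have e' := al_ac hu (x - y)
        have s1 : al u (x' - y) = al u (x' - x) + al u (x - y) := by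
          rw [al_sub, al_sub, al_sub]; ring
        have s2 : ac u (x' - y) = ac u (x' - x) + ac u (x - y) := by
          rw [ac_sub, ac_sub, ac_sub]; ring
        rw [s1, s2, r1, r2] at e
        have hxy : ‖x - y‖ ^ 2 ≤ 1 := by
          have := h1 x hx y hy
          have := norm_nonneg (x - y)
          nlinarith
        have ha1 : al u (x - y) ≤ 1 := by
          have : al u (x - y) ^ 2 ≤ 1 := by nlinarith [sq_nonneg (ac u (x - y))]
          nlinarith
        rw [e]
        have t1 : (ε + al u (x - y)) ^ 2 + (σ * η + ac u (x - y)) ^ 2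
            = (al u (x - y) ^ 2 + ac u (x - y) ^ 2) + 2 * ε * al u (x - y)
              + 2 * η * (σ * ac u (x - y)) + ε ^ 2 + σ ^ 2 * η ^ 2 := by ring
        rw [t1, ← e', hσ2]
        have t2 : σ * ac u (x - y) ≤ -κ := by linarith
        have t3 : 2 * η * (σ * ac u (x - y)) ≤ -κ ^ 2 := by
          rw [hη]; nlinarith
        have t4 : 2 * ε * al u (x - y) ≤ κ ^ 2 / 4 := by
          rw [hε]; nlinarith [sq_nonneg κ]
        have t5 : ε ^ 2 ≤ κ ^ 2 / 64 := by
          rw [hε]; nlinarith [pow_le_one₀ hκ0.le hκx (n := 2), sq_nonneg κ]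
        have t6 : η ^ 2 = κ ^ 2 / 4 := by rw [hη]; ring
        rw [t6]
        nlinarith [sq_nonneg κ]
    have := hmax' x' hin
    have e : al u (x - x') = - al u (x' - x) := by rw [al_sub, al_sub]; ring
    rw [e, r1, hε] at this
    have : 0 < κ ^ 2 := by positivity
    linarith
  obtain ⟨y2, hy2, n2, b2⟩ := key 1 (Or.inl rfl)
  obtain ⟨y1, hy1, n1, b1⟩ := key (-1) (Or.inr rfl)
  apply h2
  intro z hz
  rw [norm_sub_rev]
  exact spindle hu n1 n2 (h1 _ hy1 _ hy2) (hmax' _ hy1) (hmax' _ hy2) (by linarith) (by linarith)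
    (h1 _ hz _ hy1) (h1 _ hz _ hy2)

end PoolLebSym
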