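import Pool.Agent.LebSym.Complete

/-! # A threefold symmetric cover smaller than Pal's hexagon -/

open MeasureTheory

namespace PoolLebSym

open PoolLeb

/-- the height of the cuts -/
noncomputable def ch : ℝ := (√3 + √7) / 8

theorem ch_sq : 4 * ch ^ 2 - √3 * ch - 1 / 4 = 0 := by
  have e3 : √3 * √3 = 3 := Real.mul_self_sqrt (by norm_num)
  have e7 : √7 * √7 = 7 := Real.mul_self_sqrt (by norm_num)
  unfold ch
  linear_combination (-1 / 16) * e3 + (1 / 16) * e7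

theorem ch_lb : 0.547 ≤ ch := by
  have e3 : (1.7320 : ℝ) ≤ √3 := Real.le_sqrt_of_sq_le (by norm_num)
  have e7 : (2.6457 : ℝ) ≤ √7 := Real.le_sqrt_of_sq_le (by norm_num)
  unfold ch
  linarith

theorem ch_ub : ch ≤ 0.548 := by
  have e3 : √3 ≤ (1.7321 : ℝ) := Real.sqrt_le_iff.2 ⟨by norm_num, by norm_num⟩
  have e7 : √7 ≤ (2.6458 : ℝ) := Real.sqrt_le_iff.2 ⟨by norm_num, by norm_num⟩
  unfold ch
  linarith

/-- Pal's hexagon with three alternate corners cut off -/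
def Cut : Set ℂ := {z | z ∈ Hex ∧ z.im ≤ ch ∧ √3 / 2 * z.re - z.im / 2 ≤ ch ∧
  -(√3 / 2 * z.re) - z.im / 2 ≤ ch}

theorem cut_closed : IsClosed Cut := by
  have h1 : IsClosed {z : ℂ | z.im ≤ ch} := isClosed_le (by fun_prop) continuous_const
  have h2 : IsClosed {z : ℂ | √3 / 2 * z.re - z.im / 2 ≤ ch} :=
    isClosed_le (by fun_prop) continuous_const
  have h3 : IsClosed {z : ℂ | -(√3 / 2 * z.re) - z.im / 2 ≤ ch} :=
    isClosed_le (by fun_prop) continuous_const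
  exact hex_closed.inter (h1.inter (h2.inter h3))

theorem cut_convex : Convex ℝ Cut := by
  intro x hx y hy a b ha hb hab
  obtain ⟨x0, x1, x2, x3⟩ := hx
  obtain ⟨y0, y1, y2, y3⟩ := hy
  refine ⟨hex_convex x0 y0 ha hb hab, ?_, ?_, ?_⟩ <;>
  · simp only [Complex.add_re, Complex.add_im, Complex.real_smul, Complex.re_ofReal_mul,
      Complex.im_ofReal_mul]
    nlinarith

/-- the key estimate -/
theorem far_real {pn pt yt c : ℝ} (hc : 4 * c ^ 2 - √3 * c - 1 / 4 = 0) (hc0 : 0.547 ≤ c)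
    (h1 : c < √3 / 2 * pn + 1 / 2 * pt) (h2 : 1 / 2 * pn + √3 / 2 * pt ≤ 1 / 2) (h3 : pn ≤ 1 / 2)
    (hy : yt ≤ 0) : 1 < (pn + 1 / 2) ^ 2 + (pt - yt) ^ 2 := by
  have e3 : √3 * √3 = 3 := Real.mul_self_sqrt (by norm_num)
  have g3 : 0 < √3 := by positivity
  have l3 : (1.7320 : ℝ) ≤ √3 := Real.le_sqrt_of_sq_le (by norm_num)
  have u3 : √3 ≤ (1.7321 : ℝ) := Real.sqrt_le_iff.2 ⟨by norm_num, by norm_num⟩
  -- `pn ≥ √3 c - 1/2`
  have h4 : √3 * c - 1 / 2 ≤ pn := by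
    have h5 : √3 * c < √3 * (√3 / 2 * pn + 1 / 2 * pt) := by gcongr
    have h6 : √3 * (√3 / 2 * pn + 1 / 2 * pt) = 3 / 2 * pn + √3 / 2 * pt := by
      linear_combination (pn / 2) * e3
    linarith
  have h6 : 2 * c - √3 * pn < pt := by linarith
  have h7 : 0 < 2 * c - √3 * pn := by
    have : √3 * pn ≤ √3 * (1 / 2) := by gcongr
    linarith
  have h8 : (2 * c - √3 * pn) ^ 2 < (pt - yt) ^ 2 := by
    apply pow_lt_pow_left₀ _ h7.le two_ne_zero
    linarith
  have h9 : 1 ≤ (pn + 1 / 2) ^ 2 + (2 * c - √3 * pn) ^ 2 := by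
    have k1 : (pn + 1 / 2) ^ 2 + (2 * c - √3 * pn) ^ 2 - 1
        = (pn - (√3 * c - 1 / 2)) * (4 * (pn + (√3 * c - 1 / 2)) + 1 - 4 * √3 * c)
          + (4 * c ^ 2 - √3 * c - 1 / 4) := by
      linear_combination (pn ^ 2) * e3
    have k2 : 0 ≤ 4 * (pn + (√3 * c - 1 / 2)) + 1 - 4 * √3 * c := by
      have : 0.9 ≤ √3 * c := by nlinarith only [l3, hc0]
      nlinarith only [h4, this]
    have k3 := mul_nonneg (sub_nonneg.2 h4) k2
    linarith
  linarith

/-- two points in adjacent caps and a point on the opposite side -/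
theorem adj_real {pn pt qn qt yt c : ℝ} (hc : 4 * c ^ 2 - √3 * c - 1 / 4 = 0) (hc0 : 0.547 ≤ c)
    (h1 : c < √3 / 2 * pn + 1 / 2 * pt) (h2 : 1 / 2 * pn + √3 / 2 * pt ≤ 1 / 2) (h3 : pn ≤ 1 / 2)
    (h4 : c < √3 / 2 * qn - 1 / 2 * qt) (h5 : 1 / 2 * qn - √3 / 2 * qt ≤ 1 / 2) (h6 : qn ≤ 1 / 2)
    (h7 : (pn + 1 / 2) ^ 2 + (pt - yt) ^ 2 ≤ 1) (h8 : (qn + 1 / 2) ^ 2 + (qt - yt) ^ 2 ≤ 1) :
    False := by
  rcases le_total yt 0 with hy | hy
  · have := far_real hc hc0 h1 h2 h3 hy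
    linarith
  · have := far_real (pn := qn) (pt := -qt) (yt := -yt) hc hc0 (by linarith) (by linarith) h6
      (by linarith)
    have e : (-qt - -yt) ^ 2 = (qt - yt) ^ 2 := by ring
    rw [e] at this
    linarith

/-- complex form: `n = (a, b)` a unit normal, `τ = (d, e)` the orthogonal direction -/
theorem adj {K : Set ℂ} (h1 : D1 K) (h2 : Full K) (hne : K.Nonempty) (hK : K ⊆ Hex)
    {a b d e : ℝ} (hab : a ^ 2 + b ^ 2 = 1) (hde : d = -b ∧ e = a ∨ d = b ∧ e = -a)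
    (hhex : ∀ z ∈ Hex, |a * z.re + b * z.im| ≤ 1 / 2 ∧
      |1 / 2 * (a * z.re + b * z.im) + √3 / 2 * (d * z.re + e * z.im)| ≤ 1 / 2 ∧
      |1 / 2 * (a * z.re + b * z.im) - √3 / 2 * (d * z.re + e * z.im)| ≤ 1 / 2)
    {p q : ℂ} (hp : p ∈ K) (hq : q ∈ K)
    (cp : ch < √3 / 2 * (a * p.re + b * p.im) + 1 / 2 * (d * p.re + e * p.im))
    (cq : ch < √3 / 2 * (a * q.re + b * q.im) - 1 / 2 * (d * q.re + e * q.im)) : False := by
  obtain ⟨x, hx, hy⟩ := full_width h1 h2 hne (u := ⟨a, b⟩) hab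
  obtain ⟨x1, -, -⟩ := hhex _ (hK hx)
  obtain ⟨y1, -, -⟩ := hhex _ (hK hy)
  set y : ℂ := x - ⟨a, b⟩ with hyd
  have yr : y.re = x.re - a := by rw [hyd]; simp
  have yi : y.im = x.im - b := by rw [hyd]; simp
  have hyn : a * y.re + b * y.im = -(1 / 2) := by
    rw [abs_le] at x1 y1
    rw [yr, yi] at y1 ⊢
    have e1 : a * (x.re - a) + b * (x.im - b) = a * x.re + b * x.im - 1 := by
      linear_combination -hab
    rw [e1] at y1 ⊢
    linarith [x1.2, y1.1]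
  obtain ⟨p1, p2, -⟩ := hhex _ (hK hp)
  obtain ⟨q1, -, q3⟩ := hhex _ (hK hq)
  have dist : ∀ w ∈ K, (a * w.re + b * w.im + 1 / 2) ^ 2
      + (d * w.re + e * w.im - (d * y.re + e * y.im)) ^ 2 ≤ 1 := by
    intro w hw
    have k1 : ‖w - y‖ ^ 2 ≤ 1 := pow_le_one₀ (norm_nonneg _) (h1 _ hw _ hy)
    rw [← Complex.normSq_eq_norm_sq, Complex.normSq_apply, Complex.sub_re, Complex.sub_im] at k1
    have k2 : (a * w.re + b * w.im + 1 / 2) = a * (w.re - y.re) + b * (w.im - y.im) := by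
      linear_combination hyn
    rw [k2]
    have k3 : (a * (w.re - y.re) + b * (w.im - y.im)) ^ 2
        + (d * w.re + e * w.im - (d * y.re + e * y.im)) ^ 2
        = (a ^ 2 + b ^ 2) * ((w.re - y.re) * (w.re - y.re) + (w.im - y.im) * (w.im - y.im)) := by
      rcases hde with ⟨rfl, rfl⟩ | ⟨rfl, rfl⟩ <;> ring
    rw [k3, hab, one_mul]
    exact k1
  exact adj_real ch_sq ch_lb cp (abs_le.1 p2).2 (abs_le.1 p1).2 cq (abs_le.1 q3).2
    (abs_le.1 q1).2 (dist p hp) (dist q hq)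

theorem hex_alt {z : ℂ} (hz : z ∈ Hex) : |z.re| ≤ 1 / 2 ∧ |z.re / 2 + √3 / 2 * z.im| ≤ 1 / 2 ∧
    |z.re / 2 - √3 / 2 * z.im| ≤ 1 / 2 := by
  obtain ⟨h1, h2, h3⟩ := hz
  refine ⟨h1, h2, ?_⟩
  rw [← abs_neg]
  have : -(z.re / 2 - √3 / 2 * z.im) = -(z.re / 2) + √3 / 2 * z.im := by ring
  rw [this]
  exact h3

/-- a full set of diameter one in the hexagon, or its negative, lies in the cut hexagon -/
theorem cut_or {K : Set ℂ} (h1 : D1 K) (h2 : Full K) (hne : K.Nonempty) (hK : K ⊆ Hex) :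
    K ⊆ Cut ∨ ∀ z ∈ K, -z ∈ Cut := by
  have e3 : √3 * √3 = 3 := Real.mul_self_sqrt (by norm_num)
  by_contra hcon
  rw [not_or] at hcon
  obtain ⟨c1, c2⟩ := hcon
  rw [Set.not_subset] at c1
  push Not at c2
  obtain ⟨p, hp, hpc⟩ := c1
  obtain ⟨q, hq, hqc⟩ := c2
  have hp' : ch < p.im ∨ ch < √3 / 2 * p.re - p.im / 2 ∨ ch < -(√3 / 2 * p.re) - p.im / 2 := by
    by_contra h
    push Not at h
    exact hpc ⟨hK hp, h.1, h.2.1, h.2.2⟩
  have hq' : ch < -q.im ∨ ch < -(√3 / 2 * q.re) + q.im / 2 ∨ ch < √3 / 2 * q.re + q.im / 2 := by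
    by_contra h
    push Not at h
    apply hqc
    refine ⟨hex_symm (hK hq), ?_, ?_, ?_⟩
    · rw [Complex.neg_im]; exact h.1
    · rw [Complex.neg_re, Complex.neg_im]; linarith [h.2.1]
    · rw [Complex.neg_re, Complex.neg_im]; linarith [h.2.2]
  have hlb := ch_lb
  -- opposite caps
  have hpq : ‖p - q‖ ^ 2 ≤ 1 := pow_le_one₀ (norm_nonneg _) (h1 _ hp _ hq)
  rw [← Complex.normSq_eq_norm_sq, Complex.normSq_apply, Complex.sub_re, Complex.sub_im] at hpq
  have opp : ∀ a b : ℝ, a ^ 2 + b ^ 2 = 1 → ch < a * p.re + b * p.im →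
      ch < -(a * q.re + b * q.im) → False := by
    intro a b hab hx hy
    have k1 : 1 < a * (p.re - q.re) + b * (p.im - q.im) := by linarith
    have k2 : (a * (p.re - q.re) + b * (p.im - q.im)) ^ 2
        + (b * (p.re - q.re) - a * (p.im - q.im)) ^ 2
        = (a ^ 2 + b ^ 2) * ((p.re - q.re) * (p.re - q.re) + (p.im - q.im) * (p.im - q.im)) := by
      ring
    rw [hab, one_mul] at k2
    have k3 := sq_nonneg (b * (p.re - q.re) - a * (p.im - q.im))
    have k4 : 1 < (a * (p.re - q.re) + b * (p.im - q.im)) ^ 2 := by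
      apply one_lt_pow₀ k1 two_ne_zero
    linarith
  have u1 : (√3 / 2) ^ 2 + (-(1 / 2)) ^ 2 = (1 : ℝ) := by nlinarith only [e3]
  have u2 : (-(√3 / 2)) ^ 2 + (-(1 / 2)) ^ 2 = (1 : ℝ) := by nlinarith only [e3]
  have v1 : ((1 : ℝ) / 2) ^ 2 + (√3 / 2) ^ 2 = 1 := by nlinarith only [e3]
  have v2 : (-(1 : ℝ) / 2) ^ 2 + (√3 / 2) ^ 2 = 1 := by nlinarith only [e3]
  have v3 : ((1 : ℝ) / 2) ^ 2 + (-(√3 / 2)) ^ 2 = 1 := by nlinarith only [e3]
  have v4 : (-(1 : ℝ) / 2) ^ 2 + (-(√3 / 2)) ^ 2 = 1 := by nlinarith only [e3]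
  have r3 : ∀ x : ℝ, √3 * (√3 * x) = 3 * x := by
    intro x
    linear_combination x * e3
  rcases hp' with hp' | hp' | hp' <;> rcases hq' with hq' | hq' | hq'
  · exact opp 0 1 (by norm_num) (by linarith) (by linarith)
  · refine adj h1 h2 hne hK (a := -1 / 2) (b := √3 / 2) (d := √3 / 2) (e := 1 / 2) v2
      (Or.inr ⟨by ring, by ring⟩) ?_ hp hq ?_ ?_
    · intro z hz
      obtain ⟨z1, z2, z3⟩ := hz
      rw [abs_le] at z1 z2 z3
      have r := r3 z.re
      have r' := r3 z.im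
      refine ⟨abs_le.2 ⟨?_, ?_⟩, abs_le.2 ⟨?_, ?_⟩, abs_le.2 ⟨?_, ?_⟩⟩ <;> linarith
    · have r := r3 p.re
      have r' := r3 p.im
      linarith
    · have r := r3 q.re
      have r' := r3 q.im
      linarith
  · refine adj h1 h2 hne hK (a := 1 / 2) (b := √3 / 2) (d := -(√3 / 2)) (e := 1 / 2) v1
      (Or.inl ⟨by ring, by ring⟩) ?_ hp hq ?_ ?_
    · intro z hz
      obtain ⟨z1, z2, z3⟩ := hz
      rw [abs_le] at z1 z2 z3
      have r := r3 z.re
      have r' := r3 z.im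
      refine ⟨abs_le.2 ⟨?_, ?_⟩, abs_le.2 ⟨?_, ?_⟩, abs_le.2 ⟨?_, ?_⟩⟩ <;> linarith
    · have r := r3 p.re
      have r' := r3 p.im
      linarith
    · have r := r3 q.re
      have r' := r3 q.im
      linarith
  · refine adj h1 h2 hne hK (a := 1 / 2) (b := -(√3 / 2)) (d := √3 / 2) (e := 1 / 2) v3
      (Or.inl ⟨by ring, by ring⟩) ?_ hp hq ?_ ?_
    · intro z hz
      obtain ⟨z1, z2, z3⟩ := hz
      rw [abs_le] at z1 z2 z3
      have r := r3 z.re
      have r' := r3 z.im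
      refine ⟨abs_le.2 ⟨?_, ?_⟩, abs_le.2 ⟨?_, ?_⟩, abs_le.2 ⟨?_, ?_⟩⟩ <;> linarith
    · have r := r3 p.re
      have r' := r3 p.im
      linarith
    · have r := r3 q.re
      have r' := r3 q.im
      linarith
  · exact opp (√3 / 2) (-(1 / 2)) u1 (by linarith) (by linarith)
  · refine adj h1 h2 hne hK (a := 1) (b := 0) (d := 0) (e := -1) (by norm_num)
      (Or.inr ⟨by ring, by ring⟩) ?_ hp hq ?_ ?_
    · intro z hz
      obtain ⟨z1, z2, z3⟩ := hz
      rw [abs_le] at z1 z2 z3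
      have r := r3 z.re
      have r' := r3 z.im
      refine ⟨abs_le.2 ⟨?_, ?_⟩, abs_le.2 ⟨?_, ?_⟩, abs_le.2 ⟨?_, ?_⟩⟩ <;> linarith
    · have r := r3 p.re
      have r' := r3 p.im
      linarith
    · have r := r3 q.re
      have r' := r3 q.im
      linarith
  · refine adj h1 h2 hne hK (a := -1 / 2) (b := -(√3 / 2)) (d := -(√3 / 2)) (e := 1 / 2) v4
      (Or.inr ⟨by ring, by ring⟩) ?_ hp hq ?_ ?_
    · intro z hz
      obtain ⟨z1, z2, z3⟩ := hz
      rw [abs_le] at z1 z2 z3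
      have r := r3 z.re
      have r' := r3 z.im
      refine ⟨abs_le.2 ⟨?_, ?_⟩, abs_le.2 ⟨?_, ?_⟩, abs_le.2 ⟨?_, ?_⟩⟩ <;> linarith
    · have r := r3 p.re
      have r' := r3 p.im
      linarith
    · have r := r3 q.re
      have r' := r3 q.im
      linarith
  · refine adj h1 h2 hne hK (a := -1) (b := 0) (d := 0) (e := -1) (by norm_num)
      (Or.inl ⟨by ring, by ring⟩) ?_ hp hq ?_ ?_
    · intro z hz
      obtain ⟨z1, z2, z3⟩ := hz
      rw [abs_le] at z1 z2 z3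
      have r := r3 z.re
      have r' := r3 z.im
      refine ⟨abs_le.2 ⟨?_, ?_⟩, abs_le.2 ⟨?_, ?_⟩, abs_le.2 ⟨?_, ?_⟩⟩ <;> linarith
    · have r := r3 p.re
      have r' := r3 p.im
      linarith
    · have r := r3 q.re
      have r' := r3 q.im
      linarith
  · exact opp (-(√3 / 2)) (-(1 / 2)) u2 (by linarith) (by linarith)

/-- the cut hexagon is a displacement cover -/
theorem cut_cover : IsDisplacementCover Cut := by
  intro S hS
  have hbd : Bornology.IsBounded S := by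
    by_contra h
    rw [Metric.diam_eq_zero_of_unbounded h] at hS
    exact zero_ne_one hS
  have hne : S.Nonempty := by
    rw [Set.nonempty_iff_ne_empty]
    rintro rfl
    rw [Metric.diam_empty] at hS
    exact zero_ne_one hS
  have hd : D1 S := by
    intro z hz w hw
    rw [← dist_eq_norm, ← hS]
    exact Metric.dist_le_diam_of_mem hbd hz hw
  obtain ⟨C, hSC, hC1, hC2⟩ := exists_full hd
  have hCb : Bornology.IsBounded C := (full_compact hC1 hC2).isBounded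
  have hCd : Metric.diam C = 1 := by
    apply le_antisymm
    · apply Metric.diam_le_of_forall_dist_le zero_le_one
      intro x hx y hy
      rw [dist_eq_norm]
      exact hC1 x hx y hy
    · rw [← hS]
      exact Metric.diam_mono hSC hCb
  obtain ⟨w, t, hw, hC⟩ := hex_cover C hCd
  have hw0 : w ≠ 0 := by
    rintro rfl
    simp at hw
  set K : Set ℂ := (fun z => w * z + t) '' C with hK
  have hK1 : D1 K := by
    rintro _ ⟨x, hx, rfl⟩ _ ⟨y, hy, rfl⟩
    have : w * x + t - (w * y + t) = w * (x - y) := by ring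
    simp only [this, norm_mul, hw, one_mul]
    exact hC1 x hx y hy
  have hK2 : Full K := by
    intro z hz
    refine ⟨w⁻¹ * (z - t), ?_, ?_⟩
    · apply hC2
      intro c hc
      have h1 := hz _ ⟨c, hc, rfl⟩
      have h2 : z - (w * c + t) = w * (w⁻¹ * (z - t) - c) := by
        field_simp
        ring
      simp only [h2, norm_mul, hw, one_mul] at h1
      exact h1
    · field_simp
      ring
  have hKH : K ⊆ Hex := by
    rintro _ ⟨x, hx, rfl⟩
    exact hC x hx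
  rcases cut_or hK1 hK2 ((hne.mono hSC).image _) hKH with h | h
  · exact ⟨w, t, hw, fun z hz => h ⟨z, hSC hz, rfl⟩⟩
  · refine ⟨-w, -t, by rw [norm_neg, hw], fun z hz => ?_⟩
    have h1 := h _ ⟨z, hSC hz, rfl⟩
    have h2 : -w * z + -t = -(w * z + t) := by ring
    rw [h2]
    exact h1

/-- it is invariant under the rotation by `120°` -/
theorem cut_inv {z : ℂ} (hz : z ∈ Cut) : (⟨-(1 / 2), √3 / 2⟩ : ℂ) * z ∈ Cut := by
  have e3 : √3 * √3 = 3 := Real.mul_self_sqrt (by norm_num)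
  have r3 : ∀ x : ℝ, √3 * (√3 * x) = 3 * x := by
    intro x
    linear_combination x * e3
  obtain ⟨⟨z1, z2, z3⟩, c1, c2, c3⟩ := hz
  rw [abs_le] at z1 z2 z3
  have r := r3 z.re
  have r' := r3 z.im
  refine ⟨⟨?_, ?_, ?_⟩, ?_, ?_, ?_⟩ <;>
    simp only [Complex.mul_re, Complex.mul_im] <;> try rw [abs_le]
  · constructor <;> linarith
  · constructor <;> linarith
  · constructor <;> linarith
  · linarith
  · linarith
  · linarith

end PoolLebSym
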