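import Pool.Agent.LebSym.Cut

/-! # Area of the cut hexagon -/

open MeasureTheory

namespace PoolLebSym

open PoolLeb

/-- the cap at the corner in direction `(0, 1)` -/
def Cap : Set ℂ := {z | z ∈ Hex ∧ ch < z.im}

theorem cap_meas : MeasurableSet Cap :=
  hex_closed.measurableSet.inter (measurableSet_lt measurable_const Complex.measurable_im)

theorem cap_integral {r : ℝ} (hr0 : 0 < r) :
    ∫ x : ℝ in Set.Icc (-r) r, (r - |x|) / √3 = r ^ 2 / √3 := by
  have h3 : 0 < √3 := by positivity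
  rw [integral_Icc_eq_integral_Ioc, ← intervalIntegral.integral_of_le (by linarith)]
  have hi : ∀ a b : ℝ, IntervalIntegrable (fun x : ℝ => (r - |x|) / √3) volume a b :=
    fun a b => (by fun_prop : Continuous fun x : ℝ => (r - |x|) / √3).intervalIntegrable a b
  rw [← intervalIntegral.integral_add_adjacent_intervals (b := 0) (hi _ _) (hi _ _)]
  have h1 : (∫ x : ℝ in (-r)..0, (r - |x|) / √3) = ∫ x : ℝ in (-r)..0, 1 / √3 * (r + x) := by
    apply intervalIntegral.integral_congr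
    intro x hx
    rw [Set.uIcc_of_le (by linarith)] at hx
    simp only
    rw [abs_of_nonpos hx.2]
    ring
  have h2 : (∫ x : ℝ in (0 : ℝ)..r, (r - |x|) / √3) = ∫ x : ℝ in (0 : ℝ)..r, 1 / √3 * (r - x) := by
    apply intervalIntegral.integral_congr
    intro x hx
    rw [Set.uIcc_of_le (by linarith)] at hx
    simp only
    rw [abs_of_nonneg hx.1]
    ring
  rw [h1, h2, intervalIntegral.integral_const_mul, intervalIntegral.integral_const_mul,
    intervalIntegral.integral_add (by simp) (by simp), intervalIntegral.integral_sub (by simp)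
    (by simp), integral_id, integral_id, intervalIntegral.integral_const,
    intervalIntegral.integral_const]
  simp only [smul_eq_mul]
  field_simp
  ring

theorem cap_volume : volume Cap = ENNReal.ofReal ((1 - √3 * ch) ^ 2 / √3) := by
  have h3 : 0 < √3 := by positivity
  have e3 : √3 * √3 = 3 := Real.mul_self_sqrt (by norm_num)
  have l3 : (1.7320 : ℝ) ≤ √3 := Real.le_sqrt_of_sq_le (by norm_num)
  have u3 : √3 ≤ (1.7321 : ℝ) := Real.sqrt_le_iff.2 ⟨by norm_num, by norm_num⟩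
  have hlb := ch_lb
  have hub := ch_ub
  set r : ℝ := 1 - √3 * ch with hr
  have hr0 : 0 < r := by
    have : √3 * ch ≤ 1.7321 * 0.548 := by gcongr
    rw [hr]
    linarith
  have hr1 : r ≤ 1 / 2 := by
    have : 1.7320 * 0.547 ≤ √3 * ch := by gcongr
    rw [hr]
    linarith
  rw [← Complex.volume_preserving_equiv_real_prod.symm.measure_preimage cap_meas.nullMeasurableSet]
  rw [MeasureTheory.Measure.volume_eq_prod, MeasureTheory.Measure.prod_apply
    (Complex.measurableEquivRealProd.symm.measurable cap_meas)]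
  have hsl : ∀ x : ℝ, volume (Prod.mk x ⁻¹' (⇑Complex.measurableEquivRealProd.symm ⁻¹' Cap))
      = Set.indicator (Set.Icc (-r) r) (fun x => ENNReal.ofReal ((r - |x|) / √3)) x := by
    intro x
    have e : Prod.mk x ⁻¹' (⇑Complex.measurableEquivRealProd.symm ⁻¹' Cap)
        = {y : ℝ | (|x| ≤ 1 / 2 ∧ |y| ≤ (1 - |x|) / √3) ∧ ch < y} := by
      ext y
      rw [Set.mem_preimage, Set.mem_preimage]
      unfold Cap
      rw [Set.mem_ofPred_eq, hex_iff]
      exact Iff.rfl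
    rw [e]
    by_cases hx : x ∈ Set.Icc (-r) r
    · rw [Set.indicator_of_mem hx]
      have hxr : |x| ≤ r := abs_le.2 hx
      have e : {y : ℝ | (|x| ≤ 1 / 2 ∧ |y| ≤ (1 - |x|) / √3) ∧ ch < y}
          = Set.Ioc ch ((1 - |x|) / √3) := by
        ext y
        rw [Set.mem_ofPred_eq, Set.mem_Ioc]
        constructor
        · rintro ⟨⟨_, h1⟩, h2⟩
          exact ⟨h2, (le_abs_self y).trans h1⟩
        · rintro ⟨h1, h2⟩
          refine ⟨⟨by linarith, ?_⟩, h1⟩
          rw [abs_of_pos (by linarith)]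
          exact h2
      rw [e, Real.volume_Ioc]
      congr 1
      rw [hr]
      field_simp
      ring
    · rw [Set.indicator_of_notMem hx]
      have hxr : r < |x| := by
        rw [Set.mem_Icc, ← abs_le, not_le] at hx
        exact hx
      have e : {y : ℝ | (|x| ≤ 1 / 2 ∧ |y| ≤ (1 - |x|) / √3) ∧ ch < y} = ∅ := by
        rw [Set.eq_empty_iff_forall_notMem]
        rintro y ⟨⟨_, h1⟩, h2⟩
        have h4 := (le_abs_self y).trans h1
        rw [le_div_iff₀ h3] at h4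
        have h5 : ch * √3 < y * √3 := by gcongr
        rw [hr] at hxr
        linarith
      rw [e, measure_empty]
  rw [lintegral_congr hsl, lintegral_indicator measurableSet_Icc]
  rw [← ofReal_integral_eq_lintegral_ofReal]
  · congr 1
    exact cap_integral hr0
  · exact (by fun_prop : Continuous fun x : ℝ => (r - |x|) / √3).continuousOn.integrableOn_compact
      isCompact_Icc
  · rw [Filter.EventuallyLE, ae_restrict_iff' measurableSet_Icc]
    refine Filter.Eventually.of_forall ?_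
    intro x hx
    have h1 : |x| ≤ r := abs_le.2 hx
    simp only [Pi.zero_apply]
    have : 0 ≤ r - |x| := by linarith
    positivity

theorem rot_volume {A : Set ℂ} (hA : MeasurableSet A) {u : ℂ} (hu : ‖u‖ = 1) :
    volume ((fun z => u * z) ⁻¹' A) = volume A := by
  have h1 : (⇑(rotation ⟨u, mem_sphere_zero_iff_norm.2 hu⟩) : ℂ → ℂ) = fun z => u * z := by
    funext z
    rfl
  rw [← h1]
  exact (rotation ⟨u, mem_sphere_zero_iff_norm.2 hu⟩).measurePreserving.measure_preimage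
    hA.nullMeasurableSet

theorem unit_norm {a b : ℝ} (h : a ^ 2 + b ^ 2 = 1) : ‖(⟨a, b⟩ : ℂ)‖ = 1 := by
  have : ‖(⟨a, b⟩ : ℂ)‖ ^ 2 = 1 := by
    rw [← Complex.normSq_eq_norm_sq, Complex.normSq_apply]
    simp only
    linarith
  exact (pow_eq_one_iff_of_nonneg (norm_nonneg _) two_ne_zero).1 this

theorem cut_volume : volume Cut = ENNReal.ofReal ((15 * √7 - 7 * √3) / 32) := by
  have h3 : 0 < √3 := by positivity
  have e3 : √3 * √3 = 3 := Real.mul_self_sqrt (by norm_num)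
  have e7 : √7 * √7 = 7 := Real.mul_self_sqrt (by norm_num)
  have l3 : (1.7320 : ℝ) ≤ √3 := Real.le_sqrt_of_sq_le (by norm_num)
  have u3 : √3 ≤ (1.7321 : ℝ) := Real.sqrt_le_iff.2 ⟨by norm_num, by norm_num⟩
  have l7 : (2.6457 : ℝ) ≤ √7 := Real.le_sqrt_of_sq_le (by norm_num)
  have hlb := ch_lb
  have r3 : ∀ x : ℝ, √3 * (√3 * x) = 3 * x := by
    intro x
    linear_combination x * e3
  have q1 : (-(1 / 2)) ^ 2 + (√3 / 2) ^ 2 = (1 : ℝ) := by nlinarith only [e3]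
  have q2 : (-(1 / 2)) ^ 2 + (-(√3 / 2)) ^ 2 = (1 : ℝ) := by nlinarith only [e3]
  have n1 := unit_norm q1
  have n2 := unit_norm q2
  set C1 : Set ℂ := (fun z => (⟨-(1 / 2), √3 / 2⟩ : ℂ) * z) ⁻¹' Cap with hC1
  set C2 : Set ℂ := (fun z => (⟨-(1 / 2), -(√3 / 2)⟩ : ℂ) * z) ⁻¹' Cap with hC2
  have v1 : volume C1 = volume Cap := rot_volume cap_meas n1
  have v2 : volume C2 = volume Cap := rot_volume cap_meas n2
  have m1 : MeasurableSet C1 := (by fun_prop : Measurable (fun z : ℂ => (⟨-(1 / 2), √3 / 2⟩ : ℂ) * z)) cap_meas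
  have m2 : MeasurableSet C2 := (by fun_prop : Measurable (fun z : ℂ => (⟨-(1 / 2), -(√3 / 2)⟩ : ℂ) * z)) cap_meas
  have c1 : ∀ z : ℂ, z ∈ C1 ↔ z ∈ Hex ∧ ch < √3 / 2 * z.re - z.im / 2 := by
    intro z
    have r := r3 z.re
    have r' := r3 z.im
    rw [hC1, Set.mem_preimage]
    unfold Cap Hex
    simp only [Set.mem_ofPred_eq, Complex.mul_re, Complex.mul_im, abs_le]
    constructor
    · rintro ⟨⟨⟨a1, a2⟩, ⟨a3, a4⟩, ⟨a5, a6⟩⟩, a7⟩
      refine ⟨⟨⟨?_, ?_⟩, ⟨?_, ?_⟩, ⟨?_, ?_⟩⟩, ?_⟩ <;> linarith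
    · rintro ⟨⟨⟨a1, a2⟩, ⟨a3, a4⟩, ⟨a5, a6⟩⟩, a7⟩
      refine ⟨⟨⟨?_, ?_⟩, ⟨?_, ?_⟩, ⟨?_, ?_⟩⟩, ?_⟩ <;> linarith
  have c2 : ∀ z : ℂ, z ∈ C2 ↔ z ∈ Hex ∧ ch < -(√3 / 2 * z.re) - z.im / 2 := by
    intro z
    have r := r3 z.re
    have r' := r3 z.im
    rw [hC2, Set.mem_preimage]
    unfold Cap Hex
    simp only [Set.mem_ofPred_eq, Complex.mul_re, Complex.mul_im, abs_le]
    constructor
    · rintro ⟨⟨⟨a1, a2⟩, ⟨a3, a4⟩, ⟨a5, a6⟩⟩, a7⟩
      refine ⟨⟨⟨?_, ?_⟩, ⟨?_, ?_⟩, ⟨?_, ?_⟩⟩, ?_⟩ <;> linarith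
    · rintro ⟨⟨⟨a1, a2⟩, ⟨a3, a4⟩, ⟨a5, a6⟩⟩, a7⟩
      refine ⟨⟨⟨?_, ?_⟩, ⟨?_, ?_⟩, ⟨?_, ?_⟩⟩, ?_⟩ <;> linarith
  -- heights in the hexagon are below 1/√3 < 0.58
  have hh : ∀ z ∈ Hex, |z.im| ≤ 0.6 ∧ -0.6 ≤ √3 / 2 * z.re - z.im / 2 ∧
      -0.6 ≤ -(√3 / 2 * z.re) - z.im / 2 := by
    intro z hz
    obtain ⟨a1, a2, a3⟩ := hz
    rw [abs_le] at a1 a2 a3
    have r := r3 z.re
    have r' := r3 z.im
    -- √3 z.im = sum, |√3 z.im| ≤ 1
    refine ⟨abs_le.2 ⟨?_, ?_⟩, ?_, ?_⟩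
    · by_contra hcon
      rw [not_le] at hcon
      have : √3 * z.im < √3 * (-0.6) := by gcongr
      nlinarith only [this, a2, a3, l3]
    · by_contra hcon
      rw [not_le] at hcon
      have : √3 * 0.6 < √3 * z.im := by gcongr
      nlinarith only [this, a2, a3, l3]
    · by_contra hcon
      rw [not_le] at hcon
      have : √3 * (√3 / 2 * z.re - z.im / 2) < √3 * (-0.6) := by gcongr
      nlinarith only [this, a1, a3, a2, l3, r]
    · by_contra hcon
      rw [not_le] at hcon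
      have : √3 * (-(√3 / 2 * z.re) - z.im / 2) < √3 * (-0.6) := by gcongr
      nlinarith only [this, a1, a2, a3, l3, r]
  have d1 : Disjoint Cap C1 := by
    rw [Set.disjoint_left]
    rintro z ⟨hz, h1⟩ h2
    obtain ⟨-, h4⟩ := (c1 z).1 h2
    have := (hh z hz).2.2
    linarith
  have d2 : Disjoint (Cap ∪ C1) C2 := by
    rw [Set.disjoint_left]
    rintro z (⟨hz, h1⟩ | h1) h2
    · obtain ⟨-, h4⟩ := (c2 z).1 h2
      have := (hh z hz).2.1
      linarith
    · obtain ⟨hz, h4⟩ := (c2 z).1 h2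
      obtain ⟨-, h5⟩ := (c1 z).1 h1
      have := (abs_le.1 (hh z hz).1).1
      linarith
  have hun : Hex = Cut ∪ ((Cap ∪ C1) ∪ C2) := by
    ext z
    constructor
    · intro hz
      by_cases h1 : z.im ≤ ch
      · by_cases h2 : √3 / 2 * z.re - z.im / 2 ≤ ch
        · by_cases h4 : -(√3 / 2 * z.re) - z.im / 2 ≤ ch
          · exact Or.inl ⟨hz, h1, h2, h4⟩
          · exact Or.inr (Or.inr ((c2 z).2 ⟨hz, not_le.1 h4⟩))
        · exact Or.inr (Or.inl (Or.inr ((c1 z).2 ⟨hz, not_le.1 h2⟩)))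
      · exact Or.inr (Or.inl (Or.inl ⟨hz, not_le.1 h1⟩))
    · rintro (h | (h | h) | h)
      · exact h.1
      · exact h.1
      · exact ((c1 z).1 h).1
      · exact ((c2 z).1 h).1
  have d3 : Disjoint Cut ((Cap ∪ C1) ∪ C2) := by
    rw [Set.disjoint_left]
    rintro z ⟨hz, a1, a2, a3⟩ ((⟨_, h⟩ | h) | h)
    · linarith
    · have := ((c1 z).1 h).2
      linarith
    · have := ((c2 z).1 h).2
      linarith
  have hv := hex_volume
  rw [hun, measure_union d3 ((cap_meas.union m1).union m2), measure_union d2 m2,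
    measure_union d1 m1, v1, v2, cap_volume] at hv
  have hK : (1 - √3 * ch) ^ 2 / √3 = √3 * (23 - 5 * (√3 * √7)) / 96 := by
    rw [div_eq_iff h3.ne']
    unfold ch
    linear_combination (-(1 / 96) * (23 - 5 * (√3 * √7)) + (√3 ^ 2 + 3 + 2 * √3 * √7 + √7 ^ 2 - 16) / 64
      + 7 / 64 * 0) * e3 + (3 / 64) * e7
  have hk0 : 0 ≤ (1 - √3 * ch) ^ 2 / √3 := by positivity
  rw [← ENNReal.ofReal_add hk0 hk0, ← ENNReal.ofReal_add (by positivity) hk0] at hv
  have hne : ENNReal.ofReal ((1 - √3 * ch) ^ 2 / √3 + (1 - √3 * ch) ^ 2 / √3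
      + (1 - √3 * ch) ^ 2 / √3) ≠ ⊤ := ENNReal.ofReal_ne_top
  have h5 : volume Cut = ENNReal.ofReal (√3 / 2) - ENNReal.ofReal ((1 - √3 * ch) ^ 2 / √3
      + (1 - √3 * ch) ^ 2 / √3 + (1 - √3 * ch) ^ 2 / √3) :=
    ENNReal.eq_sub_of_add_eq hne hv
  rw [h5, ← ENNReal.ofReal_sub _ (by positivity)]
  congr 1
  rw [hK]
  linear_combination (15 * √7 / 96) * e3

end PoolLebSym
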