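import Pool.Agent.LebSym.ThreeFin

/-! # Covers with a five- or sevenfold symmetry, and the general bound -/

open MeasureTheory

namespace PoolLebSym

open PoolLeb

theorem copy3 {K : Set ℂ} {n : ℕ} (hn : 0 < n) (hi : Inv n K) {t : ℂ} {φ : ℝ} (j k : ℕ)
    (h : bodies_E n j = Complex.exp (φ * Complex.I) * bodies_E 3 k)
    (m : ∀ z ∈ bodySet 3, t + z ∈ K) :
    ∀ z ∈ bodySet 3, bodies_E n j * t + Complex.exp (φ * Complex.I) * z ∈ K := by
  intro z hz
  have h1 := m _ (bodySet_rot (n := 3) (by norm_num) (2 * k) hz)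
  have h2 := hi (bodies_E n j) (E_pow hn j) _ h1
  have h4 : bodies_E 3 k * bodies_E 3 (2 * k) = 1 := by
    rw [bodies_add]
    have : k + 2 * k = 3 * k := by ring
    rw [this, bodies_self (by norm_num)]
  have h5 : bodies_E n j * (t + bodies_E 3 (2 * k) * z)
      = bodies_E n j * t + Complex.exp (φ * Complex.I) * z := by
    calc bodies_E n j * (t + bodies_E 3 (2 * k) * z)
        = bodies_E n j * t + bodies_E n j * (bodies_E 3 (2 * k) * z) := by ring
      _ = bodies_E n j * t + Complex.exp (φ * Complex.I) *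
          ((bodies_E 3 k * bodies_E 3 (2 * k)) * z) := by
            conv_lhs => rw [h]
            rw [← h]
            conv_lhs => enter [2]; rw [h]
            ring
      _ = _ := by rw [h4, one_mul]
  rw [← h5]
  exact h2

theorem cos_five : (0.809 : ℝ) ≤ Real.cos (Real.pi / 5) := by
  rw [Real.cos_pi_div_five]
  have : (2.236 : ℝ) ≤ √5 := Real.le_sqrt_of_sq_le (by norm_num)
  linarith

theorem far_gen {K : Set ℂ} (hK : Good K) {n : ℕ} (hn : 2 ≤ n) (hi : Inv n K) {c ρ : ℝ}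
    (hc0 : 0 ≤ c) (hρ0 : 0 ≤ ρ) (hc : c ≤ Real.cos (Real.pi / n))
    (hρ : 8661 / 10000 ≤ 3.1415 * (ρ * c) ^ 2)
    (hA : (volume K).toReal < 8661 / 10000) {p : ℂ} (hp : p ∈ K) : ‖p‖ < ρ := by
  by_contra hcon
  rw [not_lt] at hcon
  have h0 : (0 : ℂ) ∈ K := hK.disk (by simp)
  have h1 := disc_lemma hK.conv hK.closed hn hi hp h0
  have hcos : 0 ≤ Real.cos (Real.pi / n) := hc0.trans hc
  have h2 := disc_area hK.fin (by positivity) h1
  have h3 : ρ * c ≤ ‖p‖ * Real.cos (Real.pi / n) := mul_le_mul hcon hc hc0 (norm_nonneg p)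
  have h4 : (ρ * c) ^ 2 ≤ (‖p‖ * Real.cos (Real.pi / n)) ^ 2 := by gcongr
  have h5 := Real.pi_gt_d4
  have h6 : 3.1415 * (ρ * c) ^ 2 ≤ Real.pi * (‖p‖ * Real.cos (Real.pi / n)) ^ 2 := by
    apply mul_le_mul h5.le h4 (by positivity) Real.pi_pos.le
  linarith

theorem far_five {K : Set ℂ} (hK : Good K) (hi : Inv 5 K)
    (hA : (volume K).toReal < 8661 / 10000) {p : ℂ} (hp : p ∈ K) : ‖p‖ < 0.65 :=
  far_gen hK (by norm_num) hi (c := 0.809) (by norm_num) (by norm_num)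
    (by exact_mod_cast cos_five) (by norm_num) hA hp

theorem far_sev {K : Set ℂ} (hK : Good K) (hi : Inv 7 K)
    (hA : (volume K).toReal < 8661 / 10000) {p : ℂ} (hp : p ∈ K) : ‖p‖ < 0.585 := by
  apply far_gen hK (by norm_num) hi (c := 0.899) (by norm_num) (by norm_num) _ (by norm_num) hA hp
  have h5 := Real.one_sub_sq_div_two_le_cos (x := Real.pi / (7 : ℕ))
  refine le_trans ?_ h5
  have h6 := Real.pi_lt_d4
  have h7 := Real.pi_pos
  push_cast
  nlinarith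

theorem tri_radius {K : Set ℂ} {ρ R : ℝ} (hρ : ∀ p ∈ K, ‖p‖ < ρ) (hR0 : 0 ≤ R)
    (hR : ρ ^ 2 ≤ R ^ 2 + 57734969 / 100000000 * R + (57734969 / 100000000) ^ 2) {t : ℂ}
    (m : ∀ z ∈ bodySet 3, t + z ∈ K) : ‖t‖ ≤ R := by
  obtain ⟨v, hv1, hv2⟩ := exists_vertex (n := 3) (by norm_num) t
  have hl0 := hρ _ (m v hv1)
  have hρn : ‖toC (bpt 3 0)‖ = 57734969 / 100000000 := by
    rw [(by decide +kernel : bpt 3 0 = (57734969, 0))]
    have : toC (57734969, 0) = (((57734969 : ℝ) / 100000000 : ℝ) : ℂ) := by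
      apply Complex.ext <;> simp [toC]
    rw [this, Complex.norm_real, Real.norm_eq_abs, abs_of_pos (by norm_num)]
  rw [hρn] at hv2
  by_contra hcon
  rw [not_le] at hcon
  have hsq : ‖t + v‖ ^ 2 < ρ ^ 2 := pow_lt_pow_left₀ hl0 (norm_nonneg _) two_ne_zero
  have h2 : R ^ 2 ≤ ‖t‖ ^ 2 := by gcongr
  linarith

/-- translations of the three triangles -/
noncomputable def tt3 (a b c : ℂ) : ℕ → ℂ
  | 1 => a
  | 2 => b
  | 3 => c
  | _ => 0

def xx3 (y z : ℝ) : ℕ → ℝ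
  | 2 => y
  | 3 => z
  | _ => 0

theorem tri_leaf {K : Set ℂ} (hK : Good K) {r p q e : ℤ} {c : List (ℤ × List ℕ)}
    (hc : leafOK 866100 [D0, ⟨3, r, 0, 0⟩, ⟨3, r, p, e⟩, ⟨3, r, q, e⟩]
      noCon c = true) (hq : q = -p)
    {φ : ℝ} (h0 : 0 ≤ φ) (h1 : φ < Real.pi) (hp : |Real.tan (φ / 2) * 10 ^ 4 - (p : ℝ)| ≤ (e : ℝ))
    {t a b : ℂ} (ht : ‖t‖ ≤ (r : ℝ) / 10 ^ 8) (ha : ‖a‖ ≤ (r : ℝ) / 10 ^ 8)
    (hb : ‖b‖ ≤ (r : ℝ) / 10 ^ 8)
    (m0 : ∀ z ∈ bodySet 3, t + z ∈ K)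
    (m1 : ∀ z ∈ bodySet 3, a + Complex.exp (φ * Complex.I) * z ∈ K)
    (m2 : ∀ z ∈ bodySet 3, b + Complex.exp (((-φ : ℝ) : ℂ) * Complex.I) * z ∈ K) :
    (8661 : ℝ) / 10000 ≤ (volume K).toReal := by
  have hφ : |φ| < Real.pi := by rwa [abs_of_nonneg h0]
  have hφ' : |-φ| < Real.pi := by rwa [abs_neg]
  have hp' : |Real.tan (-φ / 2) * 10 ^ 4 - (q : ℝ)| ≤ (e : ℝ) := by
    rw [neg_div, Real.tan_neg, hq]
    push_cast
    have : -Real.tan (φ / 2) * 10 ^ 4 - -(p : ℝ) = -(Real.tan (φ / 2) * 10 ^ 4 - p) := by ring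
    rw [this, abs_neg]
    exact hp
  obtain ⟨x, hx, hxe⟩ := angle_box hφ hp
  obtain ⟨y, hy, hye⟩ := angle_box hφ' hp'
  have hcfg : Cfg [D0, ⟨3, r, 0, 0⟩, ⟨3, r, p, e⟩, ⟨3, r, q, e⟩]
      (tt3 t a b) (xx3 x y) := by
    constructor
    · intro s hs
      have hs' : s < 4 := hs
      interval_cases s
      · simp [slotOf, D0, tt3]
      · simpa [slotOf, tt3] using ht
      · simpa [slotOf, tt3] using ha
      · simpa [slotOf, tt3] using hb
    · intro s hs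
      have hs' : s < 4 := hs
      interval_cases s
      · simp [slotOf, D0, xx3]
      · simp [slotOf, xx3]
      · simpa [slotOf, xx3] using hx
      · simpa [slotOf, xx3] using hy
  have hmm : Mem [D0, ⟨3, r, 0, 0⟩, ⟨3, r, p, e⟩, ⟨3, r, q, e⟩]
      (tt3 t a b) (xx3 x y) K := by
    refine mem_of hK hcfg rfl (by simp) ?_
    intro s hs h1
    have hs' : s < 4 := hs
    interval_cases s
    · intro i hi2
      have hi' : i < 13 * 3 := hi2
      have h := m0 (bodyPt 3 i) ⟨i, hi', rfl⟩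
      have e1 : (slotOf [D0, ⟨3, r, 0, 0⟩, ⟨3, r, p, e⟩, ⟨3, r, q, e⟩]
        1).p = 0 := rfl
      have e2 : (slotOf [D0, ⟨3, r, 0, 0⟩, ⟨3, r, p, e⟩, ⟨3, r, q, e⟩]
        1).kind = 3 := rfl
      rw [e1, e2, w0_zero]
      simpa [tt3, xx3] using h
    · intro i hi2
      have hi' : i < 13 * 3 := hi2
      exact slot_mem hxe m1 hi'
    · intro i hi2
      have hi' : i < 13 * 3 := hi2
      exact slot_mem hye m2 hi'
  have := leaf_sound hc rfl (by simp) hK hcfg hmm (Or.inl rfl)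
  norm_num at this
  linarith

theorem rotate_copy {K : Set ℂ} {t u : ℂ} (hu : ‖u‖ = 1) (m : ∀ z ∈ bodySet 3, t + u * z ∈ K) :
    ∀ z ∈ bodySet 3, u⁻¹ * t + z ∈ (fun z => u * z) ⁻¹' K := by
  intro z hz
  have hu0 : u ≠ 0 := by
    rintro rfl
    simp at hu
  rw [Set.mem_preimage]
  have : u * (u⁻¹ * t + z) = t + u * z := by
    field_simp
  rw [this]
  exact m z hz

theorem five_bound {K : Set ℂ} (hK : Good K) (hi : Inv 5 K) {t u : ℂ} (hu : ‖u‖ = 1)
    (m : ∀ z ∈ bodySet 3, t + u * z ∈ K) : (8661 : ℝ) / 10000 ≤ (volume K).toReal := by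
  by_contra hcon
  rw [not_le] at hcon
  obtain ⟨hK', hv⟩ := good_rotate hK hu
  have hi' := inv_rot hi u
  have m' := rotate_copy hu m
  rw [← hv] at hcon
  set K' := (fun z => u * z) ⁻¹' K with hK'def
  set t' := u⁻¹ * t with ht'
  have ht : ‖t'‖ ≤ ((12700000 : ℤ) : ℝ) / 10 ^ 8 :=
    tri_radius (fun p hp => far_five hK' hi' hcon hp) (by norm_num) (by norm_num) m'
  have hpi := Real.pi_pos
  have hp1 := Real.pi_gt_d4
  have hp2 := Real.pi_lt_d4
  have c1 : bodies_E 5 4 = Complex.exp (((4 * Real.pi / 15 : ℝ) : ℂ) * Complex.I)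
      * bodies_E 3 2 := by
    unfold bodies_E
    rw [← Complex.exp_add]
    congr 1
    push_cast
    ring
  have c2 : bodies_E 5 1 = Complex.exp (((-(4 * Real.pi / 15) : ℝ) : ℂ) * Complex.I)
      * bodies_E 3 1 := by
    unfold bodies_E
    rw [← Complex.exp_add]
    congr 1
    push_cast
    ring
  have n1 : ‖bodies_E 5 4 * t'‖ ≤ ((12700000 : ℤ) : ℝ) / 10 ^ 8 := by
    rw [norm_mul, bodies_norm, one_mul]
    exact ht
  have n2 : ‖bodies_E 5 1 * t'‖ ≤ ((12700000 : ℤ) : ℝ) / 10 ^ 8 := by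
    rw [norm_mul, bodies_norm, one_mul]
    exact ht
  have htan : |Real.tan ((4 * Real.pi / 15) / 2) * 10 ^ 4 - ((4390 : ℤ) : ℝ)| ≤ ((202 : ℤ) : ℝ) := by
    have g1 : (4 * Real.pi / 15) / 2 < Real.tan ((4 * Real.pi / 15) / 2) :=
      Real.lt_tan (by positivity) (by linarith)
    have g2 := angle_tan' (u := (4 * Real.pi / 15) / 2) (c := 0.4189) (d := 0.4592) (by positivity)
      (by linarith) (by norm_num) (by norm_num)
    push_cast
    rw [abs_le]
    constructor <;> linarith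
  have := tri_leaf hK' cF5 rfl (φ := 4 * Real.pi / 15) (by positivity) (by linarith) htan ht n1 n2
    m' (copy3 (by norm_num) hi' 4 2 c1 m') (copy3 (by norm_num) hi' 1 1 c2 m')
  linarith

theorem seven_bound {K : Set ℂ} (hK : Good K) (hi : Inv 7 K) {t u : ℂ} (hu : ‖u‖ = 1)
    (m : ∀ z ∈ bodySet 3, t + u * z ∈ K) : (8661 : ℝ) / 10000 ≤ (volume K).toReal := by
  by_contra hcon
  rw [not_le] at hcon
  obtain ⟨hK', hv⟩ := good_rotate hK hu
  have hi' := inv_rot hi u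
  have m' := rotate_copy hu m
  rw [← hv] at hcon
  set K' := (fun z => u * z) ⁻¹' K with hK'def
  set t' := u⁻¹ * t with ht'
  have ht : ‖t'‖ ≤ ((2450000 : ℤ) : ℝ) / 10 ^ 8 :=
    tri_radius (fun p hp => far_sev hK' hi' hcon hp) (by norm_num) (by norm_num) m'
  have hpi := Real.pi_pos
  have hp1 := Real.pi_gt_d4
  have hp2 := Real.pi_lt_d4
  have c1 : bodies_E 7 3 = Complex.exp (((4 * Real.pi / 21 : ℝ) : ℂ) * Complex.I)
      * bodies_E 3 1 := by
    unfold bodies_E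
    rw [← Complex.exp_add]
    congr 1
    push_cast
    ring
  have c2 : bodies_E 7 4 = Complex.exp (((-(4 * Real.pi / 21) : ℝ) : ℂ) * Complex.I)
      * bodies_E 3 2 := by
    unfold bodies_E
    rw [← Complex.exp_add]
    congr 1
    push_cast
    ring
  have n1 : ‖bodies_E 7 3 * t'‖ ≤ ((2450000 : ℤ) : ℝ) / 10 ^ 8 := by
    rw [norm_mul, bodies_norm, one_mul]
    exact ht
  have n2 : ‖bodies_E 7 4 * t'‖ ≤ ((2450000 : ℤ) : ℝ) / 10 ^ 8 := by
    rw [norm_mul, bodies_norm, one_mul]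
    exact ht
  have htan : |Real.tan ((4 * Real.pi / 21) / 2) * 10 ^ 4 - ((3062 : ℤ) : ℝ)| ≤ ((71 : ℤ) : ℝ) := by
    have g1 : (4 * Real.pi / 21) / 2 < Real.tan ((4 * Real.pi / 21) / 2) :=
      Real.lt_tan (by positivity) (by linarith)
    have g2 := angle_tan' (u := (4 * Real.pi / 21) / 2) (c := 0.29921) (d := 0.3133) (by positivity)
      (by linarith) (by norm_num) (by norm_num)
    push_cast
    rw [abs_le]
    constructor <;> linarith
  have := tri_leaf hK' cF7 rfl (φ := 4 * Real.pi / 21) (by positivity) (by linarith) htan ht n1 n2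
    m' (copy3 (by norm_num) hi' 3 1 c1 m') (copy3 (by norm_num) hi' 4 2 c2 m')
  linarith

theorem big_bound {K : Set ℂ} (hK : Good K) {n : ℕ} (hn : 8 ≤ n) (hi : Inv n K) {w t : ℂ}
    (hw : ‖w‖ = 1)
    (h0 : w * t0 + t ∈ K) (h1 : w * t1 + t ∈ K) (h2 : w * t2 + t ∈ K) :
    (8661 : ℝ) / 10000 ≤ (volume K).toReal := by
  have e3 : √3 * √3 = 3 := Real.mul_self_sqrt (by norm_num)
  have hw2 : w.re ^ 2 + w.im ^ 2 = 1 := by
    have : ‖w‖ ^ 2 = 1 := by rw [hw]; norm_num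
    rw [← Complex.normSq_eq_norm_sq, Complex.normSq_apply] at this
    nlinarith
  have hsum : ‖w * t0 + t‖ ^ 2 + ‖w * t1 + t‖ ^ 2 + ‖w * t2 + t‖ ^ 2
      = 1 + 3 * (t.re ^ 2 + t.im ^ 2) := by
    rw [← Complex.normSq_eq_norm_sq, Complex.normSq_apply, ← Complex.normSq_eq_norm_sq,
      Complex.normSq_apply, ← Complex.normSq_eq_norm_sq, Complex.normSq_apply]
    simp only [Complex.add_re, Complex.add_im, Complex.mul_re, Complex.mul_im, t0, t1, t2]
    have : (w.re ^ 2 + w.im ^ 2) * (√3 * √3 / 9 + 2 * (√3 * √3 / 36 + 1 / 4)) = 1 := by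
      rw [hw2, e3]
      norm_num
    linear_combination this
  obtain ⟨p, hp, hpn⟩ : ∃ p ∈ K, (1 : ℝ) / 3 ≤ ‖p‖ ^ 2 := by
    by_contra hcon
    push Not at hcon
    have a0 := hcon _ h0
    have a1 := hcon _ h1
    have a2 := hcon _ h2
    nlinarith [sq_nonneg t.re, sq_nonneg t.im]
  have h00 : (0 : ℂ) ∈ K := hK.disk (by simp)
  have hd := disc_lemma hK.conv hK.closed (by omega) hi hp h00
  have hpi := Real.pi_pos
  have hc8 : Real.cos (Real.pi / 8) ≤ Real.cos (Real.pi / n) := by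
    apply Real.cos_le_cos_of_nonneg_of_le_pi (by positivity) (by linarith)
    have : (8 : ℝ) ≤ n := by exact_mod_cast hn
    exact div_le_div_of_nonneg_left Real.pi_pos.le (by norm_num) this
  have hc : (0.92 : ℝ) ≤ Real.cos (Real.pi / n) := by
    refine le_trans ?_ hc8
    have h5 := Real.one_sub_sq_div_two_le_cos (x := Real.pi / 8)
    have h6 := Real.pi_lt_d2
    nlinarith
  have hcp : 0 ≤ Real.cos (Real.pi / n) := by linarith
  have ha := disc_area hK.fin (by positivity) hd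
  rw [mul_pow] at ha
  have h7 : (0.92 : ℝ) ^ 2 ≤ Real.cos (Real.pi / n) ^ 2 := by gcongr
  have h8 := Real.pi_gt_d2
  have h9 : (1 : ℝ) / 3 * 0.92 ^ 2 ≤ ‖p‖ ^ 2 * Real.cos (Real.pi / n) ^ 2 := by
    apply mul_le_mul hpn h7 (by positivity) (by positivity)
  nlinarith

end PoolLebSym
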