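import Pool.Agent.LebSym.Pal

/-! # Pal's hexagon: area and shape -/

open MeasureTheory

namespace PoolLebSym

open PoolLeb

theorem hex_iff (z : ℂ) : z ∈ Hex ↔ |z.re| ≤ 1 / 2 ∧ |z.im| ≤ (1 - |z.re|) / √3 := by
  have h3 : 0 < √3 := by positivity
  have e : √3 * √3 = 3 := Real.mul_self_sqrt (by norm_num)
  have key : ∀ a b : ℝ, (|a / 2 + b| ≤ 1 / 2 ∧ |-(a / 2) + b| ≤ 1 / 2) ↔
      |a| / 2 + |b| ≤ 1 / 2 := by
    intro a b
    constructor
    · rintro ⟨h1, h2⟩
      rw [abs_le] at h1 h2
      rcases abs_cases a with ⟨ha, _⟩ | ⟨ha, _⟩ <;> rcases abs_cases b with ⟨hb, _⟩ | ⟨hb, _⟩ <;>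
        rw [ha, hb] <;> linarith
    · intro h
      have h1 := abs_le.1 (le_refl |a|)
      have h2 := abs_le.1 (le_refl |b|)
      constructor <;> rw [abs_le] <;> constructor <;> linarith
  have h5 : |√3 / 2 * z.im| = √3 / 2 * |z.im| := by
    rw [abs_mul, abs_of_pos (by positivity)]
  unfold Hex
  rw [Set.mem_ofPred_eq, key, h5, le_div_iff₀ h3]
  constructor
  · rintro ⟨h1, h2⟩
    exact ⟨h1, by linarith⟩
  · rintro ⟨h1, h2⟩
    exact ⟨h1, by linarith⟩

theorem hex_closed : IsClosed Hex := by
  have h1 : IsClosed {z : ℂ | |z.re| ≤ 1 / 2} := isClosed_le (by fun_prop) continuous_const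
  have h2 : IsClosed {z : ℂ | |z.re / 2 + √3 / 2 * z.im| ≤ 1 / 2} :=
    isClosed_le (by fun_prop) continuous_const
  have h3 : IsClosed {z : ℂ | |-(z.re / 2) + √3 / 2 * z.im| ≤ 1 / 2} :=
    isClosed_le (by fun_prop) continuous_const
  exact h1.inter (h2.inter h3)

theorem hex_convex : Convex ℝ Hex := by
  intro x hx y hy a b ha hb hab
  obtain ⟨x1, x2, x3⟩ := hx
  obtain ⟨y1, y2, y3⟩ := hy
  rw [abs_le] at x1 x2 x3 y1 y2 y3
  refine ⟨?_, ?_, ?_⟩ <;>
  · simp only [Complex.add_re, Complex.add_im, Complex.real_smul, Complex.re_ofReal_mul,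
      Complex.im_ofReal_mul]
    rw [abs_le]
    constructor <;> nlinarith

theorem hex_symm {z : ℂ} (hz : z ∈ Hex) : -z ∈ Hex := by
  rw [hex_iff] at hz ⊢
  simpa using hz

theorem hex_volume : volume Hex = ENNReal.ofReal (√3 / 2) := by
  have h3 : 0 < √3 := by positivity
  have e3 : √3 * √3 = 3 := Real.mul_self_sqrt (by norm_num)
  have hms : MeasurableSet Hex := hex_closed.measurableSet
  rw [← Complex.volume_preserving_equiv_real_prod.symm.measure_preimage hms.nullMeasurableSet]
  rw [MeasureTheory.Measure.volume_eq_prod, MeasureTheory.Measure.prod_apply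
    (Complex.measurableEquivRealProd.symm.measurable hms)]
  have hsl : ∀ x : ℝ, volume (Prod.mk x ⁻¹' (⇑Complex.measurableEquivRealProd.symm ⁻¹' Hex))
      = Set.indicator (Set.Icc (-(1 / 2) : ℝ) (1 / 2))
        (fun x => ENNReal.ofReal (2 * ((1 - |x|) / √3))) x := by
    intro x
    by_cases hx : x ∈ Set.Icc (-(1 / 2) : ℝ) (1 / 2)
    · rw [Set.indicator_of_mem hx]
      have e : Prod.mk x ⁻¹' (⇑Complex.measurableEquivRealProd.symm ⁻¹' Hex)
          = Set.Icc (-((1 - |x|) / √3)) ((1 - |x|) / √3) := by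
        ext y
        rw [Set.mem_preimage, Set.mem_preimage, hex_iff, Set.mem_Icc, ← abs_le]
        have h1 : |x| ≤ 1 / 2 := abs_le.2 hx
        exact and_iff_right h1
      rw [e, Real.volume_Icc]
      congr 1
      ring
    · rw [Set.indicator_of_notMem hx]
      have e : Prod.mk x ⁻¹' (⇑Complex.measurableEquivRealProd.symm ⁻¹' Hex) = ∅ := by
        rw [Set.eq_empty_iff_forall_notMem]
        intro y hy
        rw [Set.mem_preimage, Set.mem_preimage, hex_iff] at hy
        exact hx (abs_le.1 hy.1)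
      rw [e, measure_empty]
  rw [lintegral_congr hsl, lintegral_indicator measurableSet_Icc]
  rw [← ofReal_integral_eq_lintegral_ofReal]
  · congr 1
    rw [integral_Icc_eq_integral_Ioc, ← intervalIntegral.integral_of_le (by norm_num)]
    have hi : ∀ a b : ℝ, IntervalIntegrable (fun x : ℝ => 2 * ((1 - |x|) / √3)) volume a b :=
      fun a b => (by fun_prop : Continuous fun x : ℝ => 2 * ((1 - |x|) / √3)).intervalIntegrable a b
    rw [← intervalIntegral.integral_add_adjacent_intervals (b := 0) (hi _ _) (hi _ _)]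
    have h1 : (∫ x : ℝ in (-(1 / 2) : ℝ)..0, 2 * ((1 - |x|) / √3))
        = ∫ x : ℝ in (-(1 / 2) : ℝ)..0, 2 / √3 * (1 + x) := by
      apply intervalIntegral.integral_congr
      intro x hx
      rw [Set.uIcc_of_le (by norm_num)] at hx
      simp only
      rw [abs_of_nonpos hx.2]
      ring
    have h2 : (∫ x : ℝ in (0 : ℝ)..(1 / 2), 2 * ((1 - |x|) / √3))
        = ∫ x : ℝ in (0 : ℝ)..(1 / 2), 2 / √3 * (1 - x) := by
      apply intervalIntegral.integral_congr
      intro x hx
      rw [Set.uIcc_of_le (by norm_num)] at hx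
      simp only
      rw [abs_of_nonneg hx.1]
      ring
    rw [h1, h2, intervalIntegral.integral_const_mul, intervalIntegral.integral_const_mul,
      intervalIntegral.integral_add (by simp) (by simp), intervalIntegral.integral_sub (by simp)
      (by simp), integral_id, integral_id, intervalIntegral.integral_const,
      intervalIntegral.integral_const]
    simp only [smul_eq_mul]
    field_simp
    nlinarith
  · exact (by fun_prop : Continuous fun x : ℝ => 2 * ((1 - |x|) / √3)).continuousOn.integrableOn_compact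
      isCompact_Icc
  · rw [Filter.EventuallyLE, ae_restrict_iff' measurableSet_Icc]
    refine Filter.Eventually.of_forall ?_
    intro x hx
    have h1 : |x| ≤ 1 / 2 := abs_le.2 hx
    simp only [Pi.zero_apply]
    have : 0 ≤ 1 - |x| := by linarith
    positivity

end PoolLebSym
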