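import Pool.Agent.LebSym.Unique

/-! # Rotationally invariant sets -/

open MeasureTheory

namespace PoolLebSym

open PoolLeb

/-- invariance under all `n`-th roots of unity -/
def Inv (n : ℕ) (K : Set ℂ) : Prop := ∀ ξ : ℂ, ξ ^ n = 1 → ∀ z ∈ K, ξ * z ∈ K

theorem E_pow {n : ℕ} (hn : 0 < n) (k : ℕ) : bodies_E n k ^ n = 1 := by
  unfold bodies_E
  rw [← Complex.exp_nat_mul, Complex.exp_eq_one_iff]
  refine ⟨k, ?_⟩
  have : (n : ℂ) ≠ 0 := by exact_mod_cast hn.ne'
  field_simp
  push_cast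
  ring

/-- averaging over the group -/
theorem avg_mem {K : Set ℂ} (hc : Convex ℝ K) {n : ℕ} (hn : 1 < n) {s z : ℂ}
    (h : ∀ k < n, bodies_E n k * s + z ∈ K) : z ∈ K := by
  have hn0 : (0 : ℝ) < n := by exact_mod_cast (by omega : 0 < n)
  have h1 := hc.sum_mem (t := Finset.range n) (w := fun _ => (1 / n : ℝ))
    (z := fun k => bodies_E n k * s + z) (fun _ _ => by positivity) (by
      rw [Finset.sum_const, Finset.card_range, nsmul_eq_mul]
      field_simp) (fun k hk => h k (Finset.mem_range.1 hk))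
  have h2 : ∑ k ∈ Finset.range n, (1 / n : ℝ) • (bodies_E n k * s + z) = z := by
    rw [← Finset.smul_sum, Finset.sum_add_distrib, ← Finset.sum_mul, bodies_sum hn, zero_mul,
      zero_add, Finset.sum_const, Finset.card_range, nsmul_eq_mul, Complex.real_smul]
    push_cast
    have : (n : ℂ) ≠ 0 := by exact_mod_cast hn0.ne'
    field_simp
  rwa [h2] at h1

theorem ball_centred {K : Set ℂ} (hc : Convex ℝ K) {n : ℕ} (hn : 1 < n) (hi : Inv n K) {s : ℂ}
    (hs : Metric.closedBall s (1 / 2) ⊆ K) : Metric.closedBall (0 : ℂ) (1 / 2) ⊆ K := by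
  intro z hz
  rw [mem_closedBall_zero_iff] at hz
  apply avg_mem hc hn (s := s)
  intro k _
  have hE : bodies_E n k ≠ 0 := Complex.exp_ne_zero _
  have h1 : s + (bodies_E n k)⁻¹ * z ∈ K := by
    apply hs
    rw [Metric.mem_closedBall, dist_eq_norm, add_sub_cancel_left, norm_mul, norm_inv, bodies_norm,
      inv_one, one_mul]
    exact hz
  have h2 := hi _ (E_pow (by omega) k) _ h1
  rw [mul_add, mul_inv_cancel_left₀ hE] at h2
  exact h2

/-- the disc lemma: an invariant closed convex set containing `p` contains a disc of radius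
`‖p‖ cos (π/n)` -/
theorem disc_lemma {K : Set ℂ} (hc : Convex ℝ K) (hcl : IsClosed K) {n : ℕ} (hn : 2 ≤ n)
    (hi : Inv n K) {p : ℂ} (hp : p ∈ K) (h0 : (0 : ℂ) ∈ K) :
    Metric.closedBall (0 : ℂ) (‖p‖ * Real.cos (Real.pi / n)) ⊆ K := by
  intro z hz
  rw [mem_closedBall_zero_iff] at hz
  by_contra hzK
  obtain ⟨f, u, hu1, hu2⟩ := geometric_hahn_banach_closed_point hc hcl hzK
  set a : ℂ := ⟨f 1, f Complex.I⟩ with ha
  have hf : ∀ y : ℂ, f y = ((starRingEnd ℂ) a * y).re := by
    intro y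
    have h1 : y = y.re • (1 : ℂ) + y.im • Complex.I := by
      apply Complex.ext <;> simp
    conv_lhs => rw [h1]
    rw [map_add, map_smul, map_smul]
    simp [ha]
    ring
  have h0u : 0 < u := by
    have := hu1 0 h0
    rwa [map_zero] at this
  have ha0 : a ≠ 0 := by
    intro h
    have h1 := hf z
    rw [h, map_zero, zero_mul, Complex.zero_re] at h1
    linarith
  have hpn : p ≠ 0 := by
    rintro rfl
    rw [norm_zero, zero_mul] at hz
    have : z = 0 := norm_le_zero_iff.1 hz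
    rw [this] at hzK
    exact hzK h0
  have han : 0 < ‖a‖ := norm_pos_iff.2 ha0
  have hpp : 0 < ‖p‖ := norm_pos_iff.2 hpn
  have hw : ‖(starRingEnd ℂ) a * p / ((‖a‖ * ‖p‖ : ℝ) : ℂ)‖ = 1 := by
    rw [norm_div, norm_mul, RCLike.norm_conj, Complex.norm_real, Real.norm_of_nonneg (by positivity)]
    field_simp
  obtain ⟨k, hk, θ, hθ, e⟩ := exists_turn (n := n) (by omega) hw
  change (starRingEnd ℂ) a * p / ((‖a‖ * ‖p‖ : ℝ) : ℂ) * bodies_E n k
    = Complex.exp (θ * Complex.I) at e
  have h1 := hu1 _ (hi _ (E_pow (by omega) k) _ hp)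
  rw [hf] at h1
  have hne : ((‖a‖ * ‖p‖ : ℝ) : ℂ) ≠ 0 := by
    have : (‖a‖ * ‖p‖ : ℝ) ≠ 0 := by positivity
    exact_mod_cast this
  have h2 : (starRingEnd ℂ) a * (bodies_E n k * p)
      = ((‖a‖ * ‖p‖ : ℝ) : ℂ) * Complex.exp (θ * Complex.I) := by
    rw [← e]
    field_simp
  rw [h2, Complex.re_ofReal_mul, Complex.exp_ofReal_mul_I_re] at h1
  have hcos : Real.cos (Real.pi / n) ≤ Real.cos θ := by
    rw [← Real.cos_abs θ]
    apply Real.cos_le_cos_of_nonneg_of_le_pi (abs_nonneg _) _ hθ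
    have : (1 : ℝ) ≤ n := by exact_mod_cast (by omega : 1 ≤ n)
    exact div_le_self Real.pi_pos.le this
  have h3 : f z ≤ ‖a‖ * ‖z‖ := by
    rw [hf]
    refine (Complex.re_le_norm _).trans ?_
    rw [norm_mul, RCLike.norm_conj]
  have h4 : ‖a‖ * ‖z‖ ≤ ‖a‖ * (‖p‖ * Real.cos (Real.pi / n)) := by gcongr
  have h5 : ‖a‖ * (‖p‖ * Real.cos (Real.pi / n)) ≤ ‖a‖ * ‖p‖ * Real.cos θ := by
    rw [← mul_assoc]
    gcongr
  linarith

theorem disc_area {K : Set ℂ} (hf : volume K ≠ ⊤) {r : ℝ} (hr : 0 ≤ r)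
    (h : Metric.closedBall (0 : ℂ) r ⊆ K) : Real.pi * r ^ 2 ≤ (volume K).toReal := by
  have h1 := ENNReal.toReal_mono hf (measure_mono h)
  rw [Complex.volume_closedBall] at h1
  rw [ENNReal.toReal_mul, ENNReal.toReal_pow, ENNReal.toReal_ofReal hr] at h1
  simp only [ENNReal.coe_toReal, NNReal.coe_real_pi] at h1
  linarith

/-- rotation-dense case: invariance under one element of infinite order -/
theorem neg_of_infinite {K : Set ℂ} (hcl : IsClosed K) {w : ℂ} (hw : ‖w‖ = 1)
    (ho : orderOf w = 0) (hi : ∀ z ∈ K, w * z ∈ K) : ∀ z ∈ K, -z ∈ K := by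
  -- pass to the circle
  have hfact : Fact (0 < 2 * Real.pi) := ⟨by positivity⟩
  set u : Circle := ⟨w, mem_sphere_zero_iff_norm.2 hw⟩ with hu
  have huo : orderOf u = 0 := by
    rw [← ho]
    have : (Circle.coeHom u : ℂ) = w := rfl
    rw [← this]
    exact (orderOf_injective Circle.coeHom Circle.coe_injective u).symm
  have hd : DenseRange (fun k : ℕ => u ^ k) := by
    rw [← denseRange_zpow_iff_pow]
    have hT : (2 * Real.pi) ≠ 0 := hfact.out.ne'
    obtain ⟨a, ha⟩ := (AddCircle.homeomorphCircle hT).surjective u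
    rw [AddCircle.homeomorphCircle_apply] at ha
    have hao : addOrderOf a = 0 := by
      rw [addOrderOf_eq_zero_iff']
      intro m hm hma
      have h1 : u ^ m = 1 := by
        rw [← ha, ← AddCircle.toCircle_nsmul, hma, AddCircle.toCircle_zero]
      rw [orderOf_eq_zero_iff'] at huo
      exact huo m hm h1
    have hd1 := AddCircle.denseRange_zsmul_iff.2 hao
    have hd2 : DenseRange (@AddCircle.toCircle (2 * Real.pi)) := by
      have h2 : (@AddCircle.toCircle (2 * Real.pi)) = ⇑(AddCircle.homeomorphCircle hT) := by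
        funext x
        rw [AddCircle.homeomorphCircle_apply]
      rw [h2]
      exact (AddCircle.homeomorphCircle hT).surjective.denseRange
    have hd3 := hd2.comp hd1 AddCircle.continuous_toCircle
    have h3 : (@AddCircle.toCircle (2 * Real.pi)) ∘ (fun k : ℤ => k • a) = fun k : ℤ => u ^ k := by
      funext k
      rw [Function.comp_apply, AddCircle.toCircle_zsmul, ha]
    rwa [h3] at hd3
  have hA : IsClosed {v : Circle | ∀ z ∈ K, (v : ℂ) * z ∈ K} := by
    have : {v : Circle | ∀ z ∈ K, (v : ℂ) * z ∈ K} = ⋂ z ∈ K, (fun v : Circle => (v : ℂ) * z) ⁻¹' K := by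
      ext v
      simp
    rw [this]
    exact isClosed_biInter fun z _ => hcl.preimage (by fun_prop)
  have hsub : Set.range (fun k : ℕ => u ^ k) ⊆ {v : Circle | ∀ z ∈ K, (v : ℂ) * z ∈ K} := by
    rintro _ ⟨k, rfl⟩
    induction k with
    | zero =>
      intro z hz
      simpa using hz
    | succ k ih =>
      intro z hz
      have h1 := hi _ (ih z hz)
      have h2 : ((u ^ (k + 1) : Circle) : ℂ) * z = w * (((u ^ k : Circle) : ℂ) * z) := by
        rw [pow_succ']
        push_cast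
        rw [hu]
        ring
      rw [h2]
      exact h1
  have hall : ∀ v : Circle, ∀ z ∈ K, (v : ℂ) * z ∈ K := by
    intro v
    exact closure_minimal hsub hA (hd v)
  intro z hz
  have h1 := hall (-1) z hz
  simpa using h1

end PoolLebSym
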