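import Pool.Agent.Leb.Cover

/-! # Pal's hexagon is a displacement cover -/

open MeasureTheory

namespace PoolLebSym

open PoolLeb

/-- Pal's hexagon: the regular hexagon with inscribed circle of radius `1/2` about `0` -/
def Hex : Set ℂ :=
  {z | |z.re| ≤ 1 / 2 ∧ |z.re / 2 + √3 / 2 * z.im| ≤ 1 / 2 ∧
    |-(z.re / 2) + √3 / 2 * z.im| ≤ 1 / 2}

noncomputable def pv (φ : ℝ) (z : ℂ) : ℝ := Real.cos φ * z.re + Real.sin φ * z.im

noncomputable def ph (S : Set ℂ) (φ : ℝ) : ℝ := sSup (pv φ '' S)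

theorem pv_le_norm (φ : ℝ) (z : ℂ) : pv φ z ≤ ‖z‖ := by
  have h1 : pv φ z = (Complex.exp (((-φ : ℝ) : ℂ) * Complex.I) * z).re := by
    rw [Complex.mul_re, Complex.exp_ofReal_mul_I_re, Complex.exp_ofReal_mul_I_im, Real.cos_neg,
      Real.sin_neg]
    unfold pv
    ring
  rw [h1]
  refine (Complex.re_le_norm _).trans ?_
  rw [norm_mul, Complex.norm_exp_ofReal_mul_I, one_mul]

theorem pv_pi (φ : ℝ) (z : ℂ) : pv (φ + Real.pi) z = - pv φ z := by
  unfold pv
  rw [Real.cos_add_pi, Real.sin_add_pi]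
  ring

theorem pv_sub (φ : ℝ) (z w : ℂ) : pv φ (z - w) = pv φ z - pv φ w := by
  unfold pv
  rw [Complex.sub_re, Complex.sub_im]
  ring

theorem pv_third (φ : ℝ) (z : ℂ) :
    pv (φ + Real.pi / 3) z = pv φ z + pv (φ + 2 * Real.pi / 3) z := by
  unfold pv
  have e : 2 * Real.pi / 3 = Real.pi - Real.pi / 3 := by ring
  rw [Real.cos_add, Real.sin_add, Real.cos_add, Real.sin_add, e, Real.cos_pi_sub, Real.sin_pi_sub,
    Real.cos_pi_div_three, Real.sin_pi_div_three]
  ring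

theorem pv_lip (φ ψ : ℝ) (z : ℂ) : pv φ z ≤ pv ψ z + 2 * ‖z‖ * |φ - ψ| := by
  have h1 : |Real.cos φ - Real.cos ψ| ≤ |φ - ψ| := by
    have := Real.abs_cos_sub_cos_le φ ψ
    exact this
  have h2 : |Real.sin φ - Real.sin ψ| ≤ |φ - ψ| := by
    have := Real.abs_sin_sub_sin_le φ ψ
    exact this
  have h3 := Complex.abs_re_le_norm z
  have h4 := Complex.abs_im_le_norm z
  have h5 : (Real.cos φ - Real.cos ψ) * z.re ≤ |φ - ψ| * ‖z‖ := by
    refine (le_abs_self _).trans ?_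
    rw [abs_mul]
    gcongr
  have h6 : (Real.sin φ - Real.sin ψ) * z.im ≤ |φ - ψ| * ‖z‖ := by
    refine (le_abs_self _).trans ?_
    rw [abs_mul]
    gcongr
  unfold pv
  nlinarith

section
variable {S : Set ℂ} {B : ℝ} (hne : S.Nonempty) (hB : ∀ z ∈ S, ‖z‖ ≤ B)
include hB

theorem ph_bdd (φ : ℝ) : BddAbove (pv φ '' S) := by
  refine ⟨B, ?_⟩
  rintro _ ⟨z, hz, rfl⟩
  exact (pv_le_norm φ z).trans (hB z hz)

theorem le_ph (φ : ℝ) {z : ℂ} (hz : z ∈ S) : pv φ z ≤ ph S φ :=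
  le_csSup (ph_bdd hB φ) ⟨z, hz, rfl⟩

include hne

theorem ph_lip (φ ψ : ℝ) : ph S φ ≤ ph S ψ + 2 * B * |φ - ψ| := by
  refine csSup_le (hne.image _) ?_
  rintro _ ⟨z, hz, rfl⟩
  have h1 := pv_lip φ ψ z
  have h2 := le_ph hB ψ hz
  have h3 := hB z hz
  have h4 := abs_nonneg (φ - ψ)
  nlinarith

theorem ph_cont : Continuous (ph S) := by
  have hB0 : 0 ≤ B := by
    obtain ⟨z, hz⟩ := hne
    exact (norm_nonneg z).trans (hB z hz)
  have : LipschitzWith (Real.toNNReal (2 * B)) (ph S) := by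
    refine LipschitzWith.of_dist_le_mul ?_
    intro x y
    rw [Real.dist_eq, Real.dist_eq, Real.coe_toNNReal _ (by positivity), abs_le]
    have h1 := ph_lip hne hB x y
    have h2 := ph_lip hne hB y x
    rw [abs_sub_comm] at h2
    constructor <;> linarith
  exact this.continuous

theorem ph_width (hd : ∀ z ∈ S, ∀ w ∈ S, ‖z - w‖ ≤ 1) (φ : ℝ) :
    ph S φ + ph S (φ + Real.pi) ≤ 1 := by
  have h1 : ph S φ ≤ 1 - ph S (φ + Real.pi) := by
    refine csSup_le (hne.image _) ?_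
    rintro _ ⟨z, hz, rfl⟩
    have h2 : ph S (φ + Real.pi) ≤ 1 - pv φ z := by
      refine csSup_le (hne.image _) ?_
      rintro _ ⟨w, hw, rfl⟩
      rw [pv_pi]
      have h3 := (pv_le_norm φ (z - w)).trans (hd z hz w hw)
      rw [pv_sub] at h3
      linarith
    linarith
  linarith

end

theorem ph_two_pi (S : Set ℂ) (φ : ℝ) : ph S (φ + Real.pi + Real.pi) = ph S φ := by
  unfold ph
  congr 1
  apply Set.image_congr
  intro z _
  rw [pv_pi, pv_pi, neg_neg]

noncomputable def pm (S : Set ℂ) (φ : ℝ) : ℝ := (ph S φ - ph S (φ + Real.pi)) / 2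

theorem pm_pi (S : Set ℂ) (φ : ℝ) : pm S (φ + Real.pi) = - pm S φ := by
  unfold pm
  rw [ph_two_pi]
  ring

noncomputable def pg (S : Set ℂ) (φ : ℝ) : ℝ :=
  pm S φ - pm S (φ + Real.pi / 3) + pm S (φ + 2 * Real.pi / 3)

theorem pg_third (S : Set ℂ) (φ : ℝ) : pg S (φ + Real.pi / 3) = - pg S φ := by
  unfold pg
  have e1 : φ + Real.pi / 3 + Real.pi / 3 = φ + 2 * Real.pi / 3 := by ring
  have e2 : φ + Real.pi / 3 + 2 * Real.pi / 3 = φ + Real.pi := by ring
  rw [e1, e2, pm_pi]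
  ring

/-- Pal's theorem: every set of diameter `1` fits into the hexagon. -/
theorem hex_cover : IsDisplacementCover Hex := by
  intro S hS
  have hbd : Bornology.IsBounded S := by
    by_contra h
    rw [Metric.diam_eq_zero_of_unbounded h] at hS
    exact zero_ne_one hS
  have hne : S.Nonempty := by
    rw [Set.nonempty_iff_ne_empty]
    rintro rfl
    rw [Metric.diam_empty] at hS
    exact zero_ne_one hS
  obtain ⟨B, hB'⟩ := hbd.exists_norm_le
  have hB : ∀ z ∈ S, ‖z‖ ≤ B := fun z hz => hB' z hz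
  have hd : ∀ z ∈ S, ∀ w ∈ S, ‖z - w‖ ≤ 1 := by
    intro z hz w hw
    rw [← dist_eq_norm, ← hS]
    exact Metric.dist_le_diam_of_mem hbd hz hw
  have hc := ph_cont hne hB
  have hcm : Continuous (pm S) := by
    unfold pm
    fun_prop
  have hcg : Continuous (pg S) := by
    unfold pg
    fun_prop
  obtain ⟨φ, hφ⟩ : ∃ φ, pg S φ = 0 := by
    have h1 := pg_third S 0
    rw [zero_add] at h1
    rcases le_total (pg S 0) 0 with h | h
    · exact mem_range_of_exists_le_of_exists_ge hcg ⟨0, h⟩ ⟨Real.pi / 3, by rw [h1]; linarith⟩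
    · exact mem_range_of_exists_le_of_exists_ge hcg ⟨Real.pi / 3, by rw [h1]; linarith⟩ ⟨0, h⟩
  have key : ∀ ψ : ℝ, ∀ z ∈ S, |pv ψ z - pm S ψ| ≤ 1 / 2 := by
    intro ψ z hz
    have h1 := le_ph hB ψ hz
    have h2 := le_ph hB (ψ + Real.pi) hz
    have h3 := ph_width hne hB hd ψ
    rw [pv_pi] at h2
    unfold pm
    rw [abs_le]
    constructor <;> linarith
  have h3 : 0 < √3 := by positivity
  refine ⟨Complex.exp (((-φ : ℝ) : ℂ) * Complex.I),
    ⟨-pm S φ, 2 / √3 * (-pm S (φ + 2 * Real.pi / 3) - pm S φ / 2)⟩,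
    Complex.norm_exp_ofReal_mul_I _, ?_⟩
  intro z hz
  have e1 : (Complex.exp (((-φ : ℝ) : ℂ) * Complex.I) * z).re = pv φ z := by
    rw [Complex.mul_re, Complex.exp_ofReal_mul_I_re, Complex.exp_ofReal_mul_I_im, Real.cos_neg,
      Real.sin_neg]
    unfold pv
    ring
  have e2 : (Complex.exp (((-φ : ℝ) : ℂ) * Complex.I) * z).im
      = Real.cos φ * z.im - Real.sin φ * z.re := by
    rw [Complex.mul_im, Complex.exp_ofReal_mul_I_re, Complex.exp_ofReal_mul_I_im, Real.cos_neg,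
      Real.sin_neg]
    ring
  have e3 : -(pv φ z / 2) + √3 / 2 * (Real.cos φ * z.im - Real.sin φ * z.re)
      = pv (φ + 2 * Real.pi / 3) z := by
    unfold pv
    have e : 2 * Real.pi / 3 = Real.pi - Real.pi / 3 := by ring
    rw [Real.cos_add, Real.sin_add, e, Real.cos_pi_sub, Real.sin_pi_sub,
      Real.cos_pi_div_three, Real.sin_pi_div_three]
    ring
  have e4 : √3 / 2 * (2 / √3 * (-pm S (φ + 2 * Real.pi / 3) - pm S φ / 2))
      = -pm S (φ + 2 * Real.pi / 3) - pm S φ / 2 := by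
    field_simp
  have e5 : pm S (φ + Real.pi / 3) = pm S φ + pm S (φ + 2 * Real.pi / 3) := by
    unfold pg at hφ
    linarith
  refine ⟨?_, ?_, ?_⟩
  · rw [Complex.add_re, e1]
    have := key φ z hz
    rwa [sub_eq_add_neg] at this
  · rw [Complex.add_re, Complex.add_im, e1, e2]
    have h := key (φ + Real.pi / 3) z hz
    have e6 : (pv φ z + -pm S φ) / 2 + √3 / 2 * (Real.cos φ * z.im - Real.sin φ * z.re +
        2 / √3 * (-pm S (φ + 2 * Real.pi / 3) - pm S φ / 2))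
        = pv (φ + Real.pi / 3) z - pm S (φ + Real.pi / 3) := by
      rw [mul_add, e4, pv_third, e5]
      linarith
    simp only at e6 ⊢
    rw [e6]
    exact h
  · rw [Complex.add_re, Complex.add_im, e1, e2]
    have h := key (φ + 2 * Real.pi / 3) z hz
    have e6 : -((pv φ z + -pm S φ) / 2) + √3 / 2 * (Real.cos φ * z.im - Real.sin φ * z.re +
        2 / √3 * (-pm S (φ + 2 * Real.pi / 3) - pm S φ / 2))
        = pv (φ + 2 * Real.pi / 3) z - pm S (φ + 2 * Real.pi / 3) := by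
      rw [mul_add, e4]
      linarith
    simp only at e6 ⊢
    rw [e6]
    exact h

end PoolLebSym
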