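import Pool.Agent.LebSym.Five
import Pool.Agent.LebSym.CutArea

/-! # Rotationally symmetric covers: assembly -/

open MeasureTheory

namespace PoolLebSym

open PoolLeb

/-- a congruent copy of the three vertices of the equilateral triangle of side 1 -/
theorem tri_copy {R : Set ℂ} (h : IsDisplacementCover R) :
    ∃ w t : ℂ, ‖w‖ = 1 ∧ w * t0 + t ∈ R ∧ w * t1 + t ∈ R ∧ w * t2 + t ∈ R := by
  have hT := tri_t (w := 1) (t := 0) (by simp)
  simp only [one_mul, add_zero] at hT
  have hd : Metric.diam ({t0, t1, t2} : Set ℂ) = 1 := by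
    rw [Metric.diam_triple, dist_comm t0 t1, dist_eq_norm, dist_eq_norm, dist_comm t1 t2,
      dist_eq_norm, hT.ab, hT.bc, hT.ca]
    simp
  obtain ⟨w, t, hw, hR⟩ := h _ hd
  exact ⟨w, t, hw, hR _ (by simp), hR _ (by simp), hR _ (by simp)⟩

/-- shifting a copy -/
theorem shift_mem {R : Set ℂ} {c x y : ℂ} (h : x + y ∈ R) :
    x + (y - c) ∈ (fun z => z + c) ⁻¹' R := by
  rw [Set.mem_preimage]
  have : x + (y - c) + c = x + y := by ring
  rw [this]
  exact h

/-- a cover invariant under a rotation about `c`: normalised form -/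
theorem good_centre {R : Set ℂ} (h : IsDisplacementCover R) (hc : Convex ℝ R) (hR : IsClosed R)
    (hf : volume R ≠ ⊤) {c : ℂ} {n : ℕ} (hn : 1 < n) (hi : Inv n ((fun z => z + c) ⁻¹' R)) :
    Good ((fun z => z + c) ⁻¹' R) ∧ volume ((fun z => z + c) ⁻¹' R) = volume R := by
  apply cover_translate hc hR hf
  obtain ⟨s, hs⟩ := disk_in h
  have h1 : Metric.closedBall (s - c) (1 / 2) ⊆ (fun z => z + c) ⁻¹' R := by
    intro z hz
    rw [Set.mem_preimage]
    apply hs
    rw [Metric.mem_closedBall, dist_eq_norm] at hz ⊢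
    have : z + c - s = z - (s - c) := by ring
    rw [this]
    exact hz
  have h2 := ball_centred (hc.translate_preimage_left c) hn hi h1
  intro z hz
  have h3 : z - c ∈ (fun z => z + c) ⁻¹' R := by
    apply h2
    rw [Metric.mem_closedBall, dist_eq_norm] at hz
    rw [mem_closedBall_zero_iff]
    exact hz
  rw [Set.mem_preimage, sub_add_cancel] at h3
  exact h3

theorem inv_two {K : Set ℂ} (hs : ∀ z ∈ K, -z ∈ K) : Inv 2 K := by
  intro ξ hξ z hz
  have hh : ξ = 1 ∨ ξ = -1 := sq_eq_one_iff.1 hξ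
  rcases hh with h | h
  · rw [h, one_mul]; exact hz
  · rw [h, neg_one_mul]; exact hs z hz

/-- the centrally symmetric case -/
theorem centre_bound {R : Set ℂ} (h : IsDisplacementCover R) (hc : Convex ℝ R) (hR : IsClosed R)
    (hf : volume R ≠ ⊤) {c : ℂ} (hs : ∀ z ∈ (fun z => z + c) ⁻¹' R, -z ∈ (fun z => z + c) ⁻¹' R) :
    √3 / 2 ≤ (volume R).toReal := by
  obtain ⟨hK, hv⟩ := good_centre h hc hR hf (n := 2) (by norm_num) (inv_two hs)
  obtain ⟨w, t, hw, a0, a1, a2⟩ := tri_copy h
  have := central_bound hK hs (tri_t (t := t - c) hw) (shift_mem a0) (shift_mem a1) (shift_mem a2)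
  rwa [hv] at this

theorem centre_unique {R : Set ℂ} (h : IsDisplacementCover R) (hc : Convex ℝ R) (hR : IsClosed R)
    {c : ℂ} (hs : ∀ z ∈ (fun z => z + c) ⁻¹' R, -z ∈ (fun z => z + c) ⁻¹' R)
    (hv : volume R ≤ ENNReal.ofReal (√3 / 2)) :
    ∃ u : ℂ, ‖u‖ = 1 ∧ (fun z => z + c) ⁻¹' R = (fun z => u * z) ⁻¹' Hex := by
  have hf : volume R ≠ ⊤ := ne_top_of_le_ne_top ENNReal.ofReal_ne_top hv
  obtain ⟨hK, hv'⟩ := good_centre h hc hR hf (n := 2) (by norm_num) (inv_two hs)
  obtain ⟨w, t, hw, a0, a1, a2⟩ := tri_copy h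
  exact unique_centred hK hs (w := w) (t := t - c) hw (shift_mem a0) (shift_mem a1)
    (shift_mem a2) (by rw [hv']; exact hv)

/-- invariance under one root of unity -/
theorem inv_of_orderOf {K : Set ℂ} {w : ℂ} (hn : 0 < orderOf w) (hi : ∀ z ∈ K, w * z ∈ K) :
    Inv (orderOf w) K := by
  intro ξ hξ z hz
  have : NeZero (orderOf w) := ⟨hn.ne'⟩
  obtain ⟨i, -, rfl⟩ := (IsPrimitiveRoot.orderOf w).eq_pow_of_pow_eq_one hξ
  clear hξ
  induction i with
  | zero => simpa using hz
  | succ i ih =>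
    have := hi _ ih
    rw [← mul_assoc, ← pow_succ'] at this
    exact this

theorem three_case {R : Set ℂ} (h : IsDisplacementCover R) (hc : Convex ℝ R) (hR : IsClosed R)
    (hf : volume R ≠ ⊤) {c : ℂ} (hi : Inv 3 ((fun z => z + c) ⁻¹' R)) :
    (85 : ℝ) / 100 ≤ (volume R).toReal := by
  obtain ⟨hK, hv⟩ := good_centre h hc hR hf (n := 3) (by norm_num) hi
  obtain ⟨w3, s3, hw3, hb3⟩ := body_in h hc (n := 3) (by norm_num)
  obtain ⟨w5, s5, hw5, hb5⟩ := body_in h hc (n := 5) (by norm_num)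
  have hw30 : w3 ≠ 0 := by
    intro h0
    rw [h0, norm_zero] at hw3
    exact zero_ne_one hw3
  obtain ⟨hK', hv'⟩ := good_rotate hK hw3
  have hi' := inv_rot hi w3
  have m3 : bodySet 3 ⊆ (fun z => w3 * z) ⁻¹' ((fun z => z + c) ⁻¹' R) := by
    intro z hz
    rw [Set.mem_preimage]
    apply avg_mem hK.conv (n := 3) (by norm_num) (s := s3 - c)
    intro k _
    have h1 := shift_mem (c := c) (hb3 _ (bodySet_rot (n := 3) (by norm_num) (2 * k) hz))
    have h2 := hi _ (E_pow (n := 3) (by norm_num) k) _ h1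
    change bodies_E 3 k * (w3 * (bodies_E 3 (2 * k) * z) + (s3 - c)) ∈ _ at h2
    have h4 : bodies_E 3 k * bodies_E 3 (2 * k) = 1 := by
      rw [bodies_add]
      have : k + 2 * k = 3 * k := by ring
      rw [this, bodies_self (by norm_num)]
    have h5 : bodies_E 3 k * (w3 * (bodies_E 3 (2 * k) * z) + (s3 - c))
        = bodies_E 3 k * (s3 - c) + w3 * z := by
      linear_combination (w3 * z) * h4
    rw [← h5]
    exact h2
  have hv1 : ‖w3⁻¹ * w5‖ = 1 := by rw [norm_mul, norm_inv, hw3, hw5, inv_one, one_mul]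
  have m5 : ∀ z ∈ bodySet 5, w3⁻¹ * (s5 - c) + w3⁻¹ * w5 * z ∈
      (fun z => w3 * z) ⁻¹' ((fun z => z + c) ⁻¹' R) := by
    intro z hz
    rw [Set.mem_preimage]
    have h1 := shift_mem (c := c) (hb5 z hz)
    have h2 : w3 * (w3⁻¹ * (s5 - c) + w3⁻¹ * w5 * z) = w5 * z + (s5 - c) := by
      field_simp
      ring
    rw [h2]
    exact h1
  have := three_bound hK' hi' m3 hv1 m5
  rwa [hv', hv] at this

/-- a cover invariant under a rotation of order three has area at least `0.85` -/
theorem rot_three {R : Set ℂ} (h : IsDisplacementCover R) (hc : Convex ℝ R) (hR : IsClosed R)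
    (hf : volume R ≠ ⊤) {c w : ℂ} (hw1 : w ≠ 1) (hw3 : w ^ 3 = 1)
    (hi : ∀ z ∈ (fun z => z + c) ⁻¹' R, w * z ∈ (fun z => z + c) ⁻¹' R) :
    (85 : ℝ) / 100 ≤ (volume R).toReal := by
  have ho : orderOf w = 3 := by
    have : Fact (Nat.Prime 3) := ⟨Nat.prime_three⟩
    exact orderOf_eq_prime hw3 hw1
  have hI := inv_of_orderOf (by rw [ho]; norm_num) hi
  rw [ho] at hI
  exact three_case h hc hR hf hI

/-- a cover invariant under any other nontrivial rotation is centrally symmetric or large -/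
theorem rot_dicho {R : Set ℂ} (h : IsDisplacementCover R) (hc : Convex ℝ R) (hR : IsClosed R)
    (hf : volume R ≠ ⊤) {c w : ℂ} (hw : ‖w‖ = 1) (hw3 : w ^ 3 ≠ 1)
    (hi : ∀ z ∈ (fun z => z + c) ⁻¹' R, w * z ∈ (fun z => z + c) ⁻¹' R) :
    (∀ z ∈ (fun z => z + c) ⁻¹' R, -z ∈ (fun z => z + c) ⁻¹' R) ∨
      (8661 : ℝ) / 10000 ≤ (volume R).toReal := by
  have hcl : IsClosed ((fun z => z + c) ⁻¹' R) := hR.preimage (by fun_prop)
  by_cases ho : orderOf w = 0
  · exact Or.inl (neg_of_infinite hcl hw ho hi)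
  have hn : 0 < orderOf w := Nat.pos_of_ne_zero ho
  have hn3 : ¬ orderOf w ∣ 3 := by
    rw [orderOf_dvd_iff_pow_eq_one]
    exact hw3
  have hI := inv_of_orderOf hn hi
  generalize orderOf w = n at hn hn3 hI
  rcases Nat.even_or_odd n with he | hodd
  · left
    intro z hz
    have := hI (-1) he.neg_one_pow z hz
    rwa [neg_one_mul] at this
  · right
    have hn1 : 1 < n := by
      rcases Nat.lt_or_ge 1 n with h1 | h1
      · exact h1
      · exfalso
        apply hn3
        have : n = 1 := by omega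
        rw [this]
        exact one_dvd 3
    obtain ⟨hK, hv⟩ := good_centre h hc hR hf (n := n) hn1 hI
    obtain ⟨w3, s3, hw3, hb3⟩ := body_in h hc (n := 3) (by norm_num)
    have m3 : ∀ z ∈ bodySet 3, (s3 - c) + w3 * z ∈ (fun z => z + c) ⁻¹' R := by
      intro z hz
      have h1 := shift_mem (c := c) (hb3 z hz)
      rwa [add_comm]
    rcases lt_or_ge n 8 with h8 | h8
    · interval_cases n
      · exact absurd hodd (by decide)
      · exact absurd (dvd_refl 3) hn3
      · exact absurd hodd (by decide)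
      · have := five_bound hK hI hw3 m3
        rwa [hv] at this
      · exact absurd hodd (by decide)
      · have := seven_bound hK hI hw3 m3
        rwa [hv] at this
    · obtain ⟨w, t, hw, a0, a1, a2⟩ := tri_copy h
      have := big_bound hK h8 hI hw (shift_mem a0) (shift_mem a1) (shift_mem a2)
      rwa [hv] at this

/-- a cover invariant under any other nontrivial rotation has area at least `√3/2` -/
theorem rot_other {R : Set ℂ} (h : IsDisplacementCover R) (hc : Convex ℝ R) (hR : IsClosed R)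
    (hf : volume R ≠ ⊤) {c w : ℂ} (hw : ‖w‖ = 1) (hw3 : w ^ 3 ≠ 1)
    (hi : ∀ z ∈ (fun z => z + c) ⁻¹' R, w * z ∈ (fun z => z + c) ⁻¹' R) :
    √3 / 2 ≤ (volume R).toReal := by
  have u3 : √3 ≤ (1.7321 : ℝ) := Real.sqrt_le_iff.2 ⟨by norm_num, by norm_num⟩
  rcases rot_dicho h hc hR hf hw hw3 hi with h1 | h1
  · exact centre_bound h hc hR hf h1
  · linarith

/-- and it is Pal's hexagon if the area is `√3/2` -/
theorem rot_unique {R : Set ℂ} (h : IsDisplacementCover R) (hc : Convex ℝ R) (hR : IsClosed R)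
    (hv : volume R ≤ ENNReal.ofReal (√3 / 2)) {c w : ℂ} (hw : ‖w‖ = 1) (hw3 : w ^ 3 ≠ 1)
    (hi : ∀ z ∈ (fun z => z + c) ⁻¹' R, w * z ∈ (fun z => z + c) ⁻¹' R) :
    ∃ u : ℂ, ‖u‖ = 1 ∧ (fun z => z + c) ⁻¹' R = (fun z => u * z) ⁻¹' Hex := by
  have u3 : √3 < (1.7321 : ℝ) := (Real.sqrt_lt' (by norm_num)).2 (by norm_num)
  have hf : volume R ≠ ⊤ := ne_top_of_le_ne_top ENNReal.ofReal_ne_top hv
  rcases rot_dicho h hc hR hf hw hw3 hi with h1 | h1
  · exact centre_unique h hc hR h1 hv
  · exfalso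
    have := ENNReal.toReal_mono ENNReal.ofReal_ne_top hv
    rw [ENNReal.toReal_ofReal (by positivity)] at this
    linarith

/-- a set mapped into itself by a translation and containing a disk has infinite area -/
theorem translation_infinite {R : Set ℂ} {s a : ℂ} (hs : Metric.closedBall s (1 / 2) ⊆ R)
    (ha : a ≠ 0) (hi : ∀ z ∈ R, z + a ∈ R) : volume R = ⊤ := by
  have ha0 : 0 < ‖a‖ := norm_pos_iff.2 ha
  obtain ⟨m, hm⟩ := exists_nat_gt (1 / ‖a‖)
  rw [div_lt_iff₀ ha0] at hm
  have hk : ∀ (k : ℕ) (z : ℂ), z ∈ R → z + k * a ∈ R := by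
    intro k z hz
    induction k with
    | zero => simpa using hz
    | succ k ih =>
      have := hi _ ih
      have e : z + k * a + a = z + ((k + 1 : ℕ) : ℂ) * a := by push_cast; ring
      rwa [e] at this
  set B : ℕ → Set ℂ := fun k => Metric.closedBall (s + (m * k : ℕ) * a) (1 / 2) with hB
  have hsub : (⋃ k, B k) ⊆ R := by
    apply Set.iUnion_subset
    intro k z hz
    have h1 : z - (m * k : ℕ) * a ∈ R := by
      apply hs
      rw [hB] at hz
      rw [Metric.mem_closedBall, dist_eq_norm] at hz ⊢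
      have : z - (m * k : ℕ) * a - s = z - (s + (m * k : ℕ) * a) := by ring
      rw [this]
      exact hz
    have h2 := hk (m * k) _ h1
    rwa [sub_add_cancel] at h2
  have hdis : Pairwise (Function.onFun Disjoint B) := by
    intro i j hij
    apply Metric.closedBall_disjoint_closedBall
    rw [dist_eq_norm]
    have e : s + ((m * i : ℕ) : ℂ) * a - (s + ((m * j : ℕ) : ℂ) * a)
        = ((m : ℂ) * a) * (((i : ℤ) - (j : ℤ) : ℤ) : ℂ) := by
      push_cast; ring
    rw [e, norm_mul, norm_mul, Complex.norm_natCast, Complex.norm_intCast]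
    have h0 : (i : ℤ) - (j : ℤ) ≠ 0 := sub_ne_zero.2 (by exact_mod_cast hij)
    have h1 : (1 : ℝ) ≤ |(((i : ℤ) - (j : ℤ) : ℤ) : ℝ)| := by
      generalize (i : ℤ) - (j : ℤ) = d at h0
      rw [← Int.cast_abs]
      exact_mod_cast Int.one_le_abs h0
    nlinarith
  have hv : volume (⋃ k, B k) = ⊤ := by
    rw [measure_iUnion hdis (fun k => measurableSet_closedBall)]
    have : ∀ k, volume (B k) = volume (B 0) := by
      intro k
      simp only [hB, Complex.volume_closedBall]
    simp_rw [this]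
    apply ENNReal.tsum_const_eq_top_of_ne_zero
    have h5 : Metric.ball (s + ((m * 0 : ℕ) : ℂ) * a) (1 / 2) ⊆ B 0 := Metric.ball_subset_closedBall
    exact ((Metric.isOpen_ball.measure_pos volume (Metric.nonempty_ball.2 (by norm_num))).trans_le
      (measure_mono h5)).ne'
  exact top_le_iff.1 (hv ▸ measure_mono hsub)

/-- moving the fixed point of a rotation to the origin -/
theorem fixed_point {R : Set ℂ} {w a : ℂ} (hw1 : w ≠ 1) (hi : ∀ z ∈ R, w * z + a ∈ R) :
    ∀ z ∈ (fun z => z + a / (1 - w)) ⁻¹' R, w * z ∈ (fun z => z + a / (1 - w)) ⁻¹' R := by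
  have hw0 : 1 - w ≠ 0 := sub_ne_zero.2 (Ne.symm hw1)
  intro z hz
  rw [Set.mem_preimage] at hz ⊢
  have h1 := hi _ hz
  have h2 : w * (z + a / (1 - w)) + a = w * z + a / (1 - w) := by
    field_simp
    ring
  rwa [h2] at h1

/-- the case of a translation -/
theorem translation_case {R : Set ℂ} (h : IsDisplacementCover R) {w a : ℂ} (hw1 : w = 1)
    (ha : a ≠ 0) (hi : ∀ z ∈ R, w * z + a ∈ R) : volume R = ⊤ := by
  obtain ⟨s, hs⟩ := disk_in h
  subst hw1
  apply translation_infinite hs ha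
  intro z hz
  have := hi z hz
  rwa [one_mul] at this

theorem cube_ne {w a z : ℂ} (hz : w * (w * (w * z + a) + a) + a ≠ z) (hw1 : w ≠ 1) :
    w ^ 3 ≠ 1 := by
  intro h3
  have h4 : (w - 1) * (w ^ 2 + w + 1) = 0 := by linear_combination h3
  have h5 : w ^ 2 + w + 1 = 0 := by
    rcases mul_eq_zero.1 h4 with h6 | h6
    · exact absurd (sub_eq_zero.1 h6) hw1
    · exact h6
  apply hz
  linear_combination z * h3 + a * h5

/-- **main theorem 1, complex form**: a closed convex displacement cover that some rigid motion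
`f z = w z + a` with `f³ ≠ id` maps into itself has area at least `√3/2`. -/
theorem motion_other {R : Set ℂ} (h : IsDisplacementCover R) (hc : Convex ℝ R) (hR : IsClosed R)
    {w a : ℂ} (hw : ‖w‖ = 1) (hne : ∃ z, w * (w * (w * z + a) + a) + a ≠ z)
    (hi : ∀ z ∈ R, w * z + a ∈ R) : ENNReal.ofReal (√3 / 2) ≤ volume R := by
  obtain ⟨z, hz⟩ := hne
  by_cases hf : volume R = ⊤
  · rw [hf]
    exact le_top
  by_cases hw1 : w = 1
  · exfalso
    apply hf
    refine translation_case h hw1 ?_ hi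
    rintro rfl
    apply hz
    rw [hw1]
    ring
  · exact ENNReal.ofReal_le_of_le_toReal
      (rot_other h hc hR hf hw (cube_ne hz hw1) (fixed_point hw1 hi))

/-- uniqueness, complex form -/
theorem motion_unique {R : Set ℂ} (h : IsDisplacementCover R) (hc : Convex ℝ R) (hR : IsClosed R)
    {w a : ℂ} (hw : ‖w‖ = 1) (hne : ∃ z, w * (w * (w * z + a) + a) + a ≠ z)
    (hi : ∀ z ∈ R, w * z + a ∈ R) (hv : volume R ≤ ENNReal.ofReal (√3 / 2)) :
    ∃ u c : ℂ, ‖u‖ = 1 ∧ R = (fun z => u * z + c) '' Hex := by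
  obtain ⟨z, hz⟩ := hne
  have hw1 : w ≠ 1 := by
    intro hw1
    have hf : volume R ≠ ⊤ := ne_top_of_le_ne_top ENNReal.ofReal_ne_top hv
    apply hf
    refine translation_case h hw1 ?_ hi
    rintro rfl
    apply hz
    rw [hw1]
    ring
  obtain ⟨u, hu, e⟩ := rot_unique h hc hR hv hw (cube_ne hz hw1) (fixed_point hw1 hi)
  have hu0 : u ≠ 0 := by
    rintro rfl
    simp at hu
  refine ⟨u⁻¹, a / (1 - w), by rw [norm_inv, hu, inv_one], ?_⟩
  ext x
  have e' := Set.ext_iff.1 e (x - a / (1 - w))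
  rw [Set.mem_preimage, sub_add_cancel, Set.mem_preimage] at e'
  rw [e', Set.mem_image]
  constructor
  · intro hx
    refine ⟨_, hx, ?_⟩
    field_simp
    ring
  · rintro ⟨y, hy, rfl⟩
    have : u * (u⁻¹ * y + a / (1 - w) - a / (1 - w)) = y := by
      field_simp
      ring
    rw [this]
    exact hy

/-- **main theorem 2, complex form**: a closed convex displacement cover that some rigid motion
`z ↦ w z + a` other than the identity maps into itself has area at least `0.85`. -/
theorem motion_bound {R : Set ℂ} (h : IsDisplacementCover R) (hc : Convex ℝ R) (hR : IsClosed R)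
    {w a : ℂ} (hw : ‖w‖ = 1) (hne : ∃ z, w * z + a ≠ z) (hi : ∀ z ∈ R, w * z + a ∈ R) :
    ENNReal.ofReal (85 / 100) ≤ volume R := by
  obtain ⟨z, hz⟩ := hne
  by_cases hf : volume R = ⊤
  · rw [hf]
    exact le_top
  by_cases hw1 : w = 1
  · exfalso
    apply hf
    refine translation_case h hw1 ?_ hi
    rintro rfl
    apply hz
    rw [hw1]
    ring
  · by_cases hw3 : w ^ 3 = 1
    · exact ENNReal.ofReal_le_of_le_toReal (rot_three h hc hR hf hw1 hw3 (fixed_point hw1 hi))
    · have e3 : (1.7 : ℝ) ≤ √3 := Real.le_sqrt_of_sq_le (by norm_num)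
      have := rot_other h hc hR hf hw hw3 (fixed_point hw1 hi)
      exact ENNReal.ofReal_le_of_le_toReal (by linarith)

end PoolLebSym
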