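import Pool.Agent.LebSym.Inv
import Pool.Agent.LebSym.Cert
import Pool.Agent.Leb.Levels

/-! # Covers with a threefold symmetry -/

open MeasureTheory

namespace PoolLebSym

open PoolLeb

theorem inv_rot {n : ℕ} {K : Set ℂ} (hi : Inv n K) (u : ℂ) : Inv n ((fun z => u * z) ⁻¹' K) := by
  intro ξ hξ z hz
  rw [Set.mem_preimage] at hz ⊢
  have : u * (ξ * z) = ξ * (u * z) := by ring
  rw [this]
  exact hi ξ hξ _ hz

/-- a far point can be moved to `7/10` -/
theorem far_seven {K : Set ℂ} (hK : Good K) {p : ℂ} (hp : p ∈ K) (hn : 7 / 10 ≤ ‖p‖) :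
    ∃ u : ℂ, ‖u‖ = 1 ∧ (7 / 10 : ℂ) ∈ (fun z => u * z) ⁻¹' K := by
  have hp0 : 0 < ‖p‖ := by linarith
  have hpne : (‖p‖ : ℂ) ≠ 0 := by exact_mod_cast hp0.ne'
  refine ⟨p / (‖p‖ : ℂ), ?_, ?_⟩
  · rw [norm_div, Complex.norm_real, norm_norm, div_self hp0.ne']
  have h0K : (0 : ℂ) ∈ K := hK.disk (by simp)
  rw [Set.mem_preimage]
  have e : p / (‖p‖ : ℂ) * (7 / 10) = ((7 / 10 / ‖p‖ : ℝ)) • p + (1 - 7 / 10 / ‖p‖ : ℝ) • (0 : ℂ) := by
    rw [smul_zero, add_zero, Complex.real_smul]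
    push_cast
    field_simp
  rw [e]
  refine hK.conv hp h0K (by positivity) ?_ (by ring)
  rw [sub_nonneg, div_le_one hp0]
  exact hn

theorem bodyPt_one : bodyPt 1 0 = 7 / 10 := by
  apply Complex.ext
  · simp [bodyPt, toC, bpt]
    norm_num
  · simp [bodyPt, toC, bpt]

/-- `e^{2πi/3}` -/
noncomputable def om : ℂ := Complex.exp (((2 * Real.pi / 3 : ℝ) : ℂ) * Complex.I)

theorem om_cube : om ^ 3 = 1 := by
  unfold om
  rw [← Complex.exp_nat_mul, Complex.exp_eq_one_iff]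
  refine ⟨1, ?_⟩
  push_cast
  ring

theorem l0_three {K : Set ℂ} (hK : Good K) (hi : Inv 3 K) (hA : (volume K).toReal < 85 / 100)
    {p : ℂ} (hp : p ∈ K) : ‖p‖ < 7 / 10 := by
  by_contra hcon
  rw [not_lt] at hcon
  obtain ⟨u, hu, hmem⟩ := far_seven hK hp hcon
  obtain ⟨hK', hv⟩ := good_rotate hK hu
  have hi' := inv_rot hi u
  set K' := (fun z => u * z) ⁻¹' K with hK'def
  have h3 : |Real.tan ((2 * Real.pi / 3) / 2) * 10 ^ 4 - ((17320 : ℤ) : ℝ)| ≤ 1 := by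
    have e : (2 * Real.pi / 3) / 2 = Real.pi / 3 := by ring
    rw [e, Real.tan_pi_div_three, abs_le]
    have h1 : (1.7320 : ℝ) ≤ √3 := Real.le_sqrt_of_sq_le (by norm_num)
    have h2 : √3 ≤ (1.7321 : ℝ) := by
      rw [Real.sqrt_le_left (by norm_num)]
      norm_num
    push_cast
    constructor <;> linarith
  have hθ : |2 * Real.pi / 3| < Real.pi := by
    rw [abs_of_pos (by positivity)]
    linarith [Real.pi_pos]
  obtain ⟨x, hx, hxe⟩ := angle_box hθ h3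
  have hcfg : Cfg [D0, ⟨1, 0, 0, 0⟩, ⟨1, 0, 17320, 1⟩] (fun _ => 0)
      (fun s => if s = 2 then x else 0) := by
    constructor
    · intro s hs
      have hs' : s < 3 := hs
      interval_cases s <;> simp [slotOf, D0]
    · intro s hs
      have hs' : s < 3 := hs
      interval_cases s
      · simp [slotOf, D0]
      · simp [slotOf, D0]
      · simpa [slotOf, D0] using hx
  have hmm : Mem [D0, ⟨1, 0, 0, 0⟩, ⟨1, 0, 17320, 1⟩] (fun _ => 0)
      (fun s => if s = 2 then x else 0) K' := by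
    refine mem_of hK' hcfg rfl (by simp) ?_
    intro s hs hs1 i hi2
    have hs' : s < 3 := hs
    interval_cases s
    · have hi3 : i < 1 := hi2
      obtain rfl : i = 0 := by omega
      have e1 : (slotOf [D0, ⟨1, 0, 0, 0⟩, ⟨1, 0, 17320, 1⟩] 1).kind = 1 := rfl
      have e2 : (slotOf [D0, ⟨1, 0, 0, 0⟩, ⟨1, 0, 17320, 1⟩] 1).p = 0 := rfl
      rw [e1, e2, bodyPt_one, w0_zero]
      simpa using hmem
    · have hi3 : i < 1 := hi2
      obtain rfl : i = 0 := by omega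
      have e1 : (slotOf [D0, ⟨1, 0, 0, 0⟩, ⟨1, 0, 17320, 1⟩] 2).kind = 1 := rfl
      have e2 : (slotOf [D0, ⟨1, 0, 0, 0⟩, ⟨1, 0, 17320, 1⟩] 2).p = 17320 := rfl
      rw [e1, e2, bodyPt_one, if_pos rfl, zero_add, ← mul_assoc, ← hxe]
      exact hi' om om_cube _ hmem
  have := leaf_sound cL0 rfl (by simp) hK' hcfg hmm (Or.inl rfl)
  rw [hv] at this
  norm_num at this
  linarith

/-- radius bound from far points and an octagon certificate -/
theorem core85 {K : Set ℂ} (hK : Good K) (h07 : ∀ p ∈ K, ‖p‖ < 7 / 10)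
    (hA : (volume K).toReal < 85 / 100) {t w : ℂ}
    (hw : ‖w‖ = 1) (hm : ∀ z ∈ bodySet 5, t + w * z ∈ K) : ‖t‖ ≤ 10351436 / 10 ^ 8 := by
  obtain ⟨hK', hv⟩ := good_rotate hK hw
  set K' := (fun z => w * z) ⁻¹' K with hK'def
  have hw0 : w ≠ 0 := by
    rintro rfl
    simp at hw
  have hm' : ∀ z ∈ bodySet 5, w⁻¹ * t + z ∈ K' := by
    intro z hz
    rw [hK'def, Set.mem_preimage]
    have : w * (w⁻¹ * t + z) = t + w * z := by
      field_simp
    rw [this]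
    exact hm z hz
  have hnorm : ‖w⁻¹ * t‖ = ‖t‖ := by
    rw [norm_mul, norm_inv, hw, inv_one, one_mul]
  set t' := w⁻¹ * t with ht'
  obtain ⟨v, hv1, hv2⟩ := exists_vertex (n := 5) (by norm_num) t'
  have hl0 : ‖t' + v‖ < 7 / 10 := by
    have h1 := h07 _ (hm' v hv1)
    rwa [norm_mul, hw, one_mul] at h1
  have hρn : ‖toC (bpt 5 0)‖ = 52573059 / 100000000 := by
    rw [(by decide +kernel : bpt 5 0 = (52573059, 0))]
    have : toC (52573059, 0) = (((52573059 : ℝ) / 100000000 : ℝ) : ℂ) := by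
      apply Complex.ext <;> simp [toC]
    rw [this, Complex.norm_real, Real.norm_eq_abs, abs_of_pos (by norm_num)]
  rw [hρn] at hv2
  have hle : ‖t'‖ ≤ 26900000 / 10 ^ 8 := by
    by_contra hcon
    rw [not_le] at hcon
    have hsq : ‖t' + v‖ ^ 2 < (7 / 10) ^ 2 :=
      pow_lt_pow_left₀ hl0 (norm_nonneg _) two_ne_zero
    nlinarith
  have hcfg : Cfg [D0, ⟨5, 26900000, 0, 0⟩] (fun s => if s = 1 then t' else 0) (fun _ => 0) := by
    constructor
    · intro s hs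
      have hs' : s < 2 := hs
      interval_cases s
      · simp [slotOf, D0]
      · simpa [slotOf, D0] using hle
    · intro s hs
      have hs' : s < 2 := hs
      interval_cases s <;> simp [slotOf, D0]
  have hmm : Mem [D0, ⟨5, 26900000, 0, 0⟩] (fun s => if s = 1 then t' else 0) (fun _ => 0) K' := by
    refine mem_of hK' hcfg rfl (by simp) ?_
    intro s hs hs1 i hi
    have hs' : s < 2 := hs
    obtain rfl : s = 1 := by omega
    have e1 : (slotOf [D0, ⟨5, 26900000, 0, 0⟩] 1).kind = 5 := rfl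
    have e2 : (slotOf [D0, ⟨5, 26900000, 0, 0⟩] 1).p = 0 := rfl
    rw [e1] at hi
    have hi' : i < 13 * 5 := hi
    rw [e1, e2, w0_zero]
    have := hm' _ (levels_body_mem hi')
    simpa using this
  have := oct_sound cL1 rfl (by simp) hK' hcfg hmm (by rw [hv]; norm_num; linarith)
    (r := 10351436) (by norm_num) (by norm_num) (by norm_num) (by norm_num)
  rw [if_pos rfl, hnorm] at this
  simpa using this

/-- translations of the three pentagons -/
noncomputable def tt (a b c : ℂ) : ℕ → ℂ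
  | 2 => a
  | 3 => b
  | 4 => c
  | _ => 0

/-- rotation deviations of the three pentagons -/
def xx (x y z : ℝ) : ℕ → ℝ
  | 2 => x
  | 3 => y
  | 4 => z
  | _ => 0

theorem slot_mem {K : Set ℂ} {n : ℕ} {t : ℂ} {θ x : ℝ} {p : ℤ}
    (hx : Complex.exp (θ * Complex.I) = Complex.exp (x * Complex.I) * w0 p)
    (m : ∀ z ∈ bodySet n, t + Complex.exp (θ * Complex.I) * z ∈ K) {i : ℕ} (hi : i < 13 * n) :
    t + Complex.exp (x * Complex.I) * (w0 p * bodyPt n i) ∈ K := by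
  have h := m (bodyPt n i) ⟨i, hi, rfl⟩
  rw [hx, mul_assoc] at h
  exact h

theorem slot_mem0 {K : Set ℂ} {n : ℕ} (m : bodySet n ⊆ K) {i : ℕ}
    (hi : i < 13 * n) :
    (0 : ℂ) + Complex.exp (((0 : ℝ) : ℂ) * Complex.I) * (w0 0 * bodyPt n i) ∈ K := by
  have h := m (⟨i, hi, rfl⟩ : bodyPt n i ∈ bodySet n)
  rw [w0_zero]
  simpa using h

theorem box2 {K : Set ℂ} (hK : Good K) (hA : (volume K).toReal < 85 / 100) {t : ℂ}
    {θ : ℝ} (hθ : |θ| < Real.pi) {p : ℤ} {c : List Cert}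
    (hc : octOK 850000 [D0, ⟨3, 0, 0, 0⟩, ⟨5, 10351436, p, 176⟩] 2 5125659 7395453 dirs c = true)
    (hp : |Real.tan (θ / 2) * 10 ^ 4 - p| ≤ 176)
    (ht : ‖t‖ ≤ 10351436 / 10 ^ 8) (m3 : bodySet 3 ⊆ K)
    (m5 : ∀ z ∈ bodySet 5, t + Complex.exp (θ * Complex.I) * z ∈ K) :
    ‖t‖ ≤ 5605753 / 10 ^ 8 := by
  obtain ⟨x, hx, hxe⟩ := angle_box hθ hp
  have hcfg : Cfg [D0, ⟨3, 0, 0, 0⟩, ⟨5, 10351436, p, 176⟩] (tt t 0 0) (xx x 0 0) := by
    constructor
    · intro s hs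
      have hs' : s < 3 := hs
      interval_cases s
      · simp [slotOf, D0, tt]
      · simp [slotOf, tt]
      · simpa [slotOf, tt] using ht
    · intro s hs
      have hs' : s < 3 := hs
      interval_cases s
      · simp [slotOf, D0, xx]
      · simp [slotOf, xx]
      · simpa [slotOf, xx] using hx
  have hmm : Mem [D0, ⟨3, 0, 0, 0⟩, ⟨5, 10351436, p, 176⟩] (tt t 0 0) (xx x 0 0) K := by
    refine mem_of hK hcfg rfl (by simp) ?_
    intro s hs h1
    have hs' : s < 3 := hs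
    interval_cases s
    · intro i hi
      have hi' : i < 13 * 3 := hi
      exact slot_mem0 m3 hi'
    · intro i hi
      have hi' : i < 13 * 5 := hi
      exact slot_mem hxe m5 hi'
  have h := oct_sound hc rfl (by simp) hK hcfg hmm (by norm_num; linarith) (r := 5605753)
    (by norm_num) (by norm_num) (by norm_num) (by norm_num)
  simpa [tt] using h

theorem lvl2_three {K : Set ℂ} (hK : Good K) (hA : (volume K).toReal < 85 / 100) {t : ℂ}
    {θ : ℝ} (h0 : 0 ≤ θ) (h1 : θ ≤ Real.pi / 15)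
    (ht : ‖t‖ ≤ 10351436 / 10 ^ 8) (m3 : bodySet 3 ⊆ K)
    (m5 : ∀ z ∈ bodySet 5, t + Complex.exp (θ * Complex.I) * z ∈ K) :
    ‖t‖ ≤ 5605753 / 10 ^ 8 := by
  have hpi := Real.pi_pos
  have hθ : |θ| < Real.pi := by
    rw [abs_of_nonneg h0]
    linarith
  obtain ⟨a0, a1⟩ := tan_bound5 h0 h1
  set τ : ℝ := Real.tan (θ / 2) * 10 ^ 4 with hτ
  rcases le_total τ 351 with c | c
  · refine box2 hK hA hθ cL2_0 ?_ ht m3 m5
    rw [← hτ, abs_le]
    push_cast
    constructor <;> linarith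
  · rcases le_total τ 702 with d | d
    · refine box2 hK hA hθ cL2_1 ?_ ht m3 m5
      rw [← hτ, abs_le]
      push_cast
      constructor <;> linarith
    · refine box2 hK hA hθ cL2_2 ?_ ht m3 m5
      rw [← hτ, abs_le]
      push_cast
      constructor <;> linarith

theorem tan_add_aux {x y : ℝ} (hx : Real.cos x ≠ 0) (hy : Real.cos y ≠ 0) :
    Real.tan (x + y) = (Real.tan x + Real.tan y) / (1 - Real.tan x * Real.tan y) := by
  rw [Real.tan_eq_sin_div_cos, Real.tan_eq_sin_div_cos, Real.tan_eq_sin_div_cos, Real.sin_add,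
    Real.cos_add]
  have h1 : Real.sin x / Real.cos x + Real.sin y / Real.cos y
      = (Real.sin x * Real.cos y + Real.cos x * Real.sin y) / (Real.cos x * Real.cos y) := by
    field_simp
  have h2 : 1 - Real.sin x / Real.cos x * (Real.sin y / Real.cos y)
      = (Real.cos x * Real.cos y - Real.sin x * Real.sin y) / (Real.cos x * Real.cos y) := by
    field_simp
  rw [h1, h2, div_div_div_cancel_right₀ (mul_ne_zero hx hy)]

theorem tan15 : 2124 / 10000 ≤ Real.tan (Real.pi / 15) ∧ Real.tan (Real.pi / 15) ≤ 2127 / 10000 := by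
  have p1 := Real.pi_gt_d6
  have p2 := Real.pi_lt_d6
  set x := Real.pi / 15 with hx
  have x1 : 0.209439 ≤ x := by rw [hx]; linarith
  have x2 : x ≤ 0.2094396 := by rw [hx]; linarith
  have hs := Real.sin_bound (x := x) (by rw [abs_of_nonneg (by linarith)]; linarith)
  have hc := Real.cos_bound (x := x) (by rw [abs_of_nonneg (by linarith)]; linarith)
  rw [abs_of_nonneg (by linarith : (0 : ℝ) ≤ x), abs_le] at hs hc
  have hx3l : 0.209439 ^ 3 ≤ x ^ 3 := by gcongr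
  have hx3u : x ^ 3 ≤ 0.2094396 ^ 3 := by gcongr
  have hx2l : 0.209439 ^ 2 ≤ x ^ 2 := by gcongr
  have hx2u : x ^ 2 ≤ 0.2094396 ^ 2 := by gcongr
  have hx4u : x ^ 4 ≤ 0.2094396 ^ 4 := by gcongr
  have hx5u : x ^ 5 ≤ 0.2094396 ^ 5 := by gcongr
  norm_num at hx3l hx3u hx2l hx2u hx4u hx5u
  have s1 : 0.2078 ≤ Real.sin x := by linarith
  have s2 : Real.sin x ≤ 0.20801 := by linarith
  have c1 : 0.97796 ≤ Real.cos x := by linarith
  have c2 : Real.cos x ≤ 0.97817 := by linarith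
  have hc0 : 0 < Real.cos x := by linarith
  rw [Real.tan_eq_sin_div_cos]
  constructor
  · rw [le_div_iff₀ hc0]
    linarith
  · rw [div_le_iff₀ hc0]
    linarith

theorem om_norm : ‖om‖ = 1 := Complex.norm_exp_ofReal_mul_I _

theorem copy5 {K : Set ℂ} (hi : Inv 3 K) {t : ℂ} {θ φ : ℝ} (j k : ℕ)
    (h : Complex.exp (φ * Complex.I) = om ^ j * Complex.exp (θ * Complex.I) * bodies_E 5 k)
    (m5 : ∀ z ∈ bodySet 5, t + Complex.exp (θ * Complex.I) * z ∈ K) :
    ∀ z ∈ bodySet 5, om ^ j * t + Complex.exp (φ * Complex.I) * z ∈ K := by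
  intro z hz
  have h1 := m5 _ (bodySet_rot (n := 5) (by norm_num) k hz)
  have h2 := hi (om ^ j) (by rw [← pow_mul, mul_comm, pow_mul, om_cube, one_pow]) _ h1
  have h3 : om ^ j * (t + Complex.exp (θ * Complex.I) *
      (Complex.exp (2 * Real.pi * Complex.I * (k : ℂ) / ((5 : ℕ) : ℂ)) * z))
      = om ^ j * t + Complex.exp (φ * Complex.I) * z := by
    rw [h]
    unfold bodies_E
    ring
  rw [h3] at h2
  exact h2

theorem phase_a (θ : ℝ) : Complex.exp (((θ + 2 * Real.pi / 15 : ℝ) : ℂ) * Complex.I)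
    = om ^ 2 * Complex.exp (θ * Complex.I) * bodies_E 5 2 := by
  unfold om bodies_E
  rw [← Complex.exp_nat_mul, ← Complex.exp_add, ← Complex.exp_add,
    Complex.exp_eq_exp_iff_exists_int]
  refine ⟨-1, ?_⟩
  push_cast
  ring

theorem phase_b (θ : ℝ) : Complex.exp (((θ - 2 * Real.pi / 15 : ℝ) : ℂ) * Complex.I)
    = om ^ 1 * Complex.exp (θ * Complex.I) * bodies_E 5 3 := by
  unfold om bodies_E
  rw [← Complex.exp_nat_mul, ← Complex.exp_add, ← Complex.exp_add,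
    Complex.exp_eq_exp_iff_exists_int]
  refine ⟨-1, ?_⟩
  push_cast
  ring

/-- the final boxes -/
theorem box3 {K : Set ℂ} (hK : Good K) (hA : (volume K).toReal < 85 / 100) (hi : Inv 3 K) {t : ℂ}
    {θ : ℝ} (h0 : 0 ≤ θ) (h1 : θ ≤ Real.pi / 15) {a b p0 e0 p1 e1 p2 e2 : ℤ}
    {c : List (ℤ × List ℕ)}
    (hc : leafOK 850000 [D0, ⟨3, 0, 0, 0⟩, ⟨5, 5605753, p0, e0⟩, ⟨5, 5605753, p1, e1⟩,
      ⟨5, 5605753, p2, e2⟩] noCon c = true)
    (ha : (a : ℝ) ≤ Real.tan (θ / 2) * 10 ^ 4) (hb : Real.tan (θ / 2) * 10 ^ 4 ≤ b)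
    (ha0 : 0 ≤ a) (hb0 : b ≤ 2000)
    (q1 : p0 - e0 ≤ a) (q2 : b ≤ p0 + e0)
    (q3 : (p1 - e1) * (10 ^ 8 - 2124 * a) ≤ 10 ^ 8 * (a + 2124))
    (q4 : 10 ^ 8 * (b + 2127) ≤ (p1 + e1) * (10 ^ 8 - 2127 * b))
    (q5 : (p2 - e2) * (10 ^ 8 + 2127 * a) ≤ 10 ^ 8 * (a - 2127))
    (q6 : 10 ^ 8 * (b - 2124) ≤ (p2 + e2) * (10 ^ 8 + 2124 * b))
    (hp1 : 0 ≤ p1 - e1) (hp1' : 0 ≤ p1 + e1) (hp2 : p2 + e2 ≤ 0) (hp3 : p2 - e2 ≤ 0)
    (hp4 : -10000 ≤ p2 - e2) (hp5 : -10000 ≤ p2 + e2)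
    (ht : ‖t‖ ≤ 5605753 / 10 ^ 8) (m3 : bodySet 3 ⊆ K)
    (m5 : ∀ z ∈ bodySet 5, t + Complex.exp (θ * Complex.I) * z ∈ K) : False := by
  have hpi := Real.pi_pos
  have hθ : |θ| < Real.pi := by
    rw [abs_of_nonneg h0]
    linarith
  have hφ : |θ + 2 * Real.pi / 15| < Real.pi := by
    rw [abs_of_nonneg (by linarith)]
    linarith
  have hψ : |θ - 2 * Real.pi / 15| < Real.pi := by
    rw [abs_lt]
    constructor <;> linarith
  obtain ⟨T1, T2⟩ := tan15
  have cx : Real.cos (θ / 2) ≠ 0 :=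
    (Real.cos_pos_of_mem_Ioo ⟨by linarith, by linarith⟩).ne'
  have cy : Real.cos (Real.pi / 15) ≠ 0 :=
    (Real.cos_pos_of_mem_Ioo ⟨by linarith, by linarith⟩).ne'
  have cy' : Real.cos (-(Real.pi / 15)) ≠ 0 := by rwa [Real.cos_neg]
  have eφ : Real.tan ((θ + 2 * Real.pi / 15) / 2) = (Real.tan (θ / 2) + Real.tan (Real.pi / 15)) /
      (1 - Real.tan (θ / 2) * Real.tan (Real.pi / 15)) := by
    rw [← tan_add_aux cx cy]
    congr 1
    ring
  have eψ : Real.tan ((θ - 2 * Real.pi / 15) / 2) = (Real.tan (θ / 2) - Real.tan (Real.pi / 15)) /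
      (1 + Real.tan (θ / 2) * Real.tan (Real.pi / 15)) := by
    have h := tan_add_aux cx cy'
    rw [Real.tan_neg, mul_neg, sub_neg_eq_add] at h
    rw [sub_eq_add_neg (Real.tan (θ / 2)) (Real.tan (Real.pi / 15)), ← h]
    congr 1
    ring
  set s := Real.tan (θ / 2) with hs
  set T := Real.tan (Real.pi / 15) with hT
  have rq3 : ((p1 - e1 : ℤ) : ℝ) * (10 ^ 8 - 2124 * a) ≤ 10 ^ 8 * (a + 2124) := by exact_mod_cast q3
  have rq4 : 10 ^ 8 * ((b : ℝ) + 2127) ≤ ((p1 + e1 : ℤ) : ℝ) * (10 ^ 8 - 2127 * b) := by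
    exact_mod_cast q4
  have rq5 : ((p2 - e2 : ℤ) : ℝ) * (10 ^ 8 + 2127 * a) ≤ 10 ^ 8 * (a - 2127) := by exact_mod_cast q5
  have rq6 : 10 ^ 8 * ((b : ℝ) - 2124) ≤ ((p2 + e2 : ℤ) : ℝ) * (10 ^ 8 + 2124 * b) := by
    exact_mod_cast q6
  have rp1 : (0 : ℝ) ≤ ((p1 - e1 : ℤ) : ℝ) := by exact_mod_cast hp1
  have rp1' : (0 : ℝ) ≤ ((p1 + e1 : ℤ) : ℝ) := by exact_mod_cast hp1'
  have rp2 : ((p2 + e2 : ℤ) : ℝ) ≤ 0 := by exact_mod_cast hp2
  have rp3 : ((p2 - e2 : ℤ) : ℝ) ≤ 0 := by exact_mod_cast hp3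
  have rp4 : (-10000 : ℝ) ≤ ((p2 - e2 : ℤ) : ℝ) := by exact_mod_cast hp4
  have rp5 : (-10000 : ℝ) ≤ ((p2 + e2 : ℤ) : ℝ) := by exact_mod_cast hp5
  have ra0 : (0 : ℝ) ≤ a := by exact_mod_cast ha0
  have rb0 : (b : ℝ) ≤ 2000 := by exact_mod_cast hb0
  have s0 : 0 ≤ s := by linarith
  have s1 : s ≤ 2 / 10 := by linarith
  have T0 : 0 ≤ T := by linarith
  have sT : 0 ≤ s * T := mul_nonneg s0 T0
  have sT1 : s * T ≤ 1 / 10 := by nlinarith
  have d1 : 0 < 1 - s * T := by linarith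
  have d2 : 0 < 1 + s * T := by linarith
  have lo1 : (a : ℝ) / 10 ^ 4 * (2124 / 10000) ≤ s * T := by
    apply mul_le_mul _ T1 (by norm_num) s0
    rw [div_le_iff₀ (by norm_num)]
    exact ha
  have hi1 : s * T ≤ (b : ℝ) / 10 ^ 4 * (2127 / 10000) := by
    apply mul_le_mul _ T2 T0 (by linarith)
    rw [le_div_iff₀ (by norm_num)]
    exact hb
  -- box for slot 2
  have k0 : |s * 10 ^ 4 - p0| ≤ (e0 : ℝ) := by
    have r1 : ((p0 - e0 : ℤ) : ℝ) ≤ a := by exact_mod_cast q1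
    have r2 : (b : ℝ) ≤ ((p0 + e0 : ℤ) : ℝ) := by exact_mod_cast q2
    push_cast at r1 r2
    rw [abs_le]
    constructor <;> linarith
  have k1 : |Real.tan ((θ + 2 * Real.pi / 15) / 2) * 10 ^ 4 - p1| ≤ (e1 : ℝ) := by
    rw [eφ, abs_le]
    have u1 : ((p1 - e1 : ℤ) : ℝ) / 10 ^ 4 ≤ (s + T) / (1 - s * T) := by
      rw [le_div_iff₀ d1]
      have : ((p1 - e1 : ℤ) : ℝ) * (1 - s * T) ≤
          ((p1 - e1 : ℤ) : ℝ) * (1 - (a : ℝ) / 10 ^ 4 * (2124 / 10000)) := by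
        apply mul_le_mul_of_nonneg_left _ rp1
        linarith
      linarith
    have u2 : (s + T) / (1 - s * T) ≤ ((p1 + e1 : ℤ) : ℝ) / 10 ^ 4 := by
      rw [div_le_iff₀ d1]
      have : ((p1 + e1 : ℤ) : ℝ) * (1 - (b : ℝ) / 10 ^ 4 * (2127 / 10000)) ≤
          ((p1 + e1 : ℤ) : ℝ) * (1 - s * T) := by
        apply mul_le_mul_of_nonneg_left _ rp1'
        linarith
      linarith
    push_cast at u1 u2
    constructor <;> linarith
  have k2 : |Real.tan ((θ - 2 * Real.pi / 15) / 2) * 10 ^ 4 - p2| ≤ (e2 : ℝ) := by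
    rw [eψ, abs_le]
    have u1 : ((p2 - e2 : ℤ) : ℝ) / 10 ^ 4 ≤ (s - T) / (1 + s * T) := by
      rw [le_div_iff₀ d2]
      set L : ℝ := ((p2 - e2 : ℤ) : ℝ) with hL
      have g1 : 0 ≤ (s - a / 10 ^ 4) * (10 ^ 4 - L * T) := by
        apply mul_nonneg (by linarith)
        nlinarith
      have g2 : 0 ≤ (2127 / 10000 - T) * (10 ^ 4 + L * (a / 10 ^ 4)) := by
        apply mul_nonneg (by linarith)
        have : (a : ℝ) ≤ 2000 := by linarith
        nlinarith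
      linarith
    have u2 : (s - T) / (1 + s * T) ≤ ((p2 + e2 : ℤ) : ℝ) / 10 ^ 4 := by
      rw [div_le_iff₀ d2]
      set U : ℝ := ((p2 + e2 : ℤ) : ℝ) with hU
      have g1 : 0 ≤ (b / 10 ^ 4 - s) * (10 ^ 4 - U * T) := by
        apply mul_nonneg (by linarith)
        nlinarith
      have g2 : 0 ≤ (T - 2124 / 10000) * (10 ^ 4 + U * (b / 10 ^ 4)) := by
        apply mul_nonneg (by linarith)
        have : (0 : ℝ) ≤ b := by linarith
        nlinarith
      linarith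
    push_cast at u1 u2
    constructor <;> linarith
  obtain ⟨x, hx, hxe⟩ := angle_box hθ k0
  obtain ⟨y, hy, hye⟩ := angle_box hφ k1
  obtain ⟨z, hz, hze⟩ := angle_box hψ k2
  have n1 : ‖om ^ 2 * t‖ ≤ 5605753 / 10 ^ 8 := by
    rw [norm_mul, norm_pow, om_norm, one_pow, one_mul]
    exact ht
  have n2 : ‖om ^ 1 * t‖ ≤ 5605753 / 10 ^ 8 := by
    rw [norm_mul, norm_pow, om_norm, one_pow, one_mul]
    exact ht
  have hcfg : Cfg [D0, ⟨3, 0, 0, 0⟩, ⟨5, 5605753, p0, e0⟩, ⟨5, 5605753, p1, e1⟩,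
      ⟨5, 5605753, p2, e2⟩] (tt t (om ^ 2 * t) (om ^ 1 * t)) (xx x y z) := by
    constructor
    · intro s hs
      have hs' : s < 5 := hs
      interval_cases s
      · simp [slotOf, D0, tt]
      · simp [slotOf, tt]
      · simpa [slotOf, tt] using ht
      · simpa [slotOf, tt] using n1
      · simpa [slotOf, tt] using n2
    · intro s hs
      have hs' : s < 5 := hs
      interval_cases s
      · simp [slotOf, D0, xx]
      · simp [slotOf, xx]
      · simpa [slotOf, xx] using hx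
      · simpa [slotOf, xx] using hy
      · simpa [slotOf, xx] using hz
  have hmm : Mem [D0, ⟨3, 0, 0, 0⟩, ⟨5, 5605753, p0, e0⟩, ⟨5, 5605753, p1, e1⟩,
      ⟨5, 5605753, p2, e2⟩] (tt t (om ^ 2 * t) (om ^ 1 * t)) (xx x y z) K := by
    refine mem_of hK hcfg rfl (by simp) ?_
    intro s hs h1
    have hs' : s < 5 := hs
    interval_cases s
    · intro i hi2
      have hi' : i < 13 * 3 := hi2
      exact slot_mem0 m3 hi'
    · intro i hi2
      have hi' : i < 13 * 5 := hi2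
      exact slot_mem hxe m5 hi'
    · intro i hi2
      have hi' : i < 13 * 5 := hi2
      exact slot_mem hye (copy5 hi 2 2 (phase_a θ) m5) hi'
    · intro i hi2
      have hi' : i < 13 * 5 := hi2
      exact slot_mem hze (copy5 hi 1 3 (phase_b θ) m5) hi'
  have := leaf_sound hc rfl (by simp) hK hcfg hmm (Or.inl rfl)
  norm_num at this
  linarith

end PoolLebSym
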