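import Pool.Agent.LebSym.Three

/-! # Covers with a threefold symmetry: the bound -/

open MeasureTheory

namespace PoolLebSym

open PoolLeb

theorem three_nonneg {K : Set ℂ} (hK : Good K) (hi : Inv 3 K) {t : ℂ}
    {θ : ℝ} (h0 : 0 ≤ θ) (h1 : θ ≤ Real.pi / 15) (m3 : bodySet 3 ⊆ K)
    (m5 : ∀ z ∈ bodySet 5, t + Complex.exp (θ * Complex.I) * z ∈ K) :
    (85 : ℝ) / 100 ≤ (volume K).toReal := by
  by_contra hcon
  have hA := not_le.1 hcon
  have h07 : ∀ p ∈ K, ‖p‖ < 7 / 10 := fun p hp => l0_three hK hi hA hp
  have t1 := core85 hK h07 hA (Complex.norm_exp_ofReal_mul_I θ) m5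
  have t2 := lvl2_three hK hA h0 h1 t1 m3 m5
  obtain ⟨a0, a1⟩ := tan_bound5 h0 h1
  have f0 : (0 : ℝ) ≤ Real.tan (θ / 2) * 10 ^ 4 / 66 := by positivity
  have g1 := Nat.floor_le f0
  have g2 := Nat.lt_floor_add_one (Real.tan (θ / 2) * 10 ^ 4 / 66)
  rw [le_div_iff₀ (by norm_num)] at g1
  rw [div_lt_iff₀ (by norm_num)] at g2
  have g3 : ⌊Real.tan (θ / 2) * 10 ^ 4 / 66⌋₊ < 16 := by
    rw [Nat.floor_lt f0]
    push_cast
    rw [div_lt_iff₀ (by norm_num)]
    linarith
  generalize ⌊Real.tan (θ / 2) * 10 ^ 4 / 66⌋₊ = k at g1 g2 g3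
  interval_cases k
  · exact box3 (a := 0) (b := 66) hK hA hi h0 h1 cF_0 (by push_cast at g1 g2 ⊢; linarith)
      (by push_cast at g1 g2 ⊢; linarith) (by norm_num) (by norm_num) (by norm_num) (by norm_num)
      (by norm_num) (by norm_num) (by norm_num) (by norm_num) (by norm_num) (by norm_num)
      (by norm_num) (by norm_num) (by norm_num) (by norm_num) t2 m3 m5
  · exact box3 (a := 66) (b := 132) hK hA hi h0 h1 cF_1 (by push_cast at g1 g2 ⊢; linarith)
      (by push_cast at g1 g2 ⊢; linarith) (by norm_num) (by norm_num) (by norm_num) (by norm_num)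
      (by norm_num) (by norm_num) (by norm_num) (by norm_num) (by norm_num) (by norm_num)
      (by norm_num) (by norm_num) (by norm_num) (by norm_num) t2 m3 m5
  · exact box3 (a := 132) (b := 198) hK hA hi h0 h1 cF_2 (by push_cast at g1 g2 ⊢; linarith)
      (by push_cast at g1 g2 ⊢; linarith) (by norm_num) (by norm_num) (by norm_num) (by norm_num)
      (by norm_num) (by norm_num) (by norm_num) (by norm_num) (by norm_num) (by norm_num)
      (by norm_num) (by norm_num) (by norm_num) (by norm_num) t2 m3 m5
  · exact box3 (a := 198) (b := 264) hK hA hi h0 h1 cF_3 (by push_cast at g1 g2 ⊢; linarith)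
      (by push_cast at g1 g2 ⊢; linarith) (by norm_num) (by norm_num) (by norm_num) (by norm_num)
      (by norm_num) (by norm_num) (by norm_num) (by norm_num) (by norm_num) (by norm_num)
      (by norm_num) (by norm_num) (by norm_num) (by norm_num) t2 m3 m5
  · exact box3 (a := 264) (b := 330) hK hA hi h0 h1 cF_4 (by push_cast at g1 g2 ⊢; linarith)
      (by push_cast at g1 g2 ⊢; linarith) (by norm_num) (by norm_num) (by norm_num) (by norm_num)
      (by norm_num) (by norm_num) (by norm_num) (by norm_num) (by norm_num) (by norm_num)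
      (by norm_num) (by norm_num) (by norm_num) (by norm_num) t2 m3 m5
  · exact box3 (a := 330) (b := 396) hK hA hi h0 h1 cF_5 (by push_cast at g1 g2 ⊢; linarith)
      (by push_cast at g1 g2 ⊢; linarith) (by norm_num) (by norm_num) (by norm_num) (by norm_num)
      (by norm_num) (by norm_num) (by norm_num) (by norm_num) (by norm_num) (by norm_num)
      (by norm_num) (by norm_num) (by norm_num) (by norm_num) t2 m3 m5
  · exact box3 (a := 396) (b := 462) hK hA hi h0 h1 cF_6 (by push_cast at g1 g2 ⊢; linarith)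
      (by push_cast at g1 g2 ⊢; linarith) (by norm_num) (by norm_num) (by norm_num) (by norm_num)
      (by norm_num) (by norm_num) (by norm_num) (by norm_num) (by norm_num) (by norm_num)
      (by norm_num) (by norm_num) (by norm_num) (by norm_num) t2 m3 m5
  · exact box3 (a := 462) (b := 528) hK hA hi h0 h1 cF_7 (by push_cast at g1 g2 ⊢; linarith)
      (by push_cast at g1 g2 ⊢; linarith) (by norm_num) (by norm_num) (by norm_num) (by norm_num)
      (by norm_num) (by norm_num) (by norm_num) (by norm_num) (by norm_num) (by norm_num)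
      (by norm_num) (by norm_num) (by norm_num) (by norm_num) t2 m3 m5
  · exact box3 (a := 528) (b := 594) hK hA hi h0 h1 cF_8 (by push_cast at g1 g2 ⊢; linarith)
      (by push_cast at g1 g2 ⊢; linarith) (by norm_num) (by norm_num) (by norm_num) (by norm_num)
      (by norm_num) (by norm_num) (by norm_num) (by norm_num) (by norm_num) (by norm_num)
      (by norm_num) (by norm_num) (by norm_num) (by norm_num) t2 m3 m5
  · exact box3 (a := 594) (b := 660) hK hA hi h0 h1 cF_9 (by push_cast at g1 g2 ⊢; linarith)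
      (by push_cast at g1 g2 ⊢; linarith) (by norm_num) (by norm_num) (by norm_num) (by norm_num)
      (by norm_num) (by norm_num) (by norm_num) (by norm_num) (by norm_num) (by norm_num)
      (by norm_num) (by norm_num) (by norm_num) (by norm_num) t2 m3 m5
  · exact box3 (a := 660) (b := 726) hK hA hi h0 h1 cF_10 (by push_cast at g1 g2 ⊢; linarith)
      (by push_cast at g1 g2 ⊢; linarith) (by norm_num) (by norm_num) (by norm_num) (by norm_num)
      (by norm_num) (by norm_num) (by norm_num) (by norm_num) (by norm_num) (by norm_num)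
      (by norm_num) (by norm_num) (by norm_num) (by norm_num) t2 m3 m5
  · exact box3 (a := 726) (b := 792) hK hA hi h0 h1 cF_11 (by push_cast at g1 g2 ⊢; linarith)
      (by push_cast at g1 g2 ⊢; linarith) (by norm_num) (by norm_num) (by norm_num) (by norm_num)
      (by norm_num) (by norm_num) (by norm_num) (by norm_num) (by norm_num) (by norm_num)
      (by norm_num) (by norm_num) (by norm_num) (by norm_num) t2 m3 m5
  · exact box3 (a := 792) (b := 858) hK hA hi h0 h1 cF_12 (by push_cast at g1 g2 ⊢; linarith)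
      (by push_cast at g1 g2 ⊢; linarith) (by norm_num) (by norm_num) (by norm_num) (by norm_num)
      (by norm_num) (by norm_num) (by norm_num) (by norm_num) (by norm_num) (by norm_num)
      (by norm_num) (by norm_num) (by norm_num) (by norm_num) t2 m3 m5
  · exact box3 (a := 858) (b := 924) hK hA hi h0 h1 cF_13 (by push_cast at g1 g2 ⊢; linarith)
      (by push_cast at g1 g2 ⊢; linarith) (by norm_num) (by norm_num) (by norm_num) (by norm_num)
      (by norm_num) (by norm_num) (by norm_num) (by norm_num) (by norm_num) (by norm_num)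
      (by norm_num) (by norm_num) (by norm_num) (by norm_num) t2 m3 m5
  · exact box3 (a := 924) (b := 990) hK hA hi h0 h1 cF_14 (by push_cast at g1 g2 ⊢; linarith)
      (by push_cast at g1 g2 ⊢; linarith) (by norm_num) (by norm_num) (by norm_num) (by norm_num)
      (by norm_num) (by norm_num) (by norm_num) (by norm_num) (by norm_num) (by norm_num)
      (by norm_num) (by norm_num) (by norm_num) (by norm_num) t2 m3 m5
  · exact box3 (a := 990) (b := 1056) hK hA hi h0 h1 cF_15 (by push_cast at g1 g2 ⊢; linarith)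
      (by push_cast at g1 g2 ⊢; linarith) (by norm_num) (by norm_num) (by norm_num) (by norm_num)
      (by norm_num) (by norm_num) (by norm_num) (by norm_num) (by norm_num) (by norm_num)
      (by norm_num) (by norm_num) (by norm_num) (by norm_num) t2 m3 m5

theorem three_abs {K : Set ℂ} (hK : Good K) (hi : Inv 3 K) {t : ℂ}
    {θ : ℝ} (h1 : |θ| ≤ Real.pi / 15) (m3 : bodySet 3 ⊆ K)
    (m5 : ∀ z ∈ bodySet 5, t + Complex.exp (θ * Complex.I) * z ∈ K) :
    (85 : ℝ) / 100 ≤ (volume K).toReal := by
  rcases le_or_gt 0 θ with h0 | h0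
  · exact three_nonneg hK hi h0 ((le_abs_self θ).trans h1) m3 m5
  · obtain ⟨hK', hv'⟩ := cover_lie hK Complex.conjLIE
    rw [← hv']
    have hi' : Inv 3 (Complex.conjLIE ⁻¹' K) := by
      intro ξ hξ z hz
      rw [Set.mem_preimage, Complex.conjLIE_apply] at hz ⊢
      rw [map_mul]
      apply hi _ _ _ hz
      rw [← map_pow, hξ, map_one]
    refine three_nonneg hK' hi' (t := (starRingEnd ℂ) t) (θ := -θ) (by linarith) ?_ ?_ ?_
    · have := (abs_le.1 h1).1
      linarith
    · intro z hz
      rw [Set.mem_preimage, Complex.conjLIE_apply]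
      exact m3 (bodySet_conj (by norm_num) hz)
    · intro z hz
      have h3 := m5 _ (bodySet_conj (by norm_num) hz)
      rw [Set.mem_preimage, Complex.conjLIE_apply, map_add, Complex.conj_conj, map_mul]
      have hce : (starRingEnd ℂ) (Complex.exp (((-θ : ℝ) : ℂ) * Complex.I))
          = Complex.exp (θ * Complex.I) := by
        rw [← Complex.exp_conj, map_mul, Complex.conj_I, Complex.conj_ofReal]
        congr 1
        push_cast
        ring
      rw [hce]
      exact h3

/-- any orientation of the pentagon -/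
theorem three_bound {K : Set ℂ} (hK : Good K) (hi : Inv 3 K) (m3 : bodySet 3 ⊆ K) {t v : ℂ}
    (hv : ‖v‖ = 1) (m5 : ∀ z ∈ bodySet 5, t + v * z ∈ K) :
    (85 : ℝ) / 100 ≤ (volume K).toReal := by
  obtain ⟨k, -, θ, hθ, hk⟩ := exists_turn (n := 15) (by norm_num) hv
  -- `v ζ15^k = exp(iθ)`, `ζ15^k = ζ3^(2k) ζ5^(-3k)`
  have hθ' : |θ| ≤ Real.pi / 15 := by exact_mod_cast hθ
  have hE : bodies_E 3 (2 * k) * v = Complex.exp (θ * Complex.I) * bodies_E 5 (3 * k) := by
    rw [← hk]
    have h1 : bodies_E 3 (2 * k) = Complex.exp (2 * Real.pi * Complex.I * (k : ℂ) / (15 : ℕ))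
        * bodies_E 5 (3 * k) := by
      unfold bodies_E
      rw [← Complex.exp_add]
      congr 1
      push_cast
      ring
    rw [h1]
    ring
  refine three_abs hK hi hθ' m3 (t := bodies_E 3 (2 * k) * t) ?_
  intro z hz
  have h2 := m5 _ (bodySet_rot (n := 5) (by norm_num) (2 * k) hz)
  have h3 := hi (bodies_E 3 (2 * k)) (E_pow (by norm_num) _) _ h2
  have h4 : bodies_E 5 (3 * k) * bodies_E 5 (2 * k) = 1 := by
    rw [bodies_add]
    have : 3 * k + 2 * k = 5 * k := by ring
    rw [this, bodies_self (by norm_num)]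
  have h5 : bodies_E 3 (2 * k) * (t + v * (bodies_E 5 (2 * k) * z))
      = bodies_E 3 (2 * k) * t + Complex.exp (θ * Complex.I) * z := by
    calc bodies_E 3 (2 * k) * (t + v * (bodies_E 5 (2 * k) * z))
        = bodies_E 3 (2 * k) * t + (bodies_E 3 (2 * k) * v) * (bodies_E 5 (2 * k) * z) := by ring
      _ = bodies_E 3 (2 * k) * t + Complex.exp (θ * Complex.I) *
          ((bodies_E 5 (3 * k) * bodies_E 5 (2 * k)) * z) := by rw [hE]; ring
      _ = _ := by rw [h4, one_mul]
  rw [← h5]
  exact h3

end PoolLebSym
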