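import Pool.Agent.LebSym.Central

/-! # Uniqueness of Pal's hexagon among centrally symmetric covers -/

open MeasureTheory

namespace PoolLebSym

open PoolLeb

theorem norm_lb (z : ℂ) {p q : ℝ} (h : p ^ 2 + q ^ 2 = 1) : p * z.re + q * z.im ≤ ‖z‖ := by
  have h1 : (p * z.re + q * z.im) ^ 2 ≤ ‖z‖ ^ 2 := by
    rw [← Complex.normSq_eq_norm_sq, Complex.normSq_apply]
    nlinarith [sq_nonneg (p * z.im - q * z.re)]
  exact le_of_sq_le_sq h1 (norm_nonneg z)

theorem norm_eq_lb (z : ℂ) {p q : ℝ} (h : p ^ 2 + q ^ 2 = 1) (he : ‖z‖ ≤ p * z.re + q * z.im) :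
    p * z.im - q * z.re = 0 := by
  have h1 : ‖z‖ ^ 2 ≤ (p * z.re + q * z.im) ^ 2 := by
    have := norm_nonneg z
    gcongr
  rw [← Complex.normSq_eq_norm_sq, Complex.normSq_apply] at h1
  have h2 : (p * z.im - q * z.re) ^ 2 ≤ 0 := by nlinarith
  nlinarith [sq_nonneg (p * z.im - q * z.re)]

/-- the centred triangle -/
noncomputable def t0 : ℂ := ⟨√3 / 3, 0⟩
noncomputable def t1 : ℂ := ⟨-(√3 / 6), 1 / 2⟩
noncomputable def t2 : ℂ := ⟨-(√3 / 6), -(1 / 2)⟩

theorem s_zero {s : ℂ} (h : ‖2 * s - t0‖ + ‖2 * s - t1‖ + ‖2 * s - t2‖ ≤ √3) : s = 0 := by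
  have h3 : 0 < √3 := by positivity
  have e3 : √3 * √3 = 3 := Real.mul_self_sqrt (by norm_num)
  have q1 : (-(1 / 2) : ℝ) ^ 2 + (√3 / 2) ^ 2 = 1 := by nlinarith
  have q2 : (-(1 / 2) : ℝ) ^ 2 + (-(√3 / 2)) ^ 2 = 1 := by nlinarith
  have q0 : (1 : ℝ) ^ 2 + 0 ^ 2 = 1 := by norm_num
  rw [norm_sub_rev (2 * s) t0, norm_sub_rev (2 * s) t1, norm_sub_rev (2 * s) t2] at h
  have b0 := norm_lb (t0 - 2 * s) q0
  have b1 := norm_lb (t1 - 2 * s) q1
  have b2 := norm_lb (t2 - 2 * s) q2
  have r0 : (t0 - 2 * s).re = √3 / 3 - 2 * s.re := by simp [t0]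
  have i0 : (t0 - 2 * s).im = - (2 * s.im) := by simp [t0]
  have r1 : (t1 - 2 * s).re = -(√3 / 6) - 2 * s.re := by simp [t1]
  have i1 : (t1 - 2 * s).im = 1 / 2 - 2 * s.im := by simp [t1]
  have r2 : (t2 - 2 * s).re = -(√3 / 6) - 2 * s.re := by simp [t2]
  have i2 : (t2 - 2 * s).im = -(1 / 2) - 2 * s.im := by simp [t2]
  have c0 := norm_eq_lb (t0 - 2 * s) q0 (by
    rw [r0, i0]
    rw [r1, i1] at b1
    rw [r2, i2] at b2
    linarith)
  have c1 := norm_eq_lb (t1 - 2 * s) q1 (by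
    rw [r1, i1]
    rw [r0, i0] at b0
    rw [r2, i2] at b2
    linarith)
  rw [r0, i0] at c0
  rw [r1, i1] at c1
  have s1 : s.im = 0 := by linarith
  rw [s1] at c1
  have s2 : s.re = 0 := by
    have : √3 * s.re = 0 := by nlinarith
    rcases mul_eq_zero.1 this with h5 | h5
    · linarith
    · exact h5
  exact Complex.ext s2 s1

theorem tri_t {w t : ℂ} (hw : ‖w‖ = 1) : Tri (w * t0 + t) (w * t1 + t) (w * t2 + t) := by
  have h3 : 0 < √3 := by positivity
  have e3 : √3 * √3 = 3 := Real.mul_self_sqrt (by norm_num)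
  have n01 : ‖t1 - t0‖ = 1 := by
    have : ‖t1 - t0‖ ^ 2 = 1 := by
      rw [← Complex.normSq_eq_norm_sq, Complex.normSq_apply]
      simp [t0, t1]
      nlinarith
    exact (pow_eq_one_iff_of_nonneg (norm_nonneg _) two_ne_zero).1 this
  have n12 : ‖t2 - t1‖ = 1 := by
    have : ‖t2 - t1‖ ^ 2 = 1 := by
      rw [← Complex.normSq_eq_norm_sq, Complex.normSq_apply]
      simp [t2, t1]
      norm_num
    exact (pow_eq_one_iff_of_nonneg (norm_nonneg _) two_ne_zero).1 this
  have n20 : ‖t0 - t2‖ = 1 := by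
    have : ‖t0 - t2‖ ^ 2 = 1 := by
      rw [← Complex.normSq_eq_norm_sq, Complex.normSq_apply]
      simp [t0, t2]
      nlinarith
    exact (pow_eq_one_iff_of_nonneg (norm_nonneg _) two_ne_zero).1 this
  have hw2 : w.re ^ 2 + w.im ^ 2 = 1 := by
    have : ‖w‖ ^ 2 = 1 := by rw [hw]; norm_num
    rw [← Complex.normSq_eq_norm_sq, Complex.normSq_apply] at this
    nlinarith
  refine ⟨?_, ?_, ?_, ?_⟩
  · rw [add_sub_add_right_eq_sub, ← mul_sub, norm_mul, hw, one_mul, n01]
  · rw [add_sub_add_right_eq_sub, ← mul_sub, norm_mul, hw, one_mul, n12]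
  · rw [add_sub_add_right_eq_sub, ← mul_sub, norm_mul, hw, one_mul, n20]
  · have : cr (w * t0 + t) (w * t1 + t) + cr (w * t1 + t) (w * t2 + t)
        + cr (w * t2 + t) (w * t0 + t) = (w.re ^ 2 + w.im ^ 2) * (√3 / 2) := by
      unfold cr
      simp only [Complex.add_re, Complex.add_im, Complex.mul_re, Complex.mul_im, t0, t1, t2]
      ring
    rw [this, hw2, one_mul]

/-- the six tight cones -/
theorem six_tight {K : Set ℂ} (hK : Good K) (hs : ∀ z ∈ K, -z ∈ K) {a b c : ℂ}
    (h : Tri a b c) (ha : a ∈ K) (hb : b ∈ K) (hc : c ∈ K)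
    (hv : (volume K).toReal ≤ √3 / 2) :
    (0 < cr a (-c) ∧ Vc K a (-c) ≤ cr a (-c) / 2) ∧
    (0 < cr (-c) b ∧ Vc K (-c) b ≤ cr (-c) b / 2) ∧
    (0 < cr b (-a) ∧ Vc K b (-a) ≤ cr b (-a) / 2) := by
  rcases central_dichotomy hK hs h ha hb hc with h1 | ⟨h1, h2, h3⟩
  · exact absurd h1 (not_lt.2 hv)
  have h0 : (0 : ℂ) ∈ K := hK.disk (by simp)
  have hm := hK.closed.measurableSet
  have hf := hK.fin
  have ma := hs _ ha
  have mb := hs _ hb
  have mc := hs _ hc
  have p1 : 0 < cr a (-c) := by rw [cr_neg_right]; exact h3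
  have p2 : 0 < cr (-c) b := by rw [cr_neg_left]; exact h2
  have p3 : 0 < cr b (-a) := by rw [cr_neg_right]; exact h1
  have p4 : 0 < cr (-a) c := by rw [cr_neg_left]; exact h3
  have p5 : 0 < cr c (-b) := by rw [cr_neg_right]; exact h2
  have p6 : 0 < cr (-b) a := by rw [cr_neg_left]; exact h1
  have s1 := Vc_super hm hf p1 p2 h1
  have s2 := Vc_super hm hf p3 p4 h2
  have s3 := Vc_super hm hf p5 p6 h3
  have q1 := Vc_tri hK.conv hf h0 ha mc p1
  have q2 := Vc_tri hK.conv hf h0 mc hb p2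
  have q3 := Vc_tri hK.conv hf h0 hb ma p3
  have q4 := Vc_tri hK.conv hf h0 ma hc p4
  have q5 := Vc_tri hK.conv hf h0 hc mb p5
  have q6 := Vc_tri hK.conv hf h0 mb ha p6
  have t := three_cones hm hf a b c
  have har := h.area
  rw [cr_neg_right] at q1 q3 q5
  rw [cr_neg_left] at q2 q4 q6
  refine ⟨⟨p1, ?_⟩, ⟨p2, ?_⟩, ⟨p3, ?_⟩⟩
  · rw [cr_neg_right]
    linarith
  · rw [cr_neg_left]
    linarith
  · rw [cr_neg_right]
    linarith

/-- a symmetric cover of area `≤ √3/2` containing `w T + t`: then `t = 0` -/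
theorem t_zero {K : Set ℂ} (hK : Good K) (hs : ∀ z ∈ K, -z ∈ K) {w t : ℂ} (hw : ‖w‖ = 1)
    (h0 : w * t0 + t ∈ K) (h1 : w * t1 + t ∈ K) (h2 : w * t2 + t ∈ K)
    (hv : (volume K).toReal ≤ √3 / 2) : t = 0 := by
  have hT := tri_t (t := t) hw
  obtain ⟨⟨p1, e1⟩, ⟨p2, e2⟩, ⟨p3, e3⟩⟩ := six_tight hK hs hT h0 h1 h2 hv
  have d1 := tight_dist hK h0 (hs _ h2) p1 e1
  have d2 := tight_dist hK (hs _ h2) h1 p2 e2
  have d3 := tight_dist hK h1 (hs _ h0) p3 e3
  have har := hT.area
  rw [cr_neg_right] at d1 d3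
  rw [cr_neg_left] at d2
  have hw0 : w ≠ 0 := by
    intro h
    rw [h, norm_zero] at hw
    exact zero_ne_one hw
  have hsum : t0 + t1 + t2 = 0 := by
    apply Complex.ext
    · simp [t0, t1, t2]; ring
    · simp [t0, t1, t2]
  have f1 : ‖w * t0 + t - -(w * t2 + t)‖ = ‖2 * (t / w) - t1‖ := by
    have : w * t0 + t - -(w * t2 + t) = w * (2 * (t / w) - t1) := by
      have h5 : w * (t / w) = t := mul_div_cancel₀ t hw0
      linear_combination w * hsum - 2 * h5
    rw [this, norm_mul, hw, one_mul]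
  have f2 : ‖-(w * t2 + t) - (w * t1 + t)‖ = ‖2 * (t / w) - t0‖ := by
    have : -(w * t2 + t) - (w * t1 + t) = -(w * (2 * (t / w) - t0)) := by
      have h5 : w * (t / w) = t := mul_div_cancel₀ t hw0
      linear_combination -w * hsum + 2 * h5
    rw [this, norm_neg, norm_mul, hw, one_mul]
  have f3 : ‖w * t1 + t - -(w * t0 + t)‖ = ‖2 * (t / w) - t2‖ := by
    have : w * t1 + t - -(w * t0 + t) = w * (2 * (t / w) - t2) := by
      have h5 : w * (t / w) = t := mul_div_cancel₀ t hw0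
      linear_combination w * hsum - 2 * h5
    rw [this, norm_mul, hw, one_mul]
  rw [f1] at d1
  rw [f2] at d2
  rw [f3] at d3
  have hz := s_zero (s := t / w) (by linarith)
  rcases div_eq_zero_iff.1 hz with h | h
  · exact h
  · exact absurd h hw0

/-- uniqueness, centred version -/
theorem unique_centred {K : Set ℂ} (hK : Good K) (hs : ∀ z ∈ K, -z ∈ K) {w t : ℂ} (hw : ‖w‖ = 1)
    (h0 : w * t0 + t ∈ K) (h1 : w * t1 + t ∈ K) (h2 : w * t2 + t ∈ K)
    (hv : volume K ≤ ENNReal.ofReal (√3 / 2)) :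
    ∃ u : ℂ, ‖u‖ = 1 ∧ K = (fun z => u * z) ⁻¹' Hex := by
  have h3 : 0 < √3 := by positivity
  have e3 : √3 * √3 = 3 := Real.mul_self_sqrt (by norm_num)
  have hv' : (volume K).toReal ≤ √3 / 2 := by
    have := ENNReal.toReal_mono ENNReal.ofReal_ne_top hv
    rwa [ENNReal.toReal_ofReal (by positivity)] at this
  have ht := t_zero hK hs hw h0 h1 h2 hv'
  subst ht
  have hT := tri_t (t := 0) hw
  obtain ⟨⟨p1, e1⟩, ⟨p2, e2⟩, ⟨p3, e4⟩⟩ := six_tight hK hs hT h0 h1 h2 hv'
  have hw2 : w.re ^ 2 + w.im ^ 2 = 1 := by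
    have : ‖w‖ ^ 2 = 1 := by rw [hw]; norm_num
    rw [← Complex.normSq_eq_norm_sq, Complex.normSq_apply] at this
    nlinarith
  set u : ℂ := -Complex.I * (starRingEnd ℂ) w with hu
  have hun : ‖u‖ = 1 := by
    rw [hu, norm_mul, norm_neg, Complex.norm_I, one_mul, RCLike.norm_conj, hw]
  have half : ∀ x ∈ K, (u * x).re ≤ 1 / 2 ∧ (u * x).re / 2 + √3 / 2 * (u * x).im ≤ 1 / 2 ∧
      (u * x).re / 2 - √3 / 2 * (u * x).im ≤ 1 / 2 := by
    intro x hx
    have g1 := tight_edge hK h0 (hs _ h2) p1 e1 hx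
    have g2 := tight_edge hK (hs _ h2) h1 p2 e2 hx
    have g3 := tight_edge hK h1 (hs _ h0) p3 e4 hx
    have ur : (u * x).re = w.re * x.im - w.im * x.re := by
      rw [hu]
      simp only [Complex.mul_re, Complex.mul_im, Complex.neg_re, Complex.neg_im, Complex.I_re,
        Complex.I_im, Complex.conj_re, Complex.conj_im]
      ring
    have ui : (u * x).im = -(w.re * x.re + w.im * x.im) := by
      simp [hu]
      ring
    have k1 : cr (w * t0 + 0) x + cr x (-(w * t2 + 0))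
        = √3 / 3 * ((u * x).re / 2 - √3 / 2 * (u * x).im)
          + (√3 * √3 - 3) * 0 := by
      rw [ur, ui]
      unfold cr
      simp only [Complex.add_re, Complex.add_im, Complex.mul_re, Complex.mul_im, Complex.neg_re,
        Complex.neg_im, Complex.zero_re, Complex.zero_im, t0, t2]
      linear_combination (-(w.re * x.re + w.im * x.im) / 6) * e3
    have k2 : cr (-(w * t2 + 0)) x + cr x (w * t1 + 0) = √3 / 3 * (u * x).re := by
      rw [ur]
      unfold cr
      simp only [Complex.add_re, Complex.add_im, Complex.mul_re, Complex.mul_im, Complex.neg_re,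
        Complex.neg_im, Complex.zero_re, Complex.zero_im, t1, t2]
      ring
    have k3 : cr (w * t1 + 0) x + cr x (-(w * t0 + 0))
        = √3 / 3 * ((u * x).re / 2 + √3 / 2 * (u * x).im) := by
      rw [ur, ui]
      unfold cr
      simp only [Complex.add_re, Complex.add_im, Complex.mul_re, Complex.mul_im, Complex.neg_re,
        Complex.neg_im, Complex.zero_re, Complex.zero_im, t1, t0]
      linear_combination ((w.re * x.re + w.im * x.im) / 6) * e3
    have r1 : cr (w * t0 + 0) (-(w * t2 + 0)) = √3 / 6 := by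
      have : cr (w * t0 + 0) (-(w * t2 + 0)) = (w.re ^ 2 + w.im ^ 2) * (√3 / 6) := by
        unfold cr
        simp only [Complex.add_re, Complex.add_im, Complex.mul_re, Complex.mul_im, Complex.neg_re,
          Complex.neg_im, Complex.zero_re, Complex.zero_im, t0, t2]
        ring
      rw [this, hw2, one_mul]
    have r2 : cr (-(w * t2 + 0)) (w * t1 + 0) = √3 / 6 := by
      have : cr (-(w * t2 + 0)) (w * t1 + 0) = (w.re ^ 2 + w.im ^ 2) * (√3 / 6) := by
        unfold cr
        simp only [Complex.add_re, Complex.add_im, Complex.mul_re, Complex.mul_im, Complex.neg_re,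
          Complex.neg_im, Complex.zero_re, Complex.zero_im, t1, t2]
        ring
      rw [this, hw2, one_mul]
    have r3 : cr (w * t1 + 0) (-(w * t0 + 0)) = √3 / 6 := by
      have : cr (w * t1 + 0) (-(w * t0 + 0)) = (w.re ^ 2 + w.im ^ 2) * (√3 / 6) := by
        unfold cr
        simp only [Complex.add_re, Complex.add_im, Complex.mul_re, Complex.mul_im, Complex.neg_re,
          Complex.neg_im, Complex.zero_re, Complex.zero_im, t1, t0]
        ring
      rw [this, hw2, one_mul]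
    rw [k1, r1] at g1
    rw [k2, r2] at g2
    rw [k3, r3] at g3
    refine ⟨?_, ?_, ?_⟩
    · nlinarith
    · nlinarith
    · nlinarith
  have hsub : K ⊆ (fun z => u * z) ⁻¹' Hex := by
    intro x hx
    obtain ⟨a1, a2, a3⟩ := half x hx
    obtain ⟨b1, b2, b3⟩ := half (-x) (hs _ hx)
    rw [mul_neg, Complex.neg_re] at b1 b2 b3
    rw [Complex.neg_im] at b2 b3
    rw [Set.mem_preimage]
    refine ⟨?_, ?_, ?_⟩ <;> rw [abs_le] <;> constructor <;> linarith
  refine ⟨u, hun, ?_⟩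
  -- equality of volumes
  have hrot : volume ((fun z => u * z) ⁻¹' Hex) = volume Hex := by
    have h1 : (⇑(rotation ⟨u, mem_sphere_zero_iff_norm.2 hun⟩) : ℂ → ℂ) = fun z => u * z := by
      funext z
      rfl
    rw [← h1]
    exact (rotation ⟨u, mem_sphere_zero_iff_norm.2 hun⟩).measurePreserving.measure_preimage
      hex_closed.measurableSet.nullMeasurableSet
  have hcl : IsClosed ((fun z => u * z) ⁻¹' Hex) := hex_closed.preimage (by fun_prop)
  have hcv : Convex ℝ ((fun z => u * z) ⁻¹' Hex) := by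
    have h1 : (fun z => u * z) = ⇑((LinearMap.mulLeft ℝ u)) := by
      funext z
      rfl
    rw [h1]
    exact hex_convex.linear_preimage _
  have hvK : ENNReal.ofReal (√3 / 2) ≤ volume K := by
    have := central_bound hK hs hT h0 h1 h2
    exact ENNReal.ofReal_le_of_le_toReal this
  have hdiff : volume ((fun z => u * z) ⁻¹' Hex \ K) = 0 := by
    rw [measure_sdiff hsub hK.closed.measurableSet.nullMeasurableSet hK.fin, hrot, hex_volume]
    exact tsub_eq_zero_of_le hvK
  have hin : (interior ((fun z => u * z) ⁻¹' Hex)).Nonempty := by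
    refine ⟨0, ?_⟩
    rw [mem_interior_iff_mem_nhds]
    refine Filter.mem_of_superset (Metric.closedBall_mem_nhds (0 : ℂ) (by norm_num : (0 : ℝ) < 1 / 2)) ?_
    intro z hz
    exact hsub (hK.disk hz)
  have hint : interior ((fun z => u * z) ⁻¹' Hex) ⊆ K := by
    intro z hz
    by_contra hzK
    have ho : IsOpen (interior ((fun z => u * z) ⁻¹' Hex) \ K) :=
      isOpen_interior.sdiff hK.closed
    have hpos := ho.measure_pos volume ⟨z, hz, hzK⟩
    have hle : volume (interior ((fun z => u * z) ⁻¹' Hex) \ K) ≤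
        volume ((fun z => u * z) ⁻¹' Hex \ K) :=
      measure_mono (Set.sdiff_subset_sdiff_left interior_subset)
    rw [hdiff] at hle
    exact absurd hpos (not_lt.2 hle)
  apply Set.Subset.antisymm hsub
  have h5 := hcv.closure_interior_eq_closure_of_nonempty_interior hin
  rw [hcl.closure_eq] at h5
  rw [← h5]
  exact closure_minimal hint hK.closed

end PoolLebSym
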